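import Pool.Agent.V8H8.AB.GaussC

/-!
# Rational integers among the Gaussian integers: radicals
-/

set_option autoImplicit false

namespace Pool.Agent.V8H8.AB

open NumberField Height IsDedekindDomain
open Pool.Agent.TH402.AK (K4 z4 z4_sq emb emb_apply emb_inj e e_coe place_e sum_mult absNorm_e exists_gen
  unit_cases)

/-- the radical of a rational integer -/
noncomputable def radZ (n : ℤ) : ℝ := ∏ p ∈ n.natAbs.primeFactors, (p : ℝ)

lemma radZ_pos (n : ℤ) : 0 < radZ n := by
  unfold radZ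
  refine Finset.prod_pos fun p hp => ?_
  exact_mod_cast (Nat.prime_of_mem_primeFactors hp).pos

lemma radZ_ge_one (n : ℤ) : 1 ≤ radZ n := by
  unfold radZ
  have h := Finset.prod_le_prod (s := n.natAbs.primeFactors) (f := fun _ : ℕ => (1 : ℝ))
    (g := fun p : ℕ => (p : ℝ)) (fun _ _ => zero_le_one) fun p hp => by
      exact_mod_cast (Nat.prime_of_mem_primeFactors hp).one_lt.le
  simpa using h

lemma prime_of_norm {z : GaussianInt} {p : ℕ} (hp : p.Prime) (h : z.norm.natAbs = p) : Prime z := by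
  rw [← irreducible_iff_prime]
  refine ⟨fun hu => ?_, fun x y hxy => ?_⟩
  · rw [← Zsqrtd.norm_eq_one_iff, h] at hu
    exact hp.one_lt.ne' hu
  · rw [hxy, Zsqrtd.norm_mul, Int.natAbs_mul] at h
    have h1 : x.norm.natAbs ∣ p := ⟨_, h.symm⟩
    rcases (Nat.dvd_prime hp).1 h1 with h2 | h2
    · left
      exact Zsqrtd.norm_eq_one_iff.1 h2
    · right
      rw [h2] at h
      have h3 : y.norm.natAbs = 1 := Nat.eq_of_mul_eq_mul_left hp.pos (by rw [h, mul_one])
      exact Zsqrtd.norm_eq_one_iff.1 h3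

lemma two_eq : (2 : GaussianInt) = ⟨1, 1⟩ * ⟨1, -1⟩ := by decide

/-- each rational prime dividing a rational integer whose Gaussian primes are among those of `S` -/
lemma prime_dvd {m : GaussianInt} {S : Finset GaussianInt} (hS : IsPrimeSystem S m) {p : ℕ}
    (hp : p.Prime) (h : ∀ Q : GaussianInt, Prime Q → Q ∣ (p : GaussianInt) → Q ∣ m) :
    (p : GaussianInt) ∣ ⟨1, 1⟩ * ∏ Q ∈ S, Q := by
  classical
  obtain ⟨hS1, hS2, hS3⟩ := hS
  have := Fact.mk hp
  have hall : ∀ Q : GaussianInt, Prime Q → Q ∣ (p : GaussianInt) → ∃ R ∈ S, Associated Q R :=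
    fun Q hQ hQp => hS2 Q hQ (h Q hQ hQp)
  by_cases h3 : p % 4 = 3
  · have hP := GaussianInt.prime_of_nat_prime_of_mod_four_eq_three p h3
    obtain ⟨R, hR, hPR⟩ := hall _ hP dvd_rfl
    exact (hPR.dvd.trans (Finset.dvd_prod_of_mem _ hR)).trans (dvd_mul_left _ _)
  obtain ⟨a, b, hab⟩ := Nat.Prime.sq_add_sq (p := p) h3
  have hπ : (p : GaussianInt) = ⟨a, b⟩ * ⟨a, -b⟩ := by
    have h5 : ((a ^ 2 + b ^ 2 : ℕ) : ℤ) = a * a - -1 * b * b := by
      push_cast
      ring
    have h6 : ((p : ℤ) : GaussianInt) = ⟨a, b⟩ * ⟨a, -b⟩ := by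
      rw [← hab, h5]
      ext
      · simp
      · simp
        ring
    simpa using h6
  have hn1 : (⟨a, b⟩ : GaussianInt).norm.natAbs = p := by
    rw [← hab, Zsqrtd.norm_def]
    have : ((a : ℤ) * a - -1 * b * b) = ((a ^ 2 + b ^ 2 : ℕ) : ℤ) := by push_cast; ring
    rw [this, Int.natAbs_natCast]
  have hn2 : (⟨a, -b⟩ : GaussianInt).norm.natAbs = p := by
    rw [← hab, Zsqrtd.norm_def]
    have : ((a : ℤ) * a - -1 * (-b) * (-b)) = ((a ^ 2 + b ^ 2 : ℕ) : ℤ) := by push_cast; ring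
    rw [this, Int.natAbs_natCast]
  have p1 := prime_of_norm hp hn1
  have p2 := prime_of_norm hp hn2
  obtain ⟨R1, hR1, h1⟩ := hall _ p1 ⟨_, hπ⟩
  obtain ⟨R2, hR2, h2⟩ := hall _ p2 ⟨⟨a, b⟩, by rw [hπ, mul_comm]⟩
  by_cases hR : R1 = R2
  · -- the ramified prime
    subst hR
    have h4 : Associated (⟨a, b⟩ : GaussianInt) ⟨a, -b⟩ := h1.trans h2.symm
    obtain ⟨u, hu⟩ := h4
    have hab' : a = b := by
      rcases unit_cases u.isUnit with h | h | h | h
      · rw [h, mul_one, Zsqrtd.ext_iff] at hu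
        simp only [true_and] at hu
        have hb : b = 0 := by omega
        rw [hb] at hab
        have h5 : a ^ 2 = p := by simpa using hab
        exact absurd (h5 ▸ hp) (Nat.Prime.not_prime_pow le_rfl)
      · rw [h, Zsqrtd.ext_iff] at hu
        simp at hu
        have ha : a = 0 := by omega
        rw [ha] at hab
        have h5 : b ^ 2 = p := by simpa using hab
        exact absurd (h5 ▸ hp) (Nat.Prime.not_prime_pow le_rfl)
      · rw [h, Zsqrtd.ext_iff] at hu
        simp at hu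
        omega
      · rw [h, Zsqrtd.ext_iff] at hu
        simp at hu
        omega
    subst hab'
    have hp2 : p = 2 := by
      have h5 : 2 ∣ p := ⟨a ^ 2, by rw [← hab]; ring⟩
      exact ((Nat.prime_dvd_prime_iff_eq Nat.prime_two hp).1 h5).symm
    have ha1 : a = 1 := by
      rw [hp2] at hab
      have : a ^ 2 = 1 := by omega
      nlinarith
    subst ha1
    rw [hπ]
    push_cast
    refine mul_dvd_mul_left _ ?_
    exact h2.dvd.trans (Finset.dvd_prod_of_mem _ hR1)
  · have h5 : R1 * R2 ∣ ∏ Q ∈ S, Q := by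
      rw [← Finset.mul_prod_erase S _ hR1]
      exact mul_dvd_mul_left _ (Finset.dvd_prod_of_mem (fun Q => Q)
        (Finset.mem_erase.2 ⟨fun h => hR h.symm, hR2⟩))
    rw [hπ]
    exact ((mul_dvd_mul h1.dvd h2.dvd).trans h5).trans (dvd_mul_left _ _)

/-- the rational radical is at most twice the Gaussian one -/
lemma radZ_le {m : GaussianInt} {S : Finset GaussianInt} (hS : IsPrimeSystem S m) {n : ℤ}
    (h : ∀ Q : GaussianInt, Prime Q → Q ∣ (n : GaussianInt) → Q ∣ m) :
    radZ n ≤ 2 * ∏ Q ∈ S, ‖GaussianInt.toComplex Q‖ := by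
  classical
  have h1 : (∏ p ∈ n.natAbs.primeFactors, (p : GaussianInt)) ∣ ⟨1, 1⟩ * ∏ Q ∈ S, Q := by
    refine Finset.prod_dvd_of_coprime ?_ ?_
    · intro p hp q hq hpq
      have h2 : Nat.Coprime p q := (Nat.coprime_primes (Nat.prime_of_mem_primeFactors hp)
        (Nat.prime_of_mem_primeFactors hq)).2 hpq
      have h3 := (Nat.isCoprime_iff_coprime.2 h2).map (Int.castRingHom GaussianInt)
      simpa using h3
    · intro p hp
      have hp' := Nat.prime_of_mem_primeFactors hp
      refine prime_dvd hS hp' fun Q hQ hQp => h Q hQ (hQp.trans ?_)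
      have h4 : (p : ℤ) ∣ n := Int.natCast_dvd.2 (Nat.dvd_of_mem_primeFactors hp)
      have h5 := map_dvd (Int.castRingHom GaussianInt) h4
      simpa using h5
  obtain ⟨k, hk⟩ := h1
  have h2 := congrArg (fun z => ‖GaussianInt.toComplex z‖) hk
  simp only [map_mul, map_prod, norm_mul, norm_prod] at h2
  have h3 : ∏ p ∈ n.natAbs.primeFactors, ‖GaussianInt.toComplex (p : GaussianInt)‖ = radZ n := by
    unfold radZ
    refine Finset.prod_congr rfl fun p _ => ?_
    rw [map_natCast, Complex.norm_natCast]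
  have h4 : ‖GaussianInt.toComplex (⟨1, 1⟩ : GaussianInt)‖ ≤ 2 := by
    rw [GaussianInt.toComplex_def]
    refine (norm_add_le _ _).trans ?_
    simp
    norm_num
  have hP : 0 < ∏ Q ∈ S, ‖GaussianInt.toComplex Q‖ := by
    refine Finset.prod_pos fun Q hQ => ?_
    rw [norm_pos_iff]
    intro h0
    exact (hS.1 Q hQ).1.ne_zero (GaussianInt.toComplex_injective (h0.trans (map_zero _).symm))
  have hk0 : k ≠ 0 := by
    rintro rfl
    rw [mul_zero, mul_eq_zero] at hk
    rcases hk with hk | hk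
    · exact absurd hk (by decide)
    · rw [Finset.prod_eq_zero_iff] at hk
      obtain ⟨Q, hQ, h0⟩ := hk
      exact (hS.1 Q hQ).1.ne_zero h0
  have hk1 : 1 ≤ ‖GaussianInt.toComplex k‖ := by
    have h5 : (1 : ℝ) ≤ ‖GaussianInt.toComplex k‖ ^ 2 := by
      rw [← Complex.normSq_eq_norm_sq, ← GaussianInt.intCast_real_norm]
      have h6 : 0 < k.norm := (GaussianInt.norm_pos).2 hk0
      exact_mod_cast h6
    by_contra hcon
    push Not at hcon
    have := pow_lt_one₀ (norm_nonneg (GaussianInt.toComplex k)) hcon two_ne_zero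
    linarith
  rw [h3] at h2
  calc radZ n ≤ radZ n * ‖GaussianInt.toComplex k‖ := le_mul_of_one_le_right (radZ_pos n).le hk1
    _ = ‖GaussianInt.toComplex (⟨1, 1⟩ : GaussianInt)‖ * ∏ Q ∈ S, ‖GaussianInt.toComplex Q‖ := h2.symm
    _ ≤ 2 * ∏ Q ∈ S, ‖GaussianInt.toComplex Q‖ := mul_le_mul_of_nonneg_right h4 hP.le

/-- the weight of the primes dividing `r` -/
lemma W_le {r : GaussianInt} (hr : r ≠ 0) : {v : FinitePlace K4 | e r ∈ v.maximalIdeal.asIdeal}.Finite ∧
    W {v : FinitePlace K4 | e r ∈ v.maximalIdeal.asIdeal} ≤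
      2 * Real.log (max ‖GaussianInt.toComplex r‖ 1) := by
  obtain ⟨h1, h2⟩ := count ![emb r, emb 1] 0 (by simpa using emb_ne hr)
  have hsub : {v : FinitePlace K4 | e r ∈ v.maximalIdeal.asIdeal} ⊆
      {v : FinitePlace K4 | ∃ i, v ((![emb r, emb 1] : Fin 2 → K4) 0) <
        v ((![emb r, emb 1] : Fin 2 → K4) i)} := by
    intro v hv
    refine ⟨1, ?_⟩
    have h3 := (fin_lt_one v r).2 hv
    simpa using h3
  have h3 := hh_gauss (a := r) (c := 1) isCoprime_one_right one_ne_zero
  unfold hh at h3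
  simp only [map_one, norm_one] at h3
  refine ⟨h1.subset hsub, (W_mono h1 hsub).trans (h2.trans ?_)⟩
  rw [map_one, h3]

/-- the weight of the primes dividing a rational integer -/
lemma W_rat {n : ℤ} (hn : n ≠ 0) :
    W {v : FinitePlace K4 | e (n : GaussianInt) ∈ v.maximalIdeal.asIdeal} ≤ 2 * Real.log (radZ n) := by
  classical
  set r : ℕ := ∏ p ∈ n.natAbs.primeFactors, p with hr
  have hr0 : r ≠ 0 := by
    rw [hr, Finset.prod_ne_zero_iff]
    intro p hp
    exact (Nat.prime_of_mem_primeFactors hp).ne_zero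
  have hrR : (r : ℝ) = radZ n := by
    rw [hr]
    unfold radZ
    push_cast
    rfl
  have hr0' : (r : GaussianInt) ≠ 0 := by exact_mod_cast hr0
  obtain ⟨h1, h2⟩ := W_le hr0'
  have hsub : {v : FinitePlace K4 | e (n : GaussianInt) ∈ v.maximalIdeal.asIdeal} ⊆
      {v : FinitePlace K4 | e (r : GaussianInt) ∈ v.maximalIdeal.asIdeal} := by
    intro v hv
    have hp := v.maximalIdeal.isPrime
    simp only [Set.mem_ofPred_eq] at hv ⊢
    have hd : n ∣ (r : ℤ) ^ n.natAbs := by
      rw [← Int.natAbs_dvd]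
      have h3 : n.natAbs ∣ r ^ n.natAbs := by
        exact Nat.dvd_prod_primeFactors_pow_self (Int.natAbs_ne_zero.2 hn)
      exact_mod_cast h3
    have h4 := map_dvd (Int.castRingHom GaussianInt) hd
    have h5 := map_dvd e h4
    simp only [eq_intCast, Int.cast_natCast, map_pow] at h5
    exact hp.mem_of_pow_mem _ (v.maximalIdeal.asIdeal.mem_of_dvd h5 hv)
  refine (W_mono h1 hsub).trans (h2.trans ?_)
  rw [← hrR, map_natCast, Complex.norm_natCast, max_eq_left]
  exact_mod_cast Nat.one_le_iff_ne_zero.2 hr0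

end Pool.Agent.V8H8.AB
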