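import Mathlib

/-!
# Heights and radicals of points on the line `a + b + c = 0` over a number field

Pairs `(x, y)` stand for the triples `(x, y - x, -y)`.
-/

set_option autoImplicit false

namespace Pool.Agent.V8H8.AB

open NumberField Height IsDedekindDomain MvPolynomial

variable {K : Type} [Field K] [NumberField K]

/-- the norm of the prime of a finite place -/
noncomputable def Nv (v : FinitePlace K) : ℝ := (Ideal.absNorm v.maximalIdeal.asIdeal : ℝ)

lemma one_lt_Nv (v : FinitePlace K) : 1 < Nv v := by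
  have h := HeightOneSpectrum.one_lt_absNorm v.maximalIdeal
  unfold Nv
  exact_mod_cast h

lemma log_Nv_pos (v : FinitePlace K) : 0 < Real.log (Nv v) := Real.log_pos (one_lt_Nv v)

lemma val_zpow (v : FinitePlace K) {x : K} (hx : x ≠ 0) : ∃ n : ℤ, v x = Nv v ^ n := by
  rw [← FinitePlace.norm_embedding_eq, FinitePlace.norm_embedding']
  have h0 : v.maximalIdeal.valuation K x ≠ 0 := by simpa using hx
  refine ⟨Multiplicative.toAdd (WithZero.unzero h0), ?_⟩
  rw [WithZeroMulInt.toNNReal_neg_apply _ h0]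
  push_cast
  rfl

lemma gap (v : FinitePlace K) {x : K} (h : 1 < v x) : Nv v ≤ v x := by
  have hx : x ≠ 0 := by
    rintro rfl
    rw [map_zero] at h
    linarith
  obtain ⟨n, hn⟩ := val_zpow v hx
  rw [hn] at h ⊢
  have h1 : 0 < n := by
    by_contra hcon
    push Not at hcon
    have := zpow_le_one_of_nonpos₀ (one_lt_Nv v).le hcon
    linarith
  calc Nv v = Nv v ^ (1 : ℤ) := (zpow_one _).symm
    _ ≤ Nv v ^ n := zpow_le_zpow_right₀ (one_lt_Nv v).le h1

lemma finite_ne_one {x : K} (hx : x ≠ 0) : {v : FinitePlace K | v x ≠ 1}.Finite :=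
  FinitePlace.hasFiniteMulSupport hx

/-- the weight of a set of finite places -/
noncomputable def W (A : Set (FinitePlace K)) : ℝ := ∑ᶠ v ∈ A, Real.log (Nv v)

lemma W_eq {A : Set (FinitePlace K)} (hA : A.Finite) : W A = ∑ v ∈ hA.toFinset, Real.log (Nv v) :=
  finsum_mem_eq_finite_toFinset_sum _ hA

lemma W_mono {A B : Set (FinitePlace K)} (hB : B.Finite) (h : A ⊆ B) : W A ≤ W B := by
  rw [W_eq hB, W_eq (hB.subset h)]
  refine Finset.sum_le_sum_of_subset_of_nonneg ?_ fun v _ _ => (log_Nv_pos v).le
  intro v hv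
  simp only [Set.Finite.mem_toFinset] at hv ⊢
  exact h hv

lemma W_union {A B : Set (FinitePlace K)} (hA : A.Finite) (hB : B.Finite) :
    W (A ∪ B) ≤ W A + W B := by
  classical
  rw [W_eq hA, W_eq hB, W_eq (hA.union hB), Set.Finite.toFinset_union hA hB]
  have h := Finset.sum_union_inter (s₁ := hA.toFinset) (s₂ := hB.toFinset)
    (f := fun v => Real.log (Nv v))
  have h2 : 0 ≤ ∑ v ∈ hA.toFinset ∩ hB.toFinset, Real.log (Nv v) :=
    Finset.sum_nonneg fun v _ => (log_Nv_pos v).le
  linarith

lemma W_nonneg (A : Set (FinitePlace K)) : 0 ≤ W A :=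
  finsum_nonneg fun v => finsum_nonneg fun _ => (log_Nv_pos v).le

/-- the counting inequality: the places where one coordinate is not of maximal size -/
lemma count {ι : Type} [Fintype ι] (z : ι → K) (i0 : ι) (h0 : z i0 ≠ 0) :
    {v : FinitePlace K | ∃ i, v (z i0) < v (z i)}.Finite ∧
      W {v : FinitePlace K | ∃ i, v (z i0) < v (z i)} ≤ logHeight z := by
  classical
  have hne : Nonempty ι := ⟨i0⟩
  have hfin : {v : FinitePlace K | ∃ i, v (z i0) < v (z i)}.Finite := by
    refine Set.Finite.subset (Set.finite_iUnion (f := fun i : ι =>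
      {v : FinitePlace K | z i ≠ 0 ∧ v (z i) ≠ v (z i0)}) fun i => ?_) ?_
    · by_cases hi : z i = 0
      · simp [hi]
      · refine ((finite_ne_one hi).union (finite_ne_one h0)).subset ?_
        rintro v ⟨-, h2⟩
        by_contra hcon
        simp only [Set.mem_union, Set.mem_ofPred_eq, not_or, not_not] at hcon
        exact h2 (hcon.1.trans hcon.2.symm)
    · rintro v ⟨i, hi⟩
      refine Set.mem_iUnion.2 ⟨i, ?_, ne_of_gt hi⟩
      rintro hz
      rw [hz, map_zero] at hi
      exact absurd hi (not_lt.2 (apply_nonneg v _))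
  refine ⟨hfin, ?_⟩
  set y : ι → K := (z i0)⁻¹ • z with hy
  have hy0 : y i0 = 1 := by
    simp [hy, h0]
  have hyne : y ≠ 0 := by
    intro h
    rw [h] at hy0
    simp at hy0
  have hh : logHeight z = logHeight y := (logHeight_smul_eq_logHeight z (inv_ne_zero h0)).symm
  rw [hh, logHeight_eq_log_mulHeight, NumberField.mulHeight_eq hyne]
  have hv1 : ∀ v : FinitePlace K, 1 ≤ ⨆ i, v (y i) := fun v => by
    have := le_ciSup (f := fun i => v (y i)) (Set.finite_range _).bddAbove i0
    simpa [hy0] using this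
  have hw1 : ∀ w : InfinitePlace K, 1 ≤ ⨆ i, w (y i) := fun w => by
    have := le_ciSup (f := fun i => w (y i)) (Set.finite_range _).bddAbove i0
    simpa [hy0] using this
  have hbig : ∀ v ∈ {v : FinitePlace K | ∃ i, v (z i0) < v (z i)}, Nv v ≤ ⨆ i, v (y i) := by
    rintro v ⟨i, hi⟩
    have h1 : 1 < v (y i) := by
      have h2 : v (y i) = v (z i) / v (z i0) := by
        simp only [hy, Pi.smul_apply, smul_eq_mul, map_mul, map_inv₀]
        rw [mul_comm, div_eq_mul_inv]
      rw [h2, one_lt_div (FinitePlace.pos_iff.2 h0)]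
      exact hi
    exact (gap v h1).trans (le_ciSup (f := fun i => v (y i)) (Set.finite_range _).bddAbove i)
  have hsupp : (Function.mulSupport fun v : FinitePlace K => ⨆ i, v (y i)).Finite := by
    refine Set.Finite.subset (Set.finite_iUnion (f := fun i : ι =>
      {v : FinitePlace K | y i ≠ 0 ∧ v (y i) ≠ 1}) fun i => ?_) ?_
    · by_cases hi : y i = 0
      · simp [hi]
      · exact (finite_ne_one hi).subset fun v hv => hv.2
    · intro v hv
      obtain ⟨i, hi⟩ := exists_eq_ciSup_of_finite (f := fun i => v (y i))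
      refine Set.mem_iUnion.2 ⟨i, ?_, ?_⟩
      · intro h
        rw [h, map_zero] at hi
        have := hv1 v
        rw [← hi] at this
        linarith
      · intro h
        rw [h] at hi
        exact hv hi.symm
  have hinf : 1 ≤ ∏ w : InfinitePlace K, (⨆ i, w (y i)) ^ w.mult := by
    have h := Finset.prod_le_prod (s := (Finset.univ : Finset (InfinitePlace K)))
      (f := fun _ => (1 : ℝ)) (g := fun w => (⨆ i, w (y i)) ^ w.mult)
      (fun _ _ => zero_le_one) fun w _ => one_le_pow₀ (hw1 w)
    simpa using h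
  have hF : ∏ v ∈ hfin.toFinset, Nv v ≤ ∏ᶠ v : FinitePlace K, ⨆ i, v (y i) := by
    rw [finprod_eq_prod_of_mulSupport_subset (s := hsupp.toFinset ∪ hfin.toFinset) _ (by
      intro v hv
      simp only [Finset.coe_union, Set.Finite.coe_toFinset]
      exact Or.inl hv)]
    calc ∏ v ∈ hfin.toFinset, Nv v ≤ ∏ v ∈ hfin.toFinset, ⨆ i, v (y i) :=
          Finset.prod_le_prod (fun v _ => (zero_lt_one.trans (one_lt_Nv v)).le)
            fun v hv => hbig v (hfin.mem_toFinset.1 hv)
      _ ≤ ∏ v ∈ hsupp.toFinset ∪ hfin.toFinset, ⨆ i, v (y i) := by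
          rw [← Finset.prod_sdiff (Finset.subset_union_right (s₁ := hsupp.toFinset)
            (s₂ := hfin.toFinset))]
          have h := Finset.prod_le_prod (s := (hsupp.toFinset ∪ hfin.toFinset) \ hfin.toFinset)
            (f := fun _ => (1 : ℝ)) (g := fun v : FinitePlace K => ⨆ i, v (y i))
            (fun _ _ => zero_le_one) fun v _ => hv1 v
          simp only [Finset.prod_const_one] at h
          exact le_mul_of_one_le_left (Finset.prod_nonneg fun v _ => zero_le_one.trans (hv1 v)) h
  have hpos : 0 < ∏ v ∈ hfin.toFinset, Nv v :=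
    Finset.prod_pos fun v _ => zero_lt_one.trans (one_lt_Nv v)
  have h1 : W {v : FinitePlace K | ∃ i, v (z i0) < v (z i)} =
      Real.log (∏ v ∈ hfin.toFinset, Nv v) := by
    rw [W_eq hfin, Real.log_prod]
    intro v _
    exact (zero_lt_one.trans (one_lt_Nv v)).ne'
  rw [h1]
  refine Real.log_le_log hpos (hF.trans ?_)
  exact le_mul_of_one_le_left (hpos.le.trans hF) hinf

end Pool.Agent.V8H8.AB
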