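import Pool.Agent.V8H8.AB.Good

/-!
# The maps `t ↦ (a + b) ^ (a + b) / (a ^ a b ^ b) t ^ a (1 - t) ^ b`
-/

set_option autoImplicit false

namespace Pool.Agent.V8H8.AB

open NumberField Height IsDedekindDomain

variable {K : Type} [Field K] [NumberField K]

/-- `(a + b) ^ (a + b)` -/
def al (K : Type) [Field K] (a b : ℕ) : K := ((a + b : ℕ) : K) ^ (a + b)

/-- `a ^ a b ^ b` -/
def be (K : Type) [Field K] (a b : ℕ) : K := (a : K) ^ a * (b : K) ^ b

/-- the map `t ↦ (a + b) ^ (a + b) / (a ^ a b ^ b) t ^ a (1 - t) ^ b`, `t = x / y` -/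
def bm (a b : ℕ) (p : K × K) : K × K :=
  (al K a b * (p.1 ^ a * (p.2 - p.1) ^ b), be K a b * p.2 ^ (a + b))

lemma al_ne {a b : ℕ} (ha : 1 ≤ a) : al K a b ≠ 0 :=
  pow_ne_zero _ (Nat.cast_ne_zero.2 (by omega))

lemma be_ne {a b : ℕ} (ha : 1 ≤ a) (hb : 1 ≤ b) : be K a b ≠ 0 :=
  mul_ne_zero (pow_ne_zero _ (Nat.cast_ne_zero.2 (by omega)))
    (pow_ne_zero _ (Nat.cast_ne_zero.2 (by omega)))

section lower

open MvPolynomial

lemma bm_upper (a b : ℕ) : ∃ C : ℝ, ∀ p : K × K, hh (bm a b p) ≤ C + ((a + b : ℕ) : ℝ) * hh p := by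
  set P : Fin 2 → MvPolynomial (Fin 2) K :=
    ![C (al K a b) * (X 0 ^ a * (X 1 - X 0) ^ b), C (be K a b) * X 1 ^ (a + b)] with hP
  have hom : ∀ i, (P i).IsHomogeneous (a + b) := by
    intro i
    fin_cases i
    · have h := (isHomogeneous_C (Fin 2) (al K a b)).mul (((isHomogeneous_X K (0 : Fin 2)).pow a).mul
        (((isHomogeneous_X K (1 : Fin 2)).sub (isHomogeneous_X K (0 : Fin 2))).pow b))
      simpa [hP] using h
    · have h := (isHomogeneous_C (Fin 2) (be K a b)).mul ((isHomogeneous_X K (1 : Fin 2)).pow (a + b))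
      simpa [hP] using h
  obtain ⟨C, hC⟩ := logHeight_eval_le' hom
  refine ⟨C, fun p => ?_⟩
  have hz : (fun j => eval ![p.1, p.2] (P j)) = ![(bm a b p).1, (bm a b p).2] := by
    funext j
    fin_cases j <;> simp [hP, bm]
  have h1 := hC ![p.1, p.2]
  rw [hz] at h1
  exact h1

lemma bm_lower (a b : ℕ) (ha : 1 ≤ a) (hb : 1 ≤ b) :
    ∃ C : ℝ, ∀ p : K × K, C + ((a + b : ℕ) : ℝ) * hh p ≤ hh (bm a b p) := by
  set P : Fin 2 → MvPolynomial (Fin 2) K :=
    ![C (al K a b) * (X 0 ^ a * (X 1 - X 0) ^ b), C (be K a b) * X 1 ^ (a + b)] with hP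
  set N := a + b with hN
  set S : MvPolynomial (Fin 2) K := ∑ i ∈ Finset.range N, X 1 ^ i * X 0 ^ (N - 1 - i) with hS
  set w : MvPolynomial (Fin 2) K := -((X 1 - X 0) * S) with hw
  set T : MvPolynomial (Fin 2) K := ∑ i ∈ Finset.range b, (X 0 ^ N) ^ i * w ^ (b - 1 - i) with hT
  have homS : S.IsHomogeneous (N - 1) := by
    refine IsHomogeneous.sum _ _ _ fun i hi => ?_
    have h := ((isHomogeneous_X K (1 : Fin 2)).pow i).mul
      ((isHomogeneous_X K (0 : Fin 2)).pow (N - 1 - i))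
    have e : 1 * i + 1 * (N - 1 - i) = N - 1 := by
      have := Finset.mem_range.1 hi
      omega
    rw [e] at h
    exact h
  have homw : w.IsHomogeneous N := by
    have h := (((isHomogeneous_X K (1 : Fin 2)).sub (isHomogeneous_X K (0 : Fin 2))).mul homS).neg
    have e : 1 + (N - 1) = N := by omega
    rw [e] at h
    exact h
  have homT : T.IsHomogeneous (N * (b - 1)) := by
    refine IsHomogeneous.sum _ _ _ fun i hi => ?_
    have h := (((isHomogeneous_X K (0 : Fin 2)).pow N).pow i).mul (homw.pow (b - 1 - i))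
    have e : 1 * N * i + N * (b - 1 - i) = N * (b - 1) := by
      have := Finset.mem_range.1 hi
      rw [one_mul, ← Nat.mul_add]
      congr 1
      omega
    rw [e] at h
    exact h
  have hidS : S * (X 1 - X 0) = X 1 ^ N - X 0 ^ N := (Commute.all _ _).geom_sum₂_mul N
  have hidT : T * (X 0 ^ N - w) = (X 0 ^ N) ^ b - w ^ b := (Commute.all _ _).geom_sum₂_mul b
  have hNw : X 0 ^ N - w = X 1 ^ N := by
    rw [hw, mul_comm, hidS]
    ring
  set q : Fin 2 × Fin 2 → MvPolynomial (Fin 2) K := fun kj =>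
    (![![C ((al K a b)⁻¹ * (-1) ^ b) * S ^ b, C ((be K a b)⁻¹) * (X 0 ^ a * T)],
      ![0, C ((be K a b)⁻¹) * X 1 ^ ((N - 1) * b)]] : Fin 2 → Fin 2 → MvPolynomial (Fin 2) K) kj.1 kj.2
    with hq
  have homq : ∀ kj, (q kj).IsHomogeneous ((N - 1) * b) := by
    rintro ⟨k, j⟩
    fin_cases k <;> fin_cases j
    · have h := (isHomogeneous_C (Fin 2) ((al K a b)⁻¹ * (-1) ^ b)).mul (homS.pow b)
      rw [zero_add] at h
      exact h
    · have h := (isHomogeneous_C (Fin 2) ((be K a b)⁻¹)).mul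
        (((isHomogeneous_X K (0 : Fin 2)).pow a).mul homT)
      have e : 0 + (1 * a + N * (b - 1)) = (N - 1) * b := by
        obtain ⟨a', rfl⟩ : ∃ a', a = a' + 1 := ⟨a - 1, by omega⟩
        obtain ⟨b', rfl⟩ : ∃ b', b = b' + 1 := ⟨b - 1, by omega⟩
        rw [hN]
        have e1 : a' + 1 + (b' + 1) - 1 = a' + b' + 1 := by omega
        have e2 : b' + 1 - 1 = b' := by omega
        rw [e1, e2]
        ring
      rw [e] at h
      exact h
    · exact isHomogeneous_zero _ _ _
    · have h := (isHomogeneous_C (Fin 2) ((be K a b)⁻¹)).mul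
        ((isHomogeneous_X K (1 : Fin 2)).pow ((N - 1) * b))
      rw [zero_add, one_mul] at h
      exact h
  obtain ⟨C, hC⟩ := logHeight_eval_ge' (N := N) homq
  refine ⟨C, fun p => ?_⟩
  have hz : (fun j => eval ![p.1, p.2] (P j)) = ![(bm a b p).1, (bm a b p).2] := by
    funext j
    fin_cases j <;> simp [hP, bm, hN]
  have h1 := hC P (x := ![p.1, p.2]) (by
    have ea := al_ne (K := K) (b := b) ha
    have eb := be_ne (K := K) ha hb
    have k1 : eval ![p.1, p.2] (T * (X 0 ^ N - w)) = eval ![p.1, p.2] ((X 0 ^ N) ^ b - w ^ b) := by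
      rw [hidT]
    rw [hNw] at k1
    have k2 : eval ![p.1, p.2] w = -((p.2 - p.1) * eval ![p.1, p.2] S) := by
      simp [hw]
    simp only [map_mul, map_pow, map_sub, eval_X, Matrix.cons_val_zero, Matrix.cons_val_one, k2] at k1
    have hN2 : p.2 ^ N = p.2 ^ a * p.2 ^ b := by rw [hN, pow_add]
    intro k
    fin_cases k
    · simp only [hq, hP, Fin.sum_univ_two, Fin.zero_eta, Matrix.cons_val_zero, Matrix.cons_val_one,
        map_mul, map_pow, map_sub, eval_X, eval_C]
      have e3 : (N - 1) * b + N = a + N * b := by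
        rw [hN]
        obtain ⟨a', rfl⟩ : ∃ a', a = a' + 1 := ⟨a - 1, by omega⟩
        have e1 : a' + 1 + b - 1 = a' + b := by omega
        rw [e1]
        ring
      rw [e3, pow_add p.1 a (N * b), pow_mul p.1 N b]
      have e4 : (-((p.2 - p.1) * eval ![p.1, p.2] S)) ^ b =
          (-1) ^ b * (p.2 - p.1) ^ b * (eval ![p.1, p.2] S) ^ b := by
        rw [neg_pow, mul_pow]
        ring
      rw [e4] at k1
      have e5 : (p.1 ^ N) ^ b = eval ![p.1, p.2] T * p.2 ^ N +
          (-1) ^ b * (p.2 - p.1) ^ b * (eval ![p.1, p.2] S) ^ b := by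
        rw [k1]
        ring
      rw [e5, hN2]
      field_simp
      ring
    · simp only [hq, hP, Fin.sum_univ_two, Fin.mk_one, Matrix.cons_val_zero, Matrix.cons_val_one,
        map_mul, map_pow, map_sub, eval_X, eval_C, map_zero, zero_mul, zero_add]
      rw [pow_add p.2 ((N - 1) * b) N, hN2]
      field_simp)
  rw [hz] at h1
  exact h1

end lower

section double

open Polynomial

/-- the polynomial `β - α t ^ a (1 - t) ^ b` -/
noncomputable def FF (K : Type) [Field K] (a b : ℕ) : K[X] :=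
  C (be K a b) - C (al K a b) * (X ^ a * (1 - X) ^ b)

lemma one_sub_X : (1 - X : K[X]) = -(X - C 1) := by simp

lemma natDegree_XX (a b : ℕ) : (X ^ a * (1 - X) ^ b : K[X]).natDegree = a + b := by
  have h0 : (X ^ a : K[X]) ≠ 0 := pow_ne_zero _ X_ne_zero
  have h1 : (1 - X : K[X]) ≠ 0 := by
    rw [one_sub_X]
    exact neg_ne_zero.2 (X_sub_C_ne_zero 1)
  rw [natDegree_mul h0 (pow_ne_zero _ h1), natDegree_X_pow, natDegree_pow, one_sub_X, natDegree_neg,
    natDegree_X_sub_C, mul_one]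

lemma FF_natDegree {a b : ℕ} (ha : 1 ≤ a) : (FF K a b).natDegree = a + b := by
  unfold FF
  rw [natDegree_sub_eq_right_of_natDegree_lt]
  · rw [natDegree_C_mul (al_ne ha), natDegree_XX]
  · rw [natDegree_C, natDegree_C_mul (al_ne ha), natDegree_XX]
    omega

lemma FF_ne {a b : ℕ} (ha : 1 ≤ a) : FF K a b ≠ 0 := by
  intro h
  have := FF_natDegree (K := K) (b := b) ha
  rw [h, natDegree_zero] at this
  omega

lemma FF_eval (a b : ℕ) (t : K) :
    (FF K a b).eval t = be K a b - al K a b * (t ^ a * (1 - t) ^ b) := by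
  simp [FF]

lemma FF_double {a b : ℕ} (ha : 1 ≤ a) (hb : 1 ≤ b) :
    ∃ G : K[X], FF K a b = (X - C ((a : K) / ((a + b : ℕ) : K))) ^ 2 * G := by
  have hN : ((a + b : ℕ) : K) ≠ 0 := Nat.cast_ne_zero.2 (by omega)
  have ha0 : (a : K) ≠ 0 := Nat.cast_ne_zero.2 (by omega)
  have hb0 : (b : K) ≠ 0 := Nat.cast_ne_zero.2 (by omega)
  set t0 : K := (a : K) / ((a + b : ℕ) : K) with ht0
  have h1t : 1 - t0 = (b : K) / ((a + b : ℕ) : K) := by
    rw [ht0]
    field_simp
    push_cast
    ring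
  have hroot : (FF K a b).IsRoot t0 := by
    rw [IsRoot, FF_eval, h1t, ht0]
    unfold al be
    rw [div_pow, div_pow, pow_add]
    field_simp
    ring
  have hder : (derivative (FF K a b)).IsRoot t0 := by
    rw [IsRoot]
    obtain ⟨a', rfl⟩ : ∃ a', a = a' + 1 := ⟨a - 1, by omega⟩
    obtain ⟨b', rfl⟩ : ∃ b', b = b' + 1 := ⟨b - 1, by omega⟩
    unfold FF
    simp only [derivative_sub, derivative_C, derivative_mul, derivative_pow, derivative_X,
      derivative_one, zero_sub, eval_neg, eval_add, eval_mul, eval_C, eval_pow, eval_X, eval_sub,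
      eval_one, eval_zero, zero_mul, zero_add, map_natCast, eval_natCast, Nat.add_sub_cancel, h1t]
    rw [ht0]
    push_cast at hN ⊢
    field_simp
    ring
  have hm : 1 < (FF K a b).rootMultiplicity t0 :=
    (one_lt_rootMultiplicity_iff_isRoot (FF_ne ha)).2 ⟨hroot, hder⟩
  obtain ⟨G, hG⟩ := (pow_dvd_pow (X - C t0) hm).trans (pow_rootMultiplicity_dvd (FF K a b) t0)
  exact ⟨G, hG⟩

end double

section hom

open MvPolynomial

/-- the homogeneous form of degree `m` belonging to a polynomial -/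
noncomputable def homf (m : ℕ) (G : Polynomial K) : MvPolynomial (Fin 2) K :=
  ∑ i ∈ Finset.range (m + 1), C (G.coeff i) * (X 0 ^ i * X 1 ^ (m - i))

lemma homf_isHom (m : ℕ) (G : Polynomial K) : (homf m G).IsHomogeneous m := by
  refine IsHomogeneous.sum _ _ _ fun i hi => ?_
  have h := (isHomogeneous_C (Fin 2) (G.coeff i)).mul (((isHomogeneous_X K (0 : Fin 2)).pow i).mul
    ((isHomogeneous_X K (1 : Fin 2)).pow (m - i)))
  have e : 0 + (1 * i + 1 * (m - i)) = m := by
    have := Finset.mem_range.1 hi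
    omega
  rw [e] at h
  exact h

lemma homf_eval {m : ℕ} {G : Polynomial K} (hG : G.natDegree ≤ m) (p : K × K) (h2 : p.2 ≠ 0) :
    eval ![p.1, p.2] (homf m G) = p.2 ^ m * G.eval (p.1 / p.2) := by
  have h1 : G.eval (p.1 / p.2) = ∑ i ∈ Finset.range (m + 1), G.coeff i * (p.1 / p.2) ^ i :=
    Polynomial.eval_eq_sum_range' (by omega) _
  rw [h1, Finset.mul_sum]
  unfold homf
  simp only [map_sum, map_mul, map_pow, eval_C, eval_X, Matrix.cons_val_zero, Matrix.cons_val_one]
  refine Finset.sum_congr rfl fun i hi => ?_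
  have hi' : i ≤ m := by
    have := Finset.mem_range.1 hi
    omega
  have e : p.2 ^ m = p.2 ^ i * p.2 ^ (m - i) := by
    rw [← pow_add]
    congr 1
    omega
  rw [e, div_pow]
  field_simp

lemma bm_diff {a b : ℕ} (p : K × K) (h2 : p.2 ≠ 0) :
    (bm a b p).2 - (bm a b p).1 = p.2 ^ (a + b) * (FF K a b).eval (p.1 / p.2) := by
  rw [FF_eval]
  have e : 1 - p.1 / p.2 = (p.2 - p.1) / p.2 := by
    field_simp
  rw [e, div_pow, div_pow, pow_add]
  unfold bm
  simp only [pow_add]
  field_simp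

theorem good_bm (a b : ℕ) (ha : 1 ≤ a) (hb : 1 ≤ b) : Good (a + b) (bm a b : K × K → K × K) := by
  classical
  obtain ⟨C1, hC1⟩ := bm_upper (K := K) a b
  obtain ⟨C2, hC2⟩ := bm_lower (K := K) a b ha hb
  obtain ⟨G, hG⟩ := FF_double (K := K) ha hb
  set t0 : K := (a : K) / ((a + b : ℕ) : K) with ht0
  have hGne : G ≠ 0 := by
    rintro rfl
    rw [mul_zero] at hG
    exact FF_ne ha hG
  have hGdeg : G.natDegree = a + b - 2 := by
    have h1 := FF_natDegree (K := K) (b := b) ha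
    rw [hG, Polynomial.natDegree_mul (pow_ne_zero _ (Polynomial.X_sub_C_ne_zero t0)) hGne,
      Polynomial.natDegree_pow, Polynomial.natDegree_X_sub_C] at h1
    omega
  obtain ⟨C3, hC3, h3⟩ := form_count 1 (X 0 - C t0 * X 1 : MvPolynomial (Fin 2) K) (by
    have h := (isHomogeneous_X K (0 : Fin 2)).sub
      ((isHomogeneous_C (Fin 2) t0).mul (isHomogeneous_X K (1 : Fin 2)))
    exact h)
  obtain ⟨C4, hC4, h4⟩ := form_count (a + b - 2) (homf (a + b - 2) G) (homf_isHom _ _)
  obtain ⟨C5, hC5, h5⟩ := hh_bdd {t : K | (FF K a b).IsRoot t}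
    (Polynomial.finite_setOfPred_isRoot (FF_ne ha))
  have hbad1 := finite_ne_one (al_ne (K := K) (b := b) ha)
  have hbad2 := finite_ne_one (be_ne (K := K) ha hb)
  set Bad : Set (FinitePlace K) := {v | v (al K a b) ≠ 1} ∪ {v | v (be K a b) ≠ 1} with hBad
  have hbad : Bad.Finite := hbad1.union hbad2
  have hWn := W_nonneg Bad
  refine ⟨|C1| + |C2| + C3 + C4 + C5 + W Bad, by positivity, fun p hp => ?_⟩
  obtain ⟨p1, p2, p3⟩ := hp
  by_cases hd : (bm a b p).2 - (bm a b p).1 = 0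
  · left
    have h6 := h5 p (by
      rw [bm_diff p p2] at hd
      exact (mul_eq_zero.1 hd).resolve_left (pow_ne_zero _ p2))
    have := abs_nonneg C1
    have := abs_nonneg C2
    linarith
  right
  have hval : Valid (bm a b p) := by
    refine ⟨?_, ?_, hd⟩
    · exact mul_ne_zero (al_ne ha) (mul_ne_zero (pow_ne_zero _ p1) (pow_ne_zero _ p3))
    · exact mul_ne_zero (be_ne ha hb) (pow_ne_zero _ p2)
  have hR : eval ![p.1, p.2] (homf (a + b - 2) G) = p.2 ^ (a + b - 2) * G.eval (p.1 / p.2) :=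
    homf_eval hGdeg.le p p2
  have hL : eval ![p.1, p.2] (X 0 - C t0 * X 1 : MvPolynomial (Fin 2) K) = p.1 - t0 * p.2 := by
    simp
  have hdiff : (bm a b p).2 - (bm a b p).1 =
      (p.1 - t0 * p.2) ^ 2 * eval ![p.1, p.2] (homf (a + b - 2) G) := by
    rw [bm_diff p p2, hG, hR]
    have e : p.2 ^ (a + b) = p.2 ^ 2 * p.2 ^ (a + b - 2) := by
      rw [← pow_add]
      congr 1
      omega
    simp only [Polynomial.eval_mul, Polynomial.eval_pow, Polynomial.eval_sub, Polynomial.eval_X,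
      Polynomial.eval_C]
    rw [e]
    have e2 : p.1 - t0 * p.2 = p.2 * (p.1 / p.2 - t0) := by
      field_simp
    rw [e2]
    ring
  have hne1 : p.1 - t0 * p.2 ≠ 0 := by
    intro h
    apply hd
    rw [hdiff, h]
    ring
  have hne2 : eval ![p.1, p.2] (homf (a + b - 2) G) ≠ 0 := by
    intro h
    apply hd
    rw [hdiff, h, mul_zero]
  have q1 := hC1 p
  have q2 := hC2 p
  have r1 := le_abs_self C1
  have r2 := neg_abs_le C2
  have r3 := abs_nonneg C1
  have r4 := abs_nonneg C2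
  refine ⟨hval, by linarith, by linarith, ?_⟩
  obtain ⟨k1, k2⟩ := h3 p (by rw [hL]; exact hne1)
  obtain ⟨m1, m2⟩ := h4 p hne2
  rw [hL] at k1 k2
  simp only [pow_one] at k1 k2
  have hsub : I (bm a b p) ⊆ (I p ∪ {v : FinitePlace K | v (p.1 - t0 * p.2) < v p.1 ∨
      v (p.1 - t0 * p.2) < v p.2}) ∪
      ({v : FinitePlace K | v (eval ![p.1, p.2] (homf (a + b - 2) G)) < v p.1 ^ (a + b - 2) ∨
        v (eval ![p.1, p.2] (homf (a + b - 2) G)) < v p.2 ^ (a + b - 2)} ∪ Bad) := by
    intro v hv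
    by_contra hcon
    simp only [Set.mem_union, not_or] at hcon
    obtain ⟨⟨c1, c2⟩, c3, c4⟩ := hcon
    simp only [I, Set.mem_ofPred_eq, not_not] at c1
    simp only [Set.mem_ofPred_eq, not_or, not_lt] at c2 c3
    have hbb : v (al K a b) = 1 ∧ v (be K a b) = 1 := by
      constructor
      · by_contra hc
        exact c4 (Or.inl hc)
      · by_contra hc
        exact c4 (Or.inr hc)
    obtain ⟨b1, b2⟩ := hbb
    apply hv
    have f1 : v (bm a b p).1 = v p.2 ^ (a + b) := by
      show v (al K a b * (p.1 ^ a * (p.2 - p.1) ^ b)) = _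
      rw [map_mul, map_mul, map_pow, map_pow, b1, c1.1, c1.2, one_mul, ← pow_add]
    have f2 : v (bm a b p).2 = v p.2 ^ (a + b) := by
      show v (be K a b * p.2 ^ (a + b)) = _
      rw [map_mul, map_pow, b2, one_mul]
    refine ⟨f1.trans f2.symm, ?_⟩
    apply le_antisymm
    · have := FinitePlace.add_le v (bm a b p).2 (-(bm a b p).1)
      rw [← sub_eq_add_neg, map_neg_eq_map, f1, f2, max_self] at this
      rw [f2]
      exact this
    · rw [f2, hdiff, map_mul, map_pow]
      have e : v p.2 ^ (a + b) = v p.2 ^ 2 * v p.2 ^ (a + b - 2) := by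
        rw [← pow_add]
        congr 1
        omega
      rw [e]
      exact mul_le_mul (pow_le_pow_left₀ (apply_nonneg v _) c2.2 2) c3.2
        (pow_nonneg (apply_nonneg v _) _) (pow_nonneg (apply_nonneg v _) _)
  have hIp := I_finite ⟨p1, p2, p3⟩
  have s1 := W_union hIp k1
  have s2 := W_union m1 hbad
  have s3 := W_union (hIp.union k1) (m1.union hbad)
  have s4 := W_mono ((hIp.union k1).union (m1.union hbad)) hsub
  have e3 : (((a + b - 2 : ℕ) : ℝ)) = ((a + b : ℕ) : ℝ) - 2 := by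
    push_cast [Nat.cast_sub (by omega : 2 ≤ a + b)]
    ring
  rw [e3] at m2
  rw [Nat.cast_one, one_mul] at k2
  have e4 : (((a + b : ℕ) : ℝ) - 1) * hh p = (((a + b : ℕ) : ℝ) - 2) * hh p + hh p := by ring
  linarith

end hom

end Pool.Agent.V8H8.AB
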