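import Pool.Agent.V8H8.AB.Lat

/-!
# Transfer of the inequality along finitely many maps
-/

set_option autoImplicit false

namespace Pool.Agent.V8H8.AB

open NumberField Height IsDedekindDomain

variable {K : Type} [Field K] [NumberField K]

/-- if each point in `V` is sent into `U` by one of finitely many good maps, the inequality on `U`
implies the one on `V` -/
theorem cover {ι : Type} (J : Finset ι) (g : ι → K × K → K × K) (N : ι → ℕ)
    (hN : ∀ j ∈ J, 1 ≤ N j) (hg : ∀ j ∈ J, Good (N j) (g j)) (V U : K × K → Prop)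
    (hV : ∀ p, Valid p → V p → ∃ j ∈ J, U (g j p)) :
    ∃ D : ℕ, 1 ≤ D ∧ ∀ η : ℝ, 0 ≤ η →
      (∃ C : ℝ, ∀ p : K × K, Valid p → U p → (1 - η / D) * hh p - C ≤ W (I p)) →
      ∃ C : ℝ, ∀ p : K × K, Valid p → V p → (1 - η) * hh p - C ≤ W (I p) := by
  classical
  set D : ℕ := 1 + ∑ j ∈ J, N j with hD
  have hND : ∀ j ∈ J, N j ≤ D := fun j hj => by
    have := Finset.single_le_sum (f := N) (fun j _ => Nat.zero_le _) hj
    omega
  refine ⟨D, by omega, fun η hη => ?_⟩
  rintro ⟨C, hC⟩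
  have hgood : ∀ j : ι, ∃ C : ℝ, 0 ≤ C ∧ (j ∈ J → ∀ p : K × K, Valid p →
    hh p ≤ C ∨ (Valid (g j p) ∧ (N j : ℝ) * hh p - C ≤ hh (g j p) ∧
      hh (g j p) ≤ (N j : ℝ) * hh p + C ∧
    W (I (g j p)) ≤ W (I p) + ((N j : ℝ) - 1) * hh p + C)) := by
    intro j
    by_cases hj : j ∈ J
    · obtain ⟨C, hC, h⟩ := hg j hj
      exact ⟨C, hC, fun _ => h⟩
    · exact ⟨0, le_rfl, fun h => absurd h hj⟩
  choose Cn hCn0 hCn using hgood
  set E : ℝ := ∑ j ∈ J, Cn j with hE
  have hE0 : 0 ≤ E := Finset.sum_nonneg fun n _ => hCn0 n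
  have hle : ∀ j ∈ J, Cn j ≤ E := fun j hj =>
    Finset.single_le_sum (f := Cn) (fun n _ => hCn0 n) hj
  have hD0 : (0 : ℝ) < (D : ℝ) := by exact_mod_cast (by omega : 0 < D)
  have hθ : 0 ≤ η / (D : ℝ) := by positivity
  set κ : ℝ := η / (D : ℝ) with hκ
  refine ⟨|C| + E + (1 + κ) * E + (1 + η) * E, fun p hp hVp => ?_⟩
  obtain ⟨j, hj, hUj⟩ := hV p hp hVp
  have hnE := hle j hj
  have hW := W_nonneg (I p)
  have hh0 := hh_nonneg p
  have hCa := le_abs_self C
  have hCa0 := abs_nonneg C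
  rcases hCn j hj p hp with h | ⟨h1, h2, h3, h4⟩
  · have h5 : (1 - η) * hh p ≤ (1 + η) * E := by
      have : (1 - η) * hh p ≤ 1 * hh p := mul_le_mul_of_nonneg_right (by linarith) hh0
      have h6 : E ≤ (1 + η) * E := le_mul_of_one_le_left hE0 (by linarith)
      linarith
    have h7 : 0 ≤ (1 + κ) * E := by positivity
    linarith
  · have h5 := hC (g j p) h1 hUj
    have hn4 : (N j : ℝ) ≤ (D : ℝ) := by exact_mod_cast hND j hj
    have h6 : κ * (N j : ℝ) ≤ η := by
      rw [hκ, div_mul_eq_mul_div, div_le_iff₀ hD0]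
      exact mul_le_mul_of_nonneg_left hn4 hη
    have h7 : κ * hh (g j p) ≤ η * hh p + κ * E := by
      calc κ * hh (g j p) ≤ κ * ((N j : ℝ) * hh p + E) :=
            mul_le_mul_of_nonneg_left (by linarith) hθ
        _ = κ * (N j : ℝ) * hh p + κ * E := by ring
        _ ≤ η * hh p + κ * E := by
            have := mul_le_mul_of_nonneg_right h6 hh0
            linarith
    have h8 : 0 ≤ (1 + η) * E := by positivity
    have h9 : (1 - κ) * hh (g j p) = hh (g j p) - κ * hh (g j p) := by ring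
    rw [h9] at h5
    have e1 : ((N j : ℝ) - 1) * hh p = (N j : ℝ) * hh p - hh p := by ring
    rw [e1] at h4
    have e2 : (1 - η) * hh p = hh p - η * hh p := by ring
    rw [e2]
    have e3 : (1 + κ) * E = E + κ * E := by ring
    rw [e3]
    linarith

lemma good_id : Good 1 (id : K × K → K × K) :=
  ⟨0, le_rfl, fun p hp => Or.inr ⟨hp, by simp, by simp, by simp⟩⟩

lemma good_iter {N : ℕ} {f : K × K → K × K} (hf : Good N f) (hN : 1 ≤ N) (k : ℕ) :
    Good (N ^ k) (f^[k]) := by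
  induction k with
  | zero => simpa using good_id
  | succ k ih =>
    have h := ih.comp hf (Nat.one_le_pow _ _ hN) hN
    rw [← pow_succ'] at h
    rw [Function.iterate_succ']
    exact h

omit [NumberField K] in
/-- growth of the ratio under the map -/
lemma bb_small (a : AbsoluteValue K ℝ) (β : K) : ∃ c r : ℝ, 1 ≤ c ∧ 0 < r ∧ ∀ s : ℝ, 0 ≤ s → s ≤ r →
    ∀ p : K × K, a p.1 ≤ s * a p.2 → a (bb β p).1 ≤ c * s * a (bb β p).2 := by
  set B := a β with hB
  have hB0 : 0 ≤ B := a.nonneg _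
  refine ⟨16 * (1 + B) ^ 4, 1 / (2 * (B + 1)), ?_, by positivity, ?_⟩
  · have : 1 ≤ (1 + B) ^ 4 := one_le_pow₀ (by linarith)
    linarith
  intro s hs0 hs p hp
  have x0 := a.nonneg p.1
  have y0 := a.nonneg p.2
  have hs1 : s ≤ 1 := by
    refine hs.trans ?_
    rw [div_le_one (by positivity)]
    linarith
  have hsB : B * s ≤ 1 / 2 := by
    calc B * s ≤ (B + 1) * (1 / (2 * (B + 1))) :=
          mul_le_mul (by linarith) hs hs0 (by linarith)
      _ = 1 / 2 := by field_simp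
  have u1 : a (p.1 + β * p.2) ≤ (1 + B) * a p.2 := by
    have h := a.add_le p.1 (β * p.2)
    rw [map_mul, ← hB] at h
    nlinarith
  have u2 : 1 / 2 * a p.2 ≤ a (p.2 + β * p.1) := by
    have h := a.add_le (p.2 + β * p.1) (-(β * p.1))
    rw [a.map_neg, map_mul, ← hB] at h
    have e : p.2 + β * p.1 + -(β * p.1) = p.2 := by ring
    rw [e] at h
    have h2 : B * a p.1 ≤ B * s * a p.2 := by
      rw [mul_assoc]
      exact mul_le_mul_of_nonneg_left hp hB0
    nlinarith
  have u3 : 0 ≤ a (p.1 + β * p.2) := a.nonneg _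
  have e1 : a (bb β p).1 = a p.1 * a (p.1 + β * p.2) ^ 4 := by
    unfold bb
    rw [map_mul, map_pow]
  have e2 : a (bb β p).2 = a p.2 * a (p.2 + β * p.1) ^ 4 := by
    unfold bb
    rw [map_mul, map_pow]
  rw [e1, e2]
  calc a p.1 * a (p.1 + β * p.2) ^ 4 ≤ (s * a p.2) * ((1 + B) * a p.2) ^ 4 :=
        mul_le_mul hp (pow_le_pow_left₀ u3 u1 4) (by positivity) (by positivity)
    _ = 16 * (1 + B) ^ 4 * s * (a p.2 * (1 / 2 * a p.2) ^ 4) := by ring
    _ ≤ 16 * (1 + B) ^ 4 * s * (a p.2 * a (p.2 + β * p.1) ^ 4) := by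
        apply mul_le_mul_of_nonneg_left _ (by positivity)
        exact mul_le_mul_of_nonneg_left (pow_le_pow_left₀ (by positivity) u2 4) y0

omit [NumberField K] in
/-- growth of the ratio under the iterates -/
lemma bb_iter_small (a : AbsoluteValue K ℝ) (β : K) (m : ℕ) {δ : ℝ} (hδ : 0 < δ) :
    ∃ r : ℝ, 0 < r ∧ ∀ s : ℝ, 0 ≤ s → s ≤ r → ∀ p : K × K, a p.1 ≤ s * a p.2 → ∀ k ≤ m,
      a ((bb β)^[k] p).1 ≤ δ * a ((bb β)^[k] p).2 := by
  obtain ⟨c, r, hc, hr, h⟩ := bb_small a β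
  have hc0 : 0 < c := by linarith
  refine ⟨min r δ / c ^ m, by positivity, fun s hs0 hs p hp => ?_⟩
  have key : ∀ k ≤ m, a ((bb β)^[k] p).1 ≤ c ^ k * s * a ((bb β)^[k] p).2 := by
    intro k
    induction k with
    | zero =>
      intro _
      simpa using hp
    | succ k ih =>
      intro hk
      have h1 := ih (by omega)
      have h2 : c ^ k * s ≤ r := by
        calc c ^ k * s ≤ c ^ m * (min r δ / c ^ m) :=
              mul_le_mul (pow_le_pow_right₀ hc (by omega)) hs hs0 (by positivity)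
          _ = min r δ := by field_simp
          _ ≤ r := min_le_left _ _
      have h3 := h (c ^ k * s) (by positivity) h2 _ h1
      rw [Function.iterate_succ', Function.comp_apply]
      have e : c ^ (k + 1) * s = c * (c ^ k * s) := by ring
      rw [e]
      exact h3
  intro k hk
  refine (key k hk).trans (mul_le_mul_of_nonneg_right ?_ (a.nonneg _))
  calc c ^ k * s ≤ c ^ m * (min r δ / c ^ m) :=
        mul_le_mul (pow_le_pow_right₀ hc hk) hs hs0 (by positivity)
    _ = min r δ := by field_simp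
    _ ≤ δ := min_le_right _ _

end Pool.Agent.V8H8.AB
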