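import Mathlib

/-!
# Directions of the iterates of `t ↦ t ((t + β) / (1 + β t)) ^ 4` near `0`
-/

set_option autoImplicit false

namespace Pool.Agent.V8H8.AB

open Filter Topology

/-- the direction of a complex number -/
noncomputable def dir (z : ℂ) : ℂ := z / (‖z‖ : ℂ)

lemma dir_mul (z w : ℂ) : dir (z * w) = dir z * dir w := by
  unfold dir
  rw [norm_mul]
  push_cast
  rw [mul_div_mul_comm]

lemma norm_dir {z : ℂ} (hz : z ≠ 0) : ‖dir z‖ = 1 := by
  unfold dir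
  rw [norm_div, Complex.norm_real, norm_norm]
  exact div_self (norm_ne_zero_iff.2 hz)

lemma dir_cont {z : ℂ} (hz : z ≠ 0) : ContinuousAt dir z := by
  unfold dir
  refine ContinuousAt.div continuousAt_id ?_ (by simpa using hz)
  exact (Complex.continuous_ofReal.comp continuous_norm).continuousAt

/-- the map -/
noncomputable def FT (β t : ℂ) : ℂ := t * ((t + β) / (1 + β * t)) ^ 4

lemma FT_step {β : ℂ} (hβ : β ≠ 0) {θ : ℝ} (hθ : 0 < θ) : ∃ r : ℝ, 0 < r ∧ ∀ t : ℂ, t ≠ 0 →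
    ‖t‖ ≤ r → FT β t ≠ 0 ∧ ‖FT β t‖ ≤ θ ∧ ‖dir (FT β t) - dir (β ^ 4) * dir t‖ ≤ θ := by
  set g : ℂ → ℂ := fun t => ((t + β) / (1 + β * t)) ^ 4 with hg
  have hg0 : g 0 = β ^ 4 := by simp [hg]
  have hgc : ContinuousAt g 0 := by
    refine ContinuousAt.pow (ContinuousAt.div ?_ ?_ (by simp)) 4
    · exact (continuous_id.add continuous_const).continuousAt
    · exact (continuous_const.add (continuous_const.mul continuous_id)).continuousAt
  have hb4 : β ^ 4 ≠ 0 := pow_ne_zero _ hβ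
  have h1 : ∀ᶠ t in 𝓝 (0 : ℂ), g t ≠ 0 := by
    exact hgc.eventually_ne (by rw [hg0]; exact hb4)
  have h2 : ∀ᶠ t in 𝓝 (0 : ℂ), ‖dir (g t) - dir (β ^ 4)‖ < θ := by
    have hc : ContinuousAt (fun t => dir (g t)) 0 := by
      refine ContinuousAt.comp (g := dir) ?_ hgc
      rw [hg0]
      exact dir_cont hb4
    have := Metric.continuousAt_iff'.1 hc θ hθ
    rw [hg0] at this
    simpa [dist_eq_norm] using this
  have h3 : ∀ᶠ t in 𝓝 (0 : ℂ), ‖t * g t‖ < θ := by
    have hc : ContinuousAt (fun t => t * g t) 0 := continuousAt_id.mul hgc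
    have := Metric.continuousAt_iff'.1 hc θ hθ
    simpa [dist_eq_norm] using this
  obtain ⟨r, hr, h⟩ := Metric.eventually_nhds_iff.1 (h1.and (h2.and h3))
  refine ⟨r / 2, by positivity, fun t ht0 ht => ?_⟩
  obtain ⟨k1, k2, k3⟩ := h (y := t) (by rw [dist_zero_right]; linarith)
  have e : FT β t = t * g t := rfl
  rw [e]
  refine ⟨mul_ne_zero ht0 k1, k3.le, ?_⟩
  rw [dir_mul]
  have e2 : dir t * dir (g t) - dir (β ^ 4) * dir t = dir t * (dir (g t) - dir (β ^ 4)) := by ring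
  rw [e2, norm_mul, norm_dir ht0, one_mul]
  exact k2.le

lemma FT_iter {β : ℂ} (hβ : β ≠ 0) (k : ℕ) : ∀ θ : ℝ, 0 < θ → ∃ r : ℝ, 0 < r ∧ ∀ t : ℂ, t ≠ 0 →
    ‖t‖ ≤ r → (FT β)^[k] t ≠ 0 ∧ ‖(FT β)^[k] t‖ ≤ θ ∧
      ‖dir ((FT β)^[k] t) - dir (β ^ 4) ^ k * dir t‖ ≤ θ := by
  induction k with
  | zero =>
    intro θ hθ
    refine ⟨θ, hθ, fun t ht0 ht => ⟨by simpa using ht0, by simpa using ht, ?_⟩⟩
    simp only [Function.iterate_zero, id, pow_zero, one_mul, sub_self, norm_zero]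
    exact hθ.le
  | succ k ih =>
    intro θ hθ
    obtain ⟨r1, hr1, h1⟩ := FT_step hβ (half_pos hθ)
    obtain ⟨r, hr, h⟩ := ih (min r1 (θ / 2)) (by positivity)
    refine ⟨r, hr, fun t ht0 ht => ?_⟩
    obtain ⟨k1, k2, k3⟩ := h t ht0 ht
    obtain ⟨m1, m2, m3⟩ := h1 _ k1 (k2.trans (min_le_left _ _))
    rw [Function.iterate_succ', Function.comp_apply]
    refine ⟨m1, by linarith, ?_⟩
    set z := (FT β)^[k] t with hz
    have hb4 : β ^ 4 ≠ 0 := pow_ne_zero _ hβ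
    have e : dir (FT β z) - dir (β ^ 4) ^ (k + 1) * dir t =
        (dir (FT β z) - dir (β ^ 4) * dir z) + dir (β ^ 4) * (dir z - dir (β ^ 4) ^ k * dir t) := by
      ring
    rw [e]
    refine (norm_add_le _ _).trans ?_
    rw [norm_mul, norm_dir hb4, one_mul]
    have := k3.trans (min_le_right _ _)
    linarith

/-- the direction of `-7 + 24 i` is not a root of unity -/
lemma gauss_pow (n : ℕ) (hn : 1 ≤ n) : ∃ z : GaussianInt,
    (⟨-7, 24⟩ : GaussianInt) ^ n = ⟨3, 4⟩ + 5 * z := by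
  induction n with
  | zero => omega
  | succ n ih =>
    rcases Nat.eq_zero_or_pos n with rfl | hpos
    · exact ⟨⟨-2, 4⟩, by decide⟩
    · obtain ⟨z, hz⟩ := ih hpos
      refine ⟨⟨-24, 8⟩ + z * ⟨-7, 24⟩, ?_⟩
      rw [pow_succ, hz]
      have e : (⟨3, 4⟩ : GaussianInt) * ⟨-7, 24⟩ = ⟨3, 4⟩ + 5 * ⟨-24, 8⟩ := by decide
      linear_combination e

lemma gauss_ne (n : ℕ) (hn : 1 ≤ n) : (-7 + 24 * Complex.I) ^ n ≠ (25 : ℂ) ^ n := by
  intro h
  obtain ⟨z, hz⟩ := gauss_pow n hn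
  have h1 : GaussianInt.toComplex ((⟨-7, 24⟩ : GaussianInt) ^ n) = (25 : ℂ) ^ n := by
    rw [map_pow, GaussianInt.toComplex_def, ← h]
    push_cast
    ring_nf
  have h2 : (⟨-7, 24⟩ : GaussianInt) ^ n = ((25 ^ n : ℤ) : GaussianInt) := by
    apply GaussianInt.toComplex_injective
    rw [h1, map_intCast]
    push_cast
    rfl
  rw [hz] at h2
  have h3 := congrArg Zsqrtd.im h2
  simp only [Zsqrtd.im_add, Zsqrtd.im_mul, Zsqrtd.im_intCast] at h3
  have h5 : (5 : GaussianInt).re = 5 := rfl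
  have h6 : (5 : GaussianInt).im = 0 := rfl
  rw [h5, h6] at h3
  omega

/-- the unit complex number `(-7 + 24 i) / 25` -/
noncomputable def om : Circle := ⟨(-7 + 24 * Complex.I) / 25, by
  show _ ∈ Metric.sphere (0 : ℂ) 1
  rw [mem_sphere_zero_iff_norm, norm_div]
  have h1 : ‖(-7 + 24 * Complex.I : ℂ)‖ = 25 := by
    have h : ‖(-7 + 24 * Complex.I : ℂ)‖ ^ 2 = 25 ^ 2 := by
      rw [← Complex.normSq_eq_norm_sq, Complex.normSq_apply]
      simp
      norm_num
    exact (pow_left_inj₀ (norm_nonneg _) (by norm_num) two_ne_zero).1 h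
  rw [h1]
  norm_num⟩

lemma om_order : ∀ n : ℕ, 1 ≤ n → om ^ n ≠ 1 := by
  intro n hn h
  have h1 := congrArg (fun z : Circle => (z : ℂ)) h
  have h2 : ((-7 + 24 * Complex.I) / 25 : ℂ) ^ n = 1 := h1
  rw [div_pow, div_eq_one_iff_eq (pow_ne_zero _ (by norm_num))] at h2
  exact gauss_ne n hn h2

lemma om_dense : DenseRange (fun n : ℕ => om ^ n) := by
  rw [← denseRange_zpow_iff_pow]
  obtain ⟨φ, hφ⟩ : ∃ φ : ℝ, Circle.exp φ = om := ⟨Complex.arg om, Circle.exp_arg om⟩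
  have h2pi : Circle.exp (2 * Real.pi) = 1 := Circle.exp_two_pi
  have hirr : Irrational (φ / (2 * Real.pi)) := by
    rintro ⟨r, hr⟩
    have hpi : (2 * Real.pi) ≠ 0 := by positivity
    have hden : (r.den : ℝ) ≠ 0 := by exact_mod_cast r.den_ne_zero
    have h1 : (r.den : ℝ) * φ = (r.num : ℝ) * (2 * Real.pi) := by
      have h3 : (r : ℝ) = (r.num : ℝ) / (r.den : ℝ) := by exact_mod_cast (Rat.num_div_den r).symm
      rw [h3] at hr
      field_simp at hr
      linear_combination -hr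
    apply om_order r.den r.den_pos
    rw [← hφ, ← Circle.exp_natCast_mul, h1, Circle.exp_intCast_mul, h2pi, one_zpow]
  have hd : Dense (AddSubgroup.closure {φ, 2 * Real.pi} : Set ℝ) :=
    dense_addSubgroupClosure_pair_iff.2 hirr
  have hsurj : Function.Surjective Circle.exp := fun z => ⟨Complex.arg z, Circle.exp_arg z⟩
  have h3 := hsurj.denseRange.dense_image Circle.exp.continuous hd
  refine h3.mono ?_
  rintro _ ⟨x, hx, rfl⟩
  rw [SetLike.mem_coe, AddSubgroup.mem_closure_pair] at hx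
  obtain ⟨m, n, rfl⟩ := hx
  refine ⟨m, ?_⟩
  simp only
  rw [Circle.exp_add, Circle.exp_zsmul, Circle.exp_zsmul, h2pi, one_zpow, mul_one, hφ]

lemma om_cover (w : Circle) {θ : ℝ} (hθ : 0 < θ) : ∃ m : ℕ, ∀ z : Circle, ∃ k ≤ m,
    ‖((om ^ k * z : Circle) : ℂ) - w‖ < θ := by
  have hopen : ∀ k : ℕ, IsOpen {z : Circle | ‖((om ^ k * z : Circle) : ℂ) - w‖ < θ} := by
    intro k
    refine isOpen_lt ?_ continuous_const
    exact ((continuous_subtype_val.comp (continuous_const.mul continuous_id)).sub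
      continuous_const).norm
  have hcov : (Set.univ : Set Circle) ⊆ ⋃ k : ℕ, {z : Circle | ‖((om ^ k * z : Circle) : ℂ) - w‖ < θ} := by
    intro z _
    obtain ⟨k, hk⟩ := om_dense.exists_mem_open (s := {y : Circle | ‖((y * z : Circle) : ℂ) - w‖ < θ})
      (isOpen_lt ((continuous_subtype_val.comp (continuous_id.mul continuous_const)).sub
      continuous_const).norm continuous_const) ⟨w * z⁻¹, by
        simp only [Set.mem_ofPred_eq, inv_mul_cancel_right, sub_self, norm_zero]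
        exact hθ⟩
    exact Set.mem_iUnion.2 ⟨k, hk⟩
  obtain ⟨t, ht⟩ := isCompact_univ.elim_finite_subcover _ hopen hcov
  refine ⟨t.sup id, fun z => ?_⟩
  obtain ⟨k, hk, hz⟩ := Set.mem_iUnion₂.1 (ht (Set.mem_univ z))
  exact ⟨k, Finset.le_sup (f := id) hk, hz⟩

end Pool.Agent.V8H8.AB
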