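import Pool.Agent.V8H8.AB.GaussD

/-!
# The excess of the height over the radical is kept
-/

set_option autoImplicit false

namespace Pool.Agent.V8H8.AB

open NumberField Height IsDedekindDomain

variable {K : Type} [Field K] [NumberField K]

/-- points in `V` are moved into `U`, and the excess of the height over the radical is kept -/
def Ex (V U : K × K → Prop) : Prop := ∃ D C : ℝ, 1 ≤ D ∧ 0 ≤ C ∧ ∀ p : K × K, Valid p → V p → C < hh p →
  ∃ q : K × K, Valid q ∧ U q ∧ hh p - C ≤ hh q ∧ hh q ≤ D * hh p + C ∧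
    hh p - W (I p) - C ≤ hh q - W (I q)

theorem ex_cover {ι : Type} (J : Finset ι) (g : ι → K × K → K × K) (N : ι → ℕ)
    (hN : ∀ j ∈ J, 1 ≤ N j) (hg : ∀ j ∈ J, Good (N j) (g j)) (V U : K × K → Prop)
    (hV : ∀ p, Valid p → V p → ∃ j ∈ J, U (g j p)) : Ex V U := by
  classical
  set D : ℕ := 1 + ∑ j ∈ J, N j with hD
  have hND : ∀ j ∈ J, N j ≤ D := fun j hj => by
    have := Finset.single_le_sum (f := N) (fun j _ => Nat.zero_le _) hj
    omega
  have hgood : ∀ j : ι, ∃ C : ℝ, 0 ≤ C ∧ (j ∈ J → ∀ p : K × K, Valid p →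
    hh p ≤ C ∨ (Valid (g j p) ∧ (N j : ℝ) * hh p - C ≤ hh (g j p) ∧
      hh (g j p) ≤ (N j : ℝ) * hh p + C ∧
    W (I (g j p)) ≤ W (I p) + ((N j : ℝ) - 1) * hh p + C)) := by
    intro j
    by_cases hj : j ∈ J
    · obtain ⟨C, hC, h⟩ := hg j hj
      exact ⟨C, hC, fun _ => h⟩
    · exact ⟨0, le_rfl, fun h => absurd h hj⟩
  choose Cn hCn0 hCn using hgood
  set E : ℝ := ∑ j ∈ J, Cn j with hE
  have hE0 : 0 ≤ E := Finset.sum_nonneg fun j _ => hCn0 j
  have hCE : ∀ j ∈ J, Cn j ≤ E := fun j hj => Finset.single_le_sum (f := Cn) (fun j _ => hCn0 j) hj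
  have hD1 : (1 : ℝ) ≤ D := by
    have : 1 ≤ D := by omega
    exact_mod_cast this
  refine ⟨D, 2 * E, hD1, by positivity, fun p hp hVp hh1 => ?_⟩
  obtain ⟨j, hj, hU⟩ := hV p hp hVp
  have hCj := hCE j hj
  have hN1 : (1 : ℝ) ≤ N j := by exact_mod_cast hN j hj
  have hND' : (N j : ℝ) ≤ D := by exact_mod_cast hND j hj
  have hh0 := hh_nonneg p
  rcases hCn j hj p hp with h | ⟨h1, h2, h3, h4⟩
  · exfalso
    linarith
  · have m1 := mul_le_mul_of_nonneg_right hN1 hh0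
    have m2 := mul_le_mul_of_nonneg_right hND' hh0
    refine ⟨g j p, h1, hU, by linarith, by linarith, ?_⟩
    have e1 : ((N j : ℝ) - 1) * hh p = N j * hh p - hh p := by ring
    rw [e1] at h4
    linarith

theorem Ex.trans {V U T : K × K → Prop} (h1 : Ex V U) (h2 : Ex U T) : Ex V T := by
  obtain ⟨D, C, hD, hC, h1⟩ := h1
  obtain ⟨D', C', hD', hC', h2⟩ := h2
  have hDC : 0 ≤ D' * C := by positivity
  refine ⟨D' * D, D' * C + C + C', ?_, by positivity, fun p hp hV hlt => ?_⟩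
  · calc (1 : ℝ) = 1 * 1 := (mul_one _).symm
      _ ≤ D' * D := mul_le_mul hD' hD zero_le_one (by linarith)
  · obtain ⟨q, q1, q2, q3, q4, q5⟩ := h1 p hp hV (by linarith)
    obtain ⟨r, r1, r2, r3, r4, r5⟩ := h2 q q1 q2 (by linarith)
    have m1 := mul_le_mul_of_nonneg_left q4 (by linarith : (0 : ℝ) ≤ D')
    have e1 : D' * (D * hh p + C) = D' * D * hh p + D' * C := by ring
    rw [e1] at m1
    exact ⟨r, r1, r2, by linarith, by linarith, by linarith⟩

open Pool.Agent.TH402.AK (K4 emb e)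

/-- the excess over the Gaussian integers in a region -/
theorem gauss_ex {τ : K4 →+* ℂ} (hτ : ∀ z, τ (emb z) = GaussianInt.toComplex z)
    (hw : ∀ (w : InfinitePlace K4) (x : K4), w x = ‖τ x‖) {N : GaussianInt} (hN : N ≠ 0)
    {δ : ℝ} (hδ : 0 < δ) {u : ℂ} (hu : ‖u‖ = 1) {θ : ℝ} (hθ : 0 < θ) {m : ℕ} (hm : 1 ≤ m) :
    Ex (fun _ : K4 × K4 => True)
      (fun p : K4 × K4 => ∃ q, Valid q ∧ p = pw m q ∧ UU τ N δ u θ q) := by
  obtain ⟨V, M, m', h1, h2⟩ := gauss_cover hτ hw hN hδ hu hθ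
  have s1 : Ex (fun _ : K4 × K4 => True) V := ex_cover (Finset.Icc 1 M) psi (fun n => 4 * n)
    (fun j hj => by
      have := (Finset.mem_Icc.1 hj).1
      omega) (fun j hj => good_psi j (Finset.mem_Icc.1 hj).1) _ V (fun p hp _ => h1 p hp)
  have s2 : Ex V (UU τ N δ u θ) := ex_cover (Finset.range (m' + 1)) (fun k => (bb bt)^[k])
    (fun k => 5 ^ k) (fun j _ => Nat.one_le_pow _ _ (by norm_num))
    (fun j _ => good_iter (good_bb par) (by norm_num) j) V (UU τ N δ u θ) h2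
  -- the power map, keeping track of validity
  have s3 : Ex (UU τ N δ u θ) (fun p : K4 × K4 => ∃ q, Valid q ∧ p = pw m q ∧ UU τ N δ u θ q) :=
    ex_cover {()} (fun _ => pw m) (fun _ => m) (fun _ _ => hm)
      (fun _ _ => good_pw m hm) (UU τ N δ u θ) _ (fun p hp hU => ⟨(), by simp, p, hp, rfl, hU⟩)
  exact (s1.trans s2).trans s3

end Pool.Agent.V8H8.AB
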