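import Pool.Agent.V8H8.AB.Swarm

/-!
# The fibres of the maps
-/

set_option autoImplicit false

namespace Pool.Agent.V8H8.AB

open NumberField Height IsDedekindDomain Polynomial

variable {K : Type} [Field K]

lemma roots_card {P : K[X]} (hP : P ≠ 0) {d : ℕ} (hd : P.natDegree ≤ d) :
    ∃ R : Finset K, R.card ≤ d ∧ ∀ t : K, P.eval t = 0 → t ∈ R := by
  classical
  refine ⟨P.roots.toFinset, (Multiset.toFinset_card_le _).trans ((card_roots' P).trans hd), ?_⟩
  intro t ht
  rw [Multiset.mem_toFinset, mem_roots hP]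
  exact ht

variable [NumberField K]

omit [NumberField K] in
lemma fib_pw (n : ℕ) (hn : 1 ≤ n) : Fib n (pw n : K × K → K × K) := by
  intro w
  obtain ⟨R, hR, h⟩ := roots_card (P := (X ^ n - C w : K[X])) (X_pow_sub_C_ne_zero (by omega) w)
    (d := n) (by rw [natDegree_X_pow_sub_C])
  refine ⟨R, hR, fun p _ _ hw => h _ ?_⟩
  simp only [eval_sub, eval_pow, eval_X, eval_C]
  rw [← hw]
  unfold pw
  rw [div_pow, sub_self]

lemma fib_psi (n : ℕ) (hn : 1 ≤ n) : Fib (4 * n) (psi n : K × K → K × K) := by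
  intro w
  set Q : K[X] := C w * (2 * X - 1) ^ 4 + 16 * X * (1 - X) with hQ
  have hQe : ∀ t : K, Q.eval t = w * (2 * t - 1) ^ 4 + 16 * t * (1 - t) := by
    intro t
    simp [hQ]
  have hQ0 : Q ≠ 0 := by
    intro h0
    have h1 := hQe (1 / 2)
    rw [h0, eval_zero] at h1
    have h2 : (4 : K) ≠ 0 := by norm_num
    apply h2
    have : w * (2 * (1 / 2 : K) - 1) ^ 4 + 16 * (1 / 2) * (1 - 1 / 2) = 4 := by
      norm_num
    rw [← this, ← h1]
  have hQd : Q.natDegree ≤ 4 := by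
    rw [hQ]
    compute_degree
  obtain ⟨R, hR, h⟩ := roots_card (P := expand K n Q) ((expand_ne_zero (by omega)).2 hQ0)
    (d := 4 * n) (by
      rw [natDegree_expand]
      exact Nat.mul_le_mul_right n hQd)
  refine ⟨R, hR, fun p hp h2 hw => h _ ?_⟩
  rw [expand_eval, hQe]
  have e1 : (psi n p).1 = -(16 * p.1 ^ n * (p.2 ^ n - p.1 ^ n) * (p.2 ^ n) ^ 2) := by
    unfold psi
    rw [oc_fst]
    rfl
  have e2 : (psi n p).2 = (2 * p.1 ^ n - p.2 ^ n) ^ 4 := by
    unfold psi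
    rw [oc_snd]
    rfl
  have h0 : p.2 ^ n ≠ 0 := pow_ne_zero _ hp.2.1
  rw [e2] at h2
  rw [e1, e2, div_eq_iff h2] at hw
  rw [div_pow]
  field_simp
  linear_combination -hw

omit [NumberField K] in
/-- the fibres of the iterates -/
lemma fib_bb_iter {β γ : K} (h : Par β γ) (k : ℕ) : ∀ w : K, ∃ R : Finset K, R.card ≤ 5 ^ k ∧
    ∀ p : K × K, ((bb β)^[k] p).2 ≠ 0 → ((bb β)^[k] p).1 / ((bb β)^[k] p).2 = w →
      p.1 / p.2 ∈ R := by
  classical
  have hone : ∀ w : K, ∃ R : Finset K, R.card ≤ 5 ∧ ∀ q : K × K, (bb β q).2 ≠ 0 →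
      (bb β q).1 / (bb β q).2 = w → q.1 / q.2 ∈ R := by
    intro w
    set P : K[X] := C w * (1 + C β * X) ^ 4 - X * (X + C β) ^ 4 with hP
    have hPe : ∀ t : K, P.eval t = w * (1 + β * t) ^ 4 - t * (t + β) ^ 4 := by
      intro t
      simp [hP]
    have hP0 : P ≠ 0 := by
      intro h0
      have h1 := hPe (-1 / β)
      rw [h0, eval_zero] at h1
      have hb := h.h3
      have e : w * (1 + β * (-1 / β)) ^ 4 - (-1 / β) * ((-1 / β) + β) ^ 4 =
          (1 - β ^ 2) ^ 4 / β ^ 5 := by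
        field_simp
        ring
      rw [e] at h1
      exact div_ne_zero (pow_ne_zero 4 h.h4) (pow_ne_zero 5 hb) h1.symm
    have hPd : P.natDegree ≤ 5 := by
      rw [hP]
      compute_degree
    obtain ⟨R, hR, hR'⟩ := roots_card hP0 hPd
    refine ⟨R, hR, fun q h2 hw => hR' _ ?_⟩
    rw [hPe]
    unfold bb at h2 hw
    simp only at h2 hw
    have h3 : q.2 ≠ 0 := left_ne_zero_of_mul h2
    have h4 : q.2 + β * q.1 ≠ 0 := by
      intro h0
      apply h2
      rw [h0]
      ring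
    rw [div_eq_iff h2] at hw
    field_simp
    linear_combination -hw
  induction k with
  | zero =>
    intro w
    refine ⟨{w}, by simp, fun p _ hw => ?_⟩
    rw [Finset.mem_singleton]
    exact hw
  | succ k ih =>
    intro w
    obtain ⟨R1, hR1, h1⟩ := hone w
    choose R hR hRm using ih
    refine ⟨R1.biUnion R, ?_, fun p h2 hw => ?_⟩
    · calc (R1.biUnion R).card ≤ R1.card * 5 ^ k := Finset.card_biUnion_le_card_mul _ _ _ fun r _ => hR r
        _ ≤ 5 * 5 ^ k := Nat.mul_le_mul_right _ hR1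
        _ = 5 ^ (k + 1) := by ring
    · rw [Function.iterate_succ', Function.comp_apply] at h2 hw
      have h3 := h1 _ h2 hw
      refine Finset.mem_biUnion.2 ⟨_, h3, hRm _ p ?_ rfl⟩
      unfold bb at h2
      exact left_ne_zero_of_mul h2

lemma fib_bb {β γ : K} (h : Par β γ) (k : ℕ) : Fib (5 ^ k) ((bb β)^[k] : K × K → K × K) := by
  intro w
  obtain ⟨R, hR, h'⟩ := fib_bb_iter h k w
  exact ⟨R, hR, fun p _ => h' p⟩

end Pool.Agent.V8H8.AB
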