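import Pool.Agent.V8H8.AB.Cover
import Pool.Agent.V8H8.AB.Dir
import Pool.Agent.TH402.AK.Quad

/-!
# The dictionary for the Gaussian integers
-/

set_option autoImplicit false

namespace Pool.Agent.V8H8.AB

open NumberField Height IsDedekindDomain
open Pool.Agent.TH402.AK (K4 z4 z4_sq emb emb_apply emb_inj e e_coe place_e sum_mult absNorm_e exists_gen)

/-- `S` contains exactly one Gaussian prime from each associate class of Gaussian primes
dividing `x` -/
def IsPrimeSystem (S : Finset GaussianInt) (x : GaussianInt) : Prop :=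
  (∀ Q ∈ S, Prime Q ∧ Q ∣ x) ∧
  (∀ Q : GaussianInt, Prime Q → Q ∣ x → ∃ R ∈ S, Associated Q R) ∧
  (∀ Q ∈ S, ∀ R ∈ S, Associated Q R → Q = R)

lemma fin_emb (v : FinitePlace K4) (z : GaussianInt) : v (emb z) = ‖FinitePlace.embedding v.maximalIdeal
    (algebraMap (𝓞 K4) K4 (e z))‖ := by
  rw [FinitePlace.norm_embedding_eq]
  rfl

lemma fin_le_one (v : FinitePlace K4) (z : GaussianInt) : v (emb z) ≤ 1 := by
  rw [fin_emb]
  exact FinitePlace.norm_le_one K4 v.maximalIdeal (e z)

lemma fin_eq_one (v : FinitePlace K4) (z : GaussianInt) :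
    v (emb z) = 1 ↔ e z ∉ v.maximalIdeal.asIdeal := by
  rw [fin_emb]
  exact FinitePlace.norm_eq_one_iff_notMem K4 v.maximalIdeal (e z)

lemma fin_lt_one (v : FinitePlace K4) (z : GaussianInt) :
    v (emb z) < 1 ↔ e z ∈ v.maximalIdeal.asIdeal := by
  rw [fin_emb]
  exact FinitePlace.norm_lt_one_iff_mem K4 v.maximalIdeal (e z)

lemma not_both' {a c : GaussianInt} (h : IsCoprime a c) (v : FinitePlace K4)
    (ha : e a ∈ v.maximalIdeal.asIdeal) (hc : e c ∈ v.maximalIdeal.asIdeal) : False := by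
  obtain ⟨x, y, hxy⟩ := h
  apply v.maximalIdeal.isPrime.ne_top
  rw [Ideal.eq_top_iff_one, ← map_one e, ← hxy, map_add, map_mul, map_mul]
  exact v.maximalIdeal.asIdeal.add_mem (v.maximalIdeal.asIdeal.mul_mem_left _ ha)
    (v.maximalIdeal.asIdeal.mul_mem_left _ hc)

lemma emb_ne {z : GaussianInt} (h : z ≠ 0) : emb z ≠ 0 := fun h' =>
  h (emb_inj (h'.trans (map_zero emb).symm))

lemma iSup_two {f : Fin 2 → ℝ} : (⨆ i, f i) = max (f 0) (f 1) := by
  apply le_antisymm
  · refine ciSup_le fun i => ?_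
    fin_cases i
    · exact le_max_left _ _
    · exact le_max_right _ _
  · exact max_le (le_ciSup (Set.finite_range f).bddAbove 0) (le_ciSup (Set.finite_range f).bddAbove 1)

/-- the height of a coprime pair -/
lemma hh_gauss {a c : GaussianInt} (h : IsCoprime a c) (hc : c ≠ 0) :
    hh (emb a, emb c) =
      2 * Real.log (max ‖GaussianInt.toComplex a‖ ‖GaussianInt.toComplex c‖) := by
  have hx : (![emb a, emb c] : Fin 2 → K4) ≠ 0 := by
    intro h0
    have := congrFun h0 1
    simp only [Matrix.cons_val_one, Matrix.cons_val_zero, Pi.zero_apply] at this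
    exact emb_ne hc this
  unfold hh
  rw [logHeight_eq_log_mulHeight, NumberField.mulHeight_eq hx]
  have h1 : ∀ v : FinitePlace K4, (⨆ i, v ((![emb a, emb c] : Fin 2 → K4) i)) = 1 := by
    intro v
    rw [iSup_two]
    simp only [Matrix.cons_val_zero, Matrix.cons_val_one]
    apply le_antisymm (max_le (fin_le_one v a) (fin_le_one v c))
    by_cases ha : e a ∈ v.maximalIdeal.asIdeal
    · have hc' : e c ∉ v.maximalIdeal.asIdeal := fun hc => not_both' h v ha hc
      rw [(fin_eq_one v c).2 hc']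
      exact le_max_right _ _
    · rw [(fin_eq_one v a).2 ha]
      exact le_max_left _ _
  have h2 : ∀ w : InfinitePlace K4, (⨆ i, w ((![emb a, emb c] : Fin 2 → K4) i)) =
      max ‖GaussianInt.toComplex a‖ ‖GaussianInt.toComplex c‖ := by
    intro w
    rw [iSup_two]
    simp only [Matrix.cons_val_zero, Matrix.cons_val_one]
    rw [← place_e w a, ← place_e w c]
    rfl
  rw [finprod_congr h1, finprod_one, mul_one, Finset.prod_congr rfl fun w _ => by rw [h2 w],
    Finset.prod_pow_eq_pow_sum, sum_mult, Real.log_pow]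
  norm_num

/-- the primes of a coprime triple -/
lemma I_gauss {a b c : GaussianInt} (hs : a + b = c) (h : IsCoprime a c) :
    I (emb a, emb c) = {v : FinitePlace K4 | e (a * b * c) ∈ v.maximalIdeal.asIdeal} := by
  ext v
  have hp := v.maximalIdeal.isPrime
  have eb : emb c - emb a = emb b := by
    rw [← hs, map_add]
    ring
  simp only [I, Set.mem_ofPred_eq, eb]
  rw [map_mul, map_mul, hp.mul_mem_iff_mem_or_mem, hp.mul_mem_iff_mem_or_mem]
  constructor
  · intro h1
    by_contra hcon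
    push Not at hcon
    obtain ⟨⟨ha, hb⟩, hc⟩ := hcon
    apply h1
    rw [(fin_eq_one v a).2 ha, (fin_eq_one v b).2 hb, (fin_eq_one v c).2 hc]
    exact ⟨rfl, rfl⟩
  · rintro h1 ⟨h2, h3⟩
    by_cases hc : e c ∈ v.maximalIdeal.asIdeal
    · have ha : e a ∉ v.maximalIdeal.asIdeal := fun ha => not_both' h v ha hc
      rw [(fin_eq_one v a).2 ha] at h2
      have := (fin_lt_one v c).2 hc
      linarith
    · rw [(fin_eq_one v c).2 hc] at h2 h3
      rw [fin_eq_one] at h2 h3
      rcases h1 with (h1 | h1) | h1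
      · exact h2 h1
      · exact h3 h1
      · exact hc h1

/-- the weight of the primes dividing `n` -/
lemma W_gauss {n : GaussianInt} (hn : n ≠ 0) {S : Finset GaussianInt} (hS : IsPrimeSystem S n) :
    W {v : FinitePlace K4 | e n ∈ v.maximalIdeal.asIdeal} =
      2 * Real.log (∏ Q ∈ S, ‖GaussianInt.toComplex Q‖) := by
  classical
  obtain ⟨hS1, hS2, hS3⟩ := hS
  have hfin : {v : FinitePlace K4 | e n ∈ v.maximalIdeal.asIdeal}.Finite := by
    refine (finite_ne_one (emb_ne hn)).subset fun v hv => ?_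
    have := (fin_lt_one v n).2 hv
    exact ne_of_lt this
  have hpr : ∀ Q ∈ S, (Ideal.span {e Q} : Ideal (𝓞 K4)).IsPrime ∧
      (Ideal.span {e Q} : Ideal (𝓞 K4)) ≠ ⊥ := by
    intro Q hQ
    have h4 : Prime (e Q) := (MulEquiv.prime_iff e).2 (hS1 Q hQ).1
    refine ⟨(Ideal.span_singleton_prime h4.ne_zero).2 h4, ?_⟩
    rw [Ne, Ideal.span_singleton_eq_bot]
    exact h4.ne_zero
  have hnz : ∀ Q ∈ S, ‖GaussianInt.toComplex Q‖ ≠ 0 := by
    intro Q hQ
    have := (hS1 Q hQ).1.ne_zero
    rw [norm_ne_zero_iff]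
    intro h0
    exact this (GaussianInt.toComplex_injective (h0.trans (map_zero _).symm))
  rw [W_eq hfin, Real.log_prod hnz, Finset.mul_sum]
  symm
  refine Finset.sum_bij (fun Q hQ => FinitePlace.mk (⟨Ideal.span {e Q}, (hpr Q hQ).1, (hpr Q hQ).2⟩ :
    HeightOneSpectrum (𝓞 K4))) ?_ ?_ ?_ ?_
  · intro Q hQ
    rw [Set.Finite.mem_toFinset, Set.mem_ofPred_eq, FinitePlace.maximalIdeal_mk]
    show e n ∈ Ideal.span {e Q}
    rw [Ideal.mem_span_singleton]
    exact map_dvd e (hS1 Q hQ).2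
  · intro Q hQ R hR h
    rw [FinitePlace.mk_eq_iff, HeightOneSpectrum.ext_iff] at h
    have h' : (Ideal.span {e Q} : Ideal (𝓞 K4)) = Ideal.span {e R} := h
    rw [Ideal.span_singleton_eq_span_singleton] at h'
    have h9 : Associated Q R := by
      have := h'.map e.symm
      simpa using this
    exact hS3 Q hQ R hR h9
  · intro v hv
    rw [Set.Finite.mem_toFinset, Set.mem_ofPred_eq] at hv
    obtain ⟨Q, hQ1, -, hQ2⟩ := exists_gen v.maximalIdeal
    rw [hQ2, Ideal.mem_span_singleton] at hv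
    have hQn : Q ∣ n := (map_dvd_iff e).1 hv
    obtain ⟨R, hR, hQR⟩ := hS2 Q hQ1 hQn
    refine ⟨R, hR, ?_⟩
    have h1 : (⟨Ideal.span {e R}, (hpr R hR).1, (hpr R hR).2⟩ : HeightOneSpectrum (𝓞 K4)) =
        v.maximalIdeal := by
      apply HeightOneSpectrum.ext
      show Ideal.span {e R} = v.maximalIdeal.asIdeal
      rw [hQ2, Ideal.span_singleton_eq_span_singleton]
      exact (hQR.map e).symm
    rw [h1]
    exact FinitePlace.mk_maximalIdeal v
  · intro Q hQ
    unfold Nv
    rw [FinitePlace.maximalIdeal_mk]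
    show 2 * Real.log ‖GaussianInt.toComplex Q‖ = Real.log ((Ideal.absNorm (Ideal.span {e Q}) : ℕ) : ℝ)
    rw [absNorm_e, Real.log_pow]
    norm_num

lemma I_smul {K : Type} [Field K] [NumberField K] {l : K} (hl : l ≠ 0) (p : K × K) :
    I (l * p.1, l * p.2) = I p := by
  ext v
  simp only [I, Set.mem_ofPred_eq]
  have h0 : v l ≠ 0 := (FinitePlace.pos_iff.2 hl).ne'
  have e1 : l * p.2 - l * p.1 = l * (p.2 - p.1) := by ring
  rw [e1, map_mul, map_mul, map_mul, mul_right_inj' h0, mul_right_inj' h0]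

/-- coprime coordinates -/
lemma exists_coprime (p : K4 × K4) (hp : p.2 ≠ 0) : ∃ (a c : GaussianInt) (l : K4), l ≠ 0 ∧ c ≠ 0 ∧
    IsCoprime a c ∧ p = (l * emb a, l * emb c) := by
  obtain ⟨x, d, hd, hx⟩ := IsFractionRing.div_surjective (A := 𝓞 K4) p.1
  obtain ⟨y, d', hd', hy⟩ := IsFractionRing.div_surjective (A := 𝓞 K4) p.2
  have hd0 : d ≠ 0 := nonZeroDivisors.ne_zero hd
  have hd0' : d' ≠ 0 := nonZeroDivisors.ne_zero hd'
  set A : GaussianInt := e.symm (x * d') with hA
  set C : GaussianInt := e.symm (y * d) with hC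
  set m : K4 := (algebraMap (𝓞 K4) K4 (d * d'))⁻¹ with hm
  have hm0 : algebraMap (𝓞 K4) K4 (d * d') ≠ 0 := by
    rw [Ne, FaithfulSMul.algebraMap_eq_zero_iff]
    exact mul_ne_zero hd0 hd0'
  have eA : emb A = algebraMap (𝓞 K4) K4 (x * d') := by
    rw [← e_coe, hA, RingEquiv.apply_symm_apply]
  have eC : emb C = algebraMap (𝓞 K4) K4 (y * d) := by
    rw [← e_coe, hC, RingEquiv.apply_symm_apply]
  have hd1 : algebraMap (𝓞 K4) K4 d ≠ 0 := by
    rw [Ne, FaithfulSMul.algebraMap_eq_zero_iff]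
    exact hd0
  have hd2 : algebraMap (𝓞 K4) K4 d' ≠ 0 := by
    rw [Ne, FaithfulSMul.algebraMap_eq_zero_iff]
    exact hd0'
  have p1 : p.1 = m * emb A := by
    rw [eA, hm, ← hx, map_mul, map_mul]
    field_simp
  have p2 : p.2 = m * emb C := by
    rw [eC, hm, ← hy, map_mul, map_mul]
    field_simp
  have hC0 : C ≠ 0 := by
    intro h0
    apply hp
    rw [p2, h0, map_zero, mul_zero]
  obtain ⟨g, hg⟩ : ∃ g : GaussianInt, Ideal.span {A, C} = Ideal.span {g} :=
    (IsPrincipalIdealRing.principal (Ideal.span {A, C})).principal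
  have gA : g ∣ A := by
    rw [← Ideal.mem_span_singleton, ← hg]
    exact Ideal.subset_span (by simp)
  have gC : g ∣ C := by
    rw [← Ideal.mem_span_singleton, ← hg]
    exact Ideal.subset_span (by simp)
  have hgmem : g ∈ Ideal.span {A, C} := by
    rw [hg]
    exact Ideal.mem_span_singleton_self g
  obtain ⟨a, ha⟩ := gA
  obtain ⟨c, hc⟩ := gC
  have hg0 : g ≠ 0 := by
    rintro rfl
    rw [zero_mul] at hc
    exact hC0 hc
  rw [Ideal.mem_span_pair] at hgmem
  obtain ⟨u, v, huv⟩ := hgmem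
  have hcop : IsCoprime a c := by
    refine ⟨u, v, ?_⟩
    apply mul_left_cancel₀ hg0
    rw [mul_one]
    rw [ha, hc] at huv
    linear_combination huv
  refine ⟨a, c, m * emb g, mul_ne_zero (inv_ne_zero hm0) (emb_ne hg0), ?_, hcop, ?_⟩
  · rintro rfl
    rw [mul_zero] at hc
    exact hC0 hc
  · ext
    · simp only
      rw [p1, ha, map_mul]
      ring
    · simp only
      rw [p2, hc, map_mul]
      ring

/-- divisibility from the absolute values at the primes dividing `N` -/
lemma dvd_of_val {N a : GaussianInt} (hN : N ≠ 0) (h : ∀ v : FinitePlace K4,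
    e N ∈ v.maximalIdeal.asIdeal → v (emb a) ≤ v (emb N)) : N ∣ a := by
  have hNe := emb_ne hN
  have key : ∀ v : FinitePlace K4, v (emb a / emb N) ≤ 1 := by
    intro v
    rw [map_div₀, div_le_one (FinitePlace.pos_iff.2 hNe)]
    by_cases hv : e N ∈ v.maximalIdeal.asIdeal
    · exact h v hv
    · rw [(fin_eq_one v N).2 hv]
      exact fin_le_one v a
  have h2 := HeightOneSpectrum.mem_integers_of_valuation_le_one (R := 𝓞 K4) K4 (emb a / emb N) (by
    intro v
    have h3 := key (FinitePlace.mk v)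
    rw [← FinitePlace.norm_embedding_eq, FinitePlace.maximalIdeal_mk,
      FinitePlace.norm_embedding'] at h3
    have h4 : (WithZeroMulInt.toNNReal (HeightOneSpectrum.absNorm_ne_zero v)
        (v.valuation K4 (emb a / emb N)) : ℝ) ≤ 1 := h3
    have h5 : WithZeroMulInt.toNNReal (HeightOneSpectrum.absNorm_ne_zero v)
        (v.valuation K4 (emb a / emb N)) ≤ 1 := by exact_mod_cast h4
    exact (WithZeroMulInt.toNNReal_le_one_iff (HeightOneSpectrum.one_lt_absNorm_nnreal v)).1 h5)
  obtain ⟨y, hy⟩ := h2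
  obtain ⟨y', rfl⟩ := e.surjective y
  have e1 : algebraMap (𝓞 K4) K4 (e y') = emb y' := rfl
  refine ⟨y', emb_inj ?_⟩
  rw [map_mul, ← e1, hy]
  field_simp

/-- the embedding extending the one of the Gaussian integers -/
lemma exists_tau : ∃ τ : K4 →+* ℂ, (∀ z, τ (emb z) = GaussianInt.toComplex z) ∧
    ∀ (w : InfinitePlace K4) (x : K4), w x = ‖τ x‖ := by
  obtain ⟨φ⟩ : Nonempty (K4 →+* ℂ) := inferInstance
  have h1 : φ z4 * φ z4 = -1 := by
    rw [← map_mul, z4_sq]
    simp
  have h2 : φ z4 = Complex.I ∨ φ z4 = -Complex.I := by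
    have h3 : (φ z4 - Complex.I) * (φ z4 + Complex.I) = 0 := by
      linear_combination h1 - Complex.I_mul_I
    rcases mul_eq_zero.1 h3 with h | h
    · left; linear_combination h
    · right; linear_combination h
  have h3 : ∃ τ : K4 →+* ℂ, τ z4 = Complex.I := by
    rcases h2 with h | h
    · exact ⟨φ, h⟩
    · refine ⟨(starRingEnd ℂ).comp φ, ?_⟩
      rw [RingHom.comp_apply, h, map_neg, Complex.conj_I, neg_neg]
  obtain ⟨τ, hτ⟩ := h3
  have h4 : ∀ z, τ (emb z) = GaussianInt.toComplex z := by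
    intro z
    rw [emb_apply, map_add, map_mul, map_intCast, map_intCast, hτ, GaussianInt.toComplex_def]
  refine ⟨τ, h4, fun w x => ?_⟩
  obtain ⟨y, d, hd, hx⟩ := IsFractionRing.div_surjective (A := 𝓞 K4) x
  obtain ⟨y', rfl⟩ := e.surjective y
  obtain ⟨d', rfl⟩ := e.surjective d
  have e1 : algebraMap (𝓞 K4) K4 (e y') = emb y' := rfl
  have e2 : algebraMap (𝓞 K4) K4 (e d') = emb d' := rfl
  rw [← hx, map_div₀, map_div₀, norm_div, e1, e2, h4, h4, ← place_e w y', ← place_e w d']
  rfl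

end Pool.Agent.V8H8.AB
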