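import Pool.Agent.V8H8.AB.GaussB

/-!
# The abc inequality over the Gaussian integers near one cusp, in one direction
-/

set_option autoImplicit false

namespace Pool.Agent.V8H8.AB

open NumberField Height IsDedekindDomain
open Pool.Agent.TH402.AK (K4 z4 z4_sq emb emb_apply emb_inj e e_coe place_e sum_mult absNorm_e exists_gen)

/-- `-1 + 2 i` -/
noncomputable def bt : K4 := emb ⟨-1, 2⟩

/-- `2 - 8 i` -/
noncomputable def gm : K4 := emb ⟨2, -8⟩

lemma par : Par bt gm := by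
  unfold bt gm
  have e2 : emb 2 = 2 := map_ofNat emb 2
  have e4 : emb 4 = 4 := map_ofNat emb 4
  have e6 : emb 6 = 6 := map_ofNat emb 6
  refine ⟨?_, ?_, emb_ne (by decide), ?_, emb_ne (by decide)⟩
  · have h : (2 * ⟨2, -8⟩ : GaussianInt) = 1 + 4 * ⟨-1, 2⟩ - ⟨-1, 2⟩ ^ 4 := by decide
    have := congrArg emb h
    simpa [e2, e4] using this
  · have h : (⟨2, -8⟩ ^ 2 + 2 : GaussianInt) =
        1 + 4 * ⟨-1, 2⟩ - ⟨-1, 2⟩ ^ 4 + 6 * ⟨-1, 2⟩ ^ 2 - 4 * ⟨-1, 2⟩ ^ 3 := by decide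
    have := congrArg emb h
    simpa [e2, e4, e6] using this
  · have h : (1 - ⟨-1, 2⟩ ^ 2 : GaussianInt) ≠ 0 := by decide
    have := emb_ne h
    simpa using this

lemma dir_bt {τ : K4 →+* ℂ} (hτ : ∀ z, τ (emb z) = GaussianInt.toComplex z) :
    dir (τ bt ^ 4) = (om : ℂ) := by
  have h1 : τ bt ^ 4 = -7 + 24 * Complex.I := by
    unfold bt
    rw [← map_pow, ← map_pow, hτ]
    have : (⟨-1, 2⟩ : GaussianInt) ^ 4 = ⟨-7, 24⟩ := by decide
    rw [this, GaussianInt.toComplex_def]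
    push_cast
    ring
  have h2 : ‖(-7 + 24 * Complex.I : ℂ)‖ = 25 := by
    have h : ‖(-7 + 24 * Complex.I : ℂ)‖ ^ 2 = 25 ^ 2 := by
      rw [← Complex.normSq_eq_norm_sq, Complex.normSq_apply]
      simp
      norm_num
    exact (pow_left_inj₀ (norm_nonneg _) (by norm_num) two_ne_zero).1 h
  rw [h1]
  unfold dir
  rw [h2]
  simp [om]

lemma FT_ratio {τ : K4 →+* ℂ} (p : K4 × K4) (h2 : τ p.2 ≠ 0) :
    τ (bb bt p).1 / τ (bb bt p).2 = FT (τ bt) (τ p.1 / τ p.2) := by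
  unfold bb FT
  simp only [map_mul, map_pow, map_add]
  have e1 : (τ p.1 / τ p.2 + τ bt) / (1 + τ bt * (τ p.1 / τ p.2)) =
      (τ p.1 + τ bt * τ p.2) / (τ p.2 + τ bt * τ p.1) := by
    have a1 : τ p.1 / τ p.2 + τ bt = (τ p.1 + τ bt * τ p.2) / τ p.2 := by
      field_simp
    have a2 : 1 + τ bt * (τ p.1 / τ p.2) = (τ p.2 + τ bt * τ p.1) / τ p.2 := by
      field_simp
    rw [a1, a2, div_div_div_cancel_right₀ h2]
  rw [e1, div_pow, mul_div_mul_comm]

/-- the condition on the pairs -/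
def UU (τ : K4 →+* ℂ) (N : GaussianInt) (δ : ℝ) (u : ℂ) (θ : ℝ) (p : K4 × K4) : Prop :=
  (∀ v : FinitePlace K4, e N ∈ v.maximalIdeal.asIdeal → v p.1 ≤ v (emb N) * v p.2) ∧
  ‖τ p.1‖ ≤ δ * ‖τ p.2‖ ∧ ‖dir (τ p.1 / τ p.2) - u‖ ≤ θ

theorem gauss_pairs {τ : K4 →+* ℂ} (hτ : ∀ z, τ (emb z) = GaussianInt.toComplex z)
    (hw : ∀ (w : InfinitePlace K4) (x : K4), w x = ‖τ x‖) {N : GaussianInt} (hN : N ≠ 0)
    {δ : ℝ} (hδ : 0 < δ) {u : ℂ} (hu : ‖u‖ = 1) {θ : ℝ} (hθ : 0 < θ) :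
    ∃ D : ℕ, 1 ≤ D ∧ ∀ η : ℝ, 0 ≤ η →
      (∃ C : ℝ, ∀ p : K4 × K4, Valid p → UU τ N δ u θ p → (1 - η / D) * hh p - C ≤ W (I p)) →
      ∃ C : ℝ, ∀ p : K4 × K4, Valid p → (1 - η) * hh p - C ≤ W (I p) := by
  classical
  -- the places
  have hTfin : {v : FinitePlace K4 | e N ∈ v.maximalIdeal.asIdeal}.Finite := by
    refine (finite_ne_one (emb_ne hN)).subset fun v hv => ?_
    exact ne_of_lt ((fin_lt_one v N).2 hv)
  set S : Finset (AbsoluteValue K4 ℝ) :=
    (Finset.univ.image fun w : InfinitePlace K4 => w.1) ∪ (hTfin.toFinset.image fun v => v.1) with hS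
  have hTB : ∀ a ∈ S, TB a := by
    intro a ha
    rcases Finset.mem_union.1 ha with h | h
    · obtain ⟨w, -, rfl⟩ := Finset.mem_image.1 h
      exact TB_inf w
    · obtain ⟨v, -, rfl⟩ := Finset.mem_image.1 h
      exact TB_fin v
  -- a lower bound for the absolute values of `N`
  have hδ1 : ∃ δ1 : ℝ, 0 < δ1 ∧ δ1 ≤ δ ∧ ∀ v : FinitePlace K4, e N ∈ v.maximalIdeal.asIdeal →
      δ1 ≤ v (emb N) := by
    have key : ∀ T : Finset (FinitePlace K4), ∃ δ1 : ℝ, 0 < δ1 ∧ δ1 ≤ δ ∧ ∀ v ∈ T, δ1 ≤ v (emb N) := by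
      intro T
      induction T using Finset.induction_on with
      | empty => exact ⟨δ, hδ, le_rfl, by simp⟩
      | insert b T hb ih =>
        obtain ⟨r, hr, hr1, hr2⟩ := ih
        refine ⟨min r (b (emb N)), lt_min hr (FinitePlace.pos_iff.2 (emb_ne hN)),
          (min_le_left _ _).trans hr1, fun v hv => ?_⟩
        rcases Finset.mem_insert.1 hv with rfl | hv
        · exact min_le_right _ _
        · exact (min_le_left _ _).trans (hr2 v hv)
    obtain ⟨δ1, h1, h2, h3⟩ := key hTfin.toFinset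
    exact ⟨δ1, h1, h2, fun v hv => h3 v (hTfin.mem_toFinset.2 hv)⟩
  obtain ⟨δ1, hδ1, hδ2, hδ3⟩ := hδ1
  -- the number of iterates
  have hu0 : ∃ w : Circle, (w : ℂ) = u := ⟨⟨u, by
    show _ ∈ Metric.sphere (0 : ℂ) 1
    rw [mem_sphere_zero_iff_norm]
    exact hu⟩, rfl⟩
  obtain ⟨w0, hw0⟩ := hu0
  obtain ⟨m, hm⟩ := om_cover w0 (half_pos hθ)
  have hbt0 : τ bt ≠ 0 := (map_ne_zero τ).2 par.h3
  -- the radius
  have hr1 : ∃ r : ℝ, 0 < r ∧ ∀ a ∈ S, ∀ p : K4 × K4, a p.1 ≤ r * a p.2 → ∀ k ≤ m,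
      a ((bb bt)^[k] p).1 ≤ δ1 * a ((bb bt)^[k] p).2 := by
    have key : ∀ T : Finset (AbsoluteValue K4 ℝ), ∃ r : ℝ, 0 < r ∧ ∀ a ∈ T, ∀ p : K4 × K4,
        a p.1 ≤ r * a p.2 → ∀ k ≤ m, a ((bb bt)^[k] p).1 ≤ δ1 * a ((bb bt)^[k] p).2 := by
      intro T
      induction T using Finset.induction_on with
      | empty => exact ⟨1, one_pos, by simp⟩
      | insert b T hb ih =>
        obtain ⟨r, hr, hr'⟩ := ih
        obtain ⟨r2, hr2, hr2'⟩ := bb_iter_small b bt m hδ1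
        refine ⟨min r r2, lt_min hr hr2, fun a ha p hp k hk => ?_⟩
        rcases Finset.mem_insert.1 ha with rfl | ha
        · exact hr2' _ (le_min hr.le hr2.le) (min_le_right _ _) p hp k hk
        · exact hr' a ha p (hp.trans (mul_le_mul_of_nonneg_right (min_le_left _ _) (a.nonneg _))) k hk
    exact key S
  obtain ⟨r1, hr1, hr1'⟩ := hr1
  have hr2 : ∃ r : ℝ, 0 < r ∧ ∀ t : ℂ, t ≠ 0 → ‖t‖ ≤ r → ∀ k ≤ m, (FT (τ bt))^[k] t ≠ 0 ∧
      ‖dir ((FT (τ bt))^[k] t) - dir (τ bt ^ 4) ^ k * dir t‖ ≤ θ / 2 := by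
    have key : ∀ m : ℕ, ∃ r : ℝ, 0 < r ∧ ∀ t : ℂ, t ≠ 0 → ‖t‖ ≤ r → ∀ k ≤ m,
        (FT (τ bt))^[k] t ≠ 0 ∧
        ‖dir ((FT (τ bt))^[k] t) - dir (τ bt ^ 4) ^ k * dir t‖ ≤ θ / 2 := by
      intro m
      induction m with
      | zero =>
        obtain ⟨r, hr, h⟩ := FT_iter hbt0 0 (θ / 2) (half_pos hθ)
        refine ⟨r, hr, fun t ht0 ht k hk => ?_⟩
        have : k = 0 := by omega
        subst this
        obtain ⟨h1, -, h3⟩ := h t ht0 ht
        exact ⟨h1, h3⟩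
      | succ m ih =>
        obtain ⟨r, hr, h⟩ := ih
        obtain ⟨r', hr', h'⟩ := FT_iter hbt0 (m + 1) (θ / 2) (half_pos hθ)
        refine ⟨min r r', lt_min hr hr', fun t ht0 ht k hk => ?_⟩
        rcases Nat.lt_or_ge k (m + 1) with hlt | hge
        · exact h t ht0 (ht.trans (min_le_left _ _)) k (by omega)
        · have : k = m + 1 := by omega
          subst this
          obtain ⟨h1, -, h3⟩ := h' t ht0 (ht.trans (min_le_right _ _))
          exact ⟨h1, h3⟩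
    exact key m
  obtain ⟨r2, hr2, hr2'⟩ := hr2
  set δ2 : ℝ := min r1 r2 with hδ2def
  have hδ2pos : 0 < δ2 := lt_min hr1 hr2
  -- first cover
  obtain ⟨M, hM, hnear⟩ := near S hTB hδ2pos
  obtain ⟨D1, hD1, c1⟩ := cover (K := K4) (Finset.Icc 1 M) psi (fun n => 4 * n)
    (fun j hj => by
      have := (Finset.mem_Icc.1 hj).1
      omega) (fun j hj => good_psi j (Finset.mem_Icc.1 hj).1)
    (fun _ => True) (fun p => ∀ a ∈ S, a p.1 ≤ δ2 * a p.2) (fun p hp _ => by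
      obtain ⟨n, hn1, hn2, hn3⟩ := hnear p hp.1 hp.2.1
      exact ⟨n, Finset.mem_Icc.2 ⟨hn1, hn2⟩, hn3⟩)
  -- second cover
  obtain ⟨D2, hD2, c2⟩ := cover (K := K4) (Finset.range (m + 1)) (fun k => (bb bt)^[k])
    (fun k => 5 ^ k) (fun j _ => Nat.one_le_pow _ _ (by norm_num))
    (fun j _ => good_iter (good_bb par) (by norm_num) j)
    (fun p => ∀ a ∈ S, a p.1 ≤ δ2 * a p.2) (UU τ N δ u θ) (fun p hp hV => by
      have hw' : ∀ x : K4, ∃ w : InfinitePlace K4, w.1 ∈ S ∧ w.1 x = ‖τ x‖ := by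
        intro x
        obtain ⟨w⟩ : Nonempty (InfinitePlace K4) := inferInstance
        exact ⟨w, Finset.mem_union_left _ (Finset.mem_image_of_mem _ (Finset.mem_univ w)), hw w x⟩
      obtain ⟨w⟩ : Nonempty (InfinitePlace K4) := inferInstance
      have hwS : w.1 ∈ S := Finset.mem_union_left _ (Finset.mem_image_of_mem _ (Finset.mem_univ w))
      have hwv : ∀ x : K4, w.1 x = ‖τ x‖ := fun x => hw w x
      have t1 : τ p.1 ≠ 0 := (map_ne_zero τ).2 hp.1
      have t2 : τ p.2 ≠ 0 := (map_ne_zero τ).2 hp.2.1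
      set t : ℂ := τ p.1 / τ p.2 with ht
      have ht0 : t ≠ 0 := div_ne_zero t1 t2
      have htn : ‖t‖ ≤ δ2 := by
        rw [ht, norm_div, div_le_iff₀ (norm_pos_iff.2 t2), ← hwv, ← hwv]
        exact hV w.1 hwS
      have hdt : ∃ z : Circle, (z : ℂ) = dir t := ⟨⟨dir t, by
        show _ ∈ Metric.sphere (0 : ℂ) 1
        rw [mem_sphere_zero_iff_norm]
        exact norm_dir ht0⟩, rfl⟩
      obtain ⟨z, hz⟩ := hdt
      obtain ⟨k, hk, hkz⟩ := hm z
      refine ⟨k, Finset.mem_range.2 (by omega), ?_, ?_, ?_⟩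
      · intro v hv
        have h1 := hr1' v.1 (Finset.mem_union_right _ (Finset.mem_image_of_mem _
          (hTfin.mem_toFinset.2 hv))) p ((hV v.1 (Finset.mem_union_right _
          (Finset.mem_image_of_mem _ (hTfin.mem_toFinset.2 hv)))).trans
          (mul_le_mul_of_nonneg_right (min_le_left _ _) (v.1.nonneg _))) k hk
        exact h1.trans (mul_le_mul_of_nonneg_right (hδ3 v hv) (v.1.nonneg _))
      · have h1 := hr1' w.1 hwS p ((hV w.1 hwS).trans
          (mul_le_mul_of_nonneg_right (min_le_left _ _) (w.1.nonneg _))) k hk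
        rw [hwv, hwv] at h1
        exact h1.trans (mul_le_mul_of_nonneg_right hδ2 (norm_nonneg _))
      · have hratio : ∀ j ≤ m, τ ((bb bt)^[j] p).1 / τ ((bb bt)^[j] p).2 = (FT (τ bt))^[j] t := by
          intro j
          induction j with
          | zero => intro _; rfl
          | succ j ih =>
            intro hj
            have h1 := ih (by omega)
            have h2 := (hr2' t ht0 (htn.trans (min_le_right _ _)) j (by omega)).1
            have h3 : τ ((bb bt)^[j] p).2 ≠ 0 := by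
              intro h0
              rw [h0, div_zero] at h1
              exact h2 h1.symm
            rw [Function.iterate_succ', Function.comp_apply, Function.iterate_succ',
              Function.comp_apply, FT_ratio _ h3, h1]
        rw [hratio k hk]
        have h4 := (hr2' t ht0 (htn.trans (min_le_right _ _)) k hk).2
        rw [dir_bt hτ, ← hz] at h4
        rw [← hw0]
        have h5 : dir ((FT (τ bt))^[k] t) - (w0 : ℂ) =
            (dir ((FT (τ bt))^[k] t) - (om : ℂ) ^ k * (z : ℂ)) +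
            (((om ^ k * z : Circle) : ℂ) - w0) := by
          push_cast
          ring
        rw [h5]
        refine (norm_add_le _ _).trans ?_
        linarith)
  refine ⟨D1 * D2, Nat.one_le_iff_ne_zero.2 (Nat.mul_ne_zero (by omega) (by omega)), fun η hη h => ?_⟩
  have hD10 : (0 : ℝ) < D1 := by exact_mod_cast hD1
  have e1 : η / ((D1 * D2 : ℕ) : ℝ) = η / D1 / D2 := by
    push_cast
    rw [div_div]
  rw [e1] at h
  have h2 := c2 (η / D1) (by positivity) h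
  obtain ⟨C, hC⟩ := c1 η hη h2
  exact ⟨C, fun p hp => hC p hp trivial⟩

end Pool.Agent.V8H8.AB
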