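import Pool.Agent.V8H8.AB.Fibre

/-!
# Many exceptions over the Gaussian integers in small regions
-/

set_option autoImplicit false

namespace Pool.Agent.V8H8.AB

open NumberField Height IsDedekindDomain
open Pool.Agent.TH402.AK (K4 z4 z4_sq emb emb_apply emb_inj e e_coe place_e sum_mult absNorm_e exists_gen)

theorem gauss_cover {τ : K4 →+* ℂ} (hτ : ∀ z, τ (emb z) = GaussianInt.toComplex z)
    (hw : ∀ (w : InfinitePlace K4) (x : K4), w x = ‖τ x‖) {N : GaussianInt} (hN : N ≠ 0)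
    {δ : ℝ} (hδ : 0 < δ) {u : ℂ} (hu : ‖u‖ = 1) {θ : ℝ} (hθ : 0 < θ) :
    ∃ (V : K4 × K4 → Prop) (M m : ℕ),
      (∀ p, Valid p → ∃ n ∈ Finset.Icc 1 M, V (psi n p)) ∧
      ∀ p, Valid p → V p → ∃ k ∈ Finset.range (m + 1), UU τ N δ u θ ((bb bt)^[k] p) := by
  classical
  -- the places
  have hTfin : {v : FinitePlace K4 | e N ∈ v.maximalIdeal.asIdeal}.Finite := by
    refine (finite_ne_one (emb_ne hN)).subset fun v hv => ?_
    exact ne_of_lt ((fin_lt_one v N).2 hv)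
  set S : Finset (AbsoluteValue K4 ℝ) :=
    (Finset.univ.image fun w : InfinitePlace K4 => w.1) ∪ (hTfin.toFinset.image fun v => v.1) with hS
  have hTB : ∀ a ∈ S, TB a := by
    intro a ha
    rcases Finset.mem_union.1 ha with h | h
    · obtain ⟨w, -, rfl⟩ := Finset.mem_image.1 h
      exact TB_inf w
    · obtain ⟨v, -, rfl⟩ := Finset.mem_image.1 h
      exact TB_fin v
  -- a lower bound for the absolute values of `N`
  have hδ1 : ∃ δ1 : ℝ, 0 < δ1 ∧ δ1 ≤ δ ∧ ∀ v : FinitePlace K4, e N ∈ v.maximalIdeal.asIdeal →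
      δ1 ≤ v (emb N) := by
    have key : ∀ T : Finset (FinitePlace K4), ∃ δ1 : ℝ, 0 < δ1 ∧ δ1 ≤ δ ∧ ∀ v ∈ T, δ1 ≤ v (emb N) := by
      intro T
      induction T using Finset.induction_on with
      | empty => exact ⟨δ, hδ, le_rfl, by simp⟩
      | insert b T hb ih =>
        obtain ⟨r, hr, hr1, hr2⟩ := ih
        refine ⟨min r (b (emb N)), lt_min hr (FinitePlace.pos_iff.2 (emb_ne hN)),
          (min_le_left _ _).trans hr1, fun v hv => ?_⟩
        rcases Finset.mem_insert.1 hv with rfl | hv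
        · exact min_le_right _ _
        · exact (min_le_left _ _).trans (hr2 v hv)
    obtain ⟨δ1, h1, h2, h3⟩ := key hTfin.toFinset
    exact ⟨δ1, h1, h2, fun v hv => h3 v (hTfin.mem_toFinset.2 hv)⟩
  obtain ⟨δ1, hδ1, hδ2, hδ3⟩ := hδ1
  -- the number of iterates
  have hu0 : ∃ w : Circle, (w : ℂ) = u := ⟨⟨u, by
    show _ ∈ Metric.sphere (0 : ℂ) 1
    rw [mem_sphere_zero_iff_norm]
    exact hu⟩, rfl⟩
  obtain ⟨w0, hw0⟩ := hu0
  obtain ⟨m, hm⟩ := om_cover w0 (half_pos hθ)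
  have hbt0 : τ bt ≠ 0 := (map_ne_zero τ).2 par.h3
  -- the radius
  have hr1 : ∃ r : ℝ, 0 < r ∧ ∀ a ∈ S, ∀ p : K4 × K4, a p.1 ≤ r * a p.2 → ∀ k ≤ m,
      a ((bb bt)^[k] p).1 ≤ δ1 * a ((bb bt)^[k] p).2 := by
    have key : ∀ T : Finset (AbsoluteValue K4 ℝ), ∃ r : ℝ, 0 < r ∧ ∀ a ∈ T, ∀ p : K4 × K4,
        a p.1 ≤ r * a p.2 → ∀ k ≤ m, a ((bb bt)^[k] p).1 ≤ δ1 * a ((bb bt)^[k] p).2 := by
      intro T
      induction T using Finset.induction_on with
      | empty => exact ⟨1, one_pos, by simp⟩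
      | insert b T hb ih =>
        obtain ⟨r, hr, hr'⟩ := ih
        obtain ⟨r2, hr2, hr2'⟩ := bb_iter_small b bt m hδ1
        refine ⟨min r r2, lt_min hr hr2, fun a ha p hp k hk => ?_⟩
        rcases Finset.mem_insert.1 ha with rfl | ha
        · exact hr2' _ (le_min hr.le hr2.le) (min_le_right _ _) p hp k hk
        · exact hr' a ha p (hp.trans (mul_le_mul_of_nonneg_right (min_le_left _ _) (a.nonneg _))) k hk
    exact key S
  obtain ⟨r1, hr1, hr1'⟩ := hr1
  have hr2 : ∃ r : ℝ, 0 < r ∧ ∀ t : ℂ, t ≠ 0 → ‖t‖ ≤ r → ∀ k ≤ m, (FT (τ bt))^[k] t ≠ 0 ∧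
      ‖dir ((FT (τ bt))^[k] t) - dir (τ bt ^ 4) ^ k * dir t‖ ≤ θ / 2 := by
    have key : ∀ m : ℕ, ∃ r : ℝ, 0 < r ∧ ∀ t : ℂ, t ≠ 0 → ‖t‖ ≤ r → ∀ k ≤ m,
        (FT (τ bt))^[k] t ≠ 0 ∧
        ‖dir ((FT (τ bt))^[k] t) - dir (τ bt ^ 4) ^ k * dir t‖ ≤ θ / 2 := by
      intro m
      induction m with
      | zero =>
        obtain ⟨r, hr, h⟩ := FT_iter hbt0 0 (θ / 2) (half_pos hθ)
        refine ⟨r, hr, fun t ht0 ht k hk => ?_⟩
        have : k = 0 := by omega
        subst this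
        obtain ⟨h1, -, h3⟩ := h t ht0 ht
        exact ⟨h1, h3⟩
      | succ m ih =>
        obtain ⟨r, hr, h⟩ := ih
        obtain ⟨r', hr', h'⟩ := FT_iter hbt0 (m + 1) (θ / 2) (half_pos hθ)
        refine ⟨min r r', lt_min hr hr', fun t ht0 ht k hk => ?_⟩
        rcases Nat.lt_or_ge k (m + 1) with hlt | hge
        · exact h t ht0 (ht.trans (min_le_left _ _)) k (by omega)
        · have : k = m + 1 := by omega
          subst this
          obtain ⟨h1, -, h3⟩ := h' t ht0 (ht.trans (min_le_right _ _))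
          exact ⟨h1, h3⟩
    exact key m
  obtain ⟨r2, hr2, hr2'⟩ := hr2
  set δ2 : ℝ := min r1 r2 with hδ2def
  have hδ2pos : 0 < δ2 := lt_min hr1 hr2
  -- first cover
  obtain ⟨M, hM, hnear⟩ := near S hTB hδ2pos
  refine ⟨fun p => ∀ a ∈ S, a p.1 ≤ δ2 * a p.2, M, m, fun p hp => ?_, fun p hp hV => ?_⟩
  · obtain ⟨n, hn1, hn2, hn3⟩ := hnear p hp.1 hp.2.1
    exact ⟨n, Finset.mem_Icc.2 ⟨hn1, hn2⟩, hn3⟩
  · have hw' : ∀ x : K4, ∃ w : InfinitePlace K4, w.1 ∈ S ∧ w.1 x = ‖τ x‖ := by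
      intro x
      obtain ⟨w⟩ : Nonempty (InfinitePlace K4) := inferInstance
      exact ⟨w, Finset.mem_union_left _ (Finset.mem_image_of_mem _ (Finset.mem_univ w)), hw w x⟩
    obtain ⟨w⟩ : Nonempty (InfinitePlace K4) := inferInstance
    have hwS : w.1 ∈ S := Finset.mem_union_left _ (Finset.mem_image_of_mem _ (Finset.mem_univ w))
    have hwv : ∀ x : K4, w.1 x = ‖τ x‖ := fun x => hw w x
    have t1 : τ p.1 ≠ 0 := (map_ne_zero τ).2 hp.1
    have t2 : τ p.2 ≠ 0 := (map_ne_zero τ).2 hp.2.1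
    set t : ℂ := τ p.1 / τ p.2 with ht
    have ht0 : t ≠ 0 := div_ne_zero t1 t2
    have htn : ‖t‖ ≤ δ2 := by
      rw [ht, norm_div, div_le_iff₀ (norm_pos_iff.2 t2), ← hwv, ← hwv]
      exact hV w.1 hwS
    have hdt : ∃ z : Circle, (z : ℂ) = dir t := ⟨⟨dir t, by
      show _ ∈ Metric.sphere (0 : ℂ) 1
      rw [mem_sphere_zero_iff_norm]
      exact norm_dir ht0⟩, rfl⟩
    obtain ⟨z, hz⟩ := hdt
    obtain ⟨k, hk, hkz⟩ := hm z
    refine ⟨k, Finset.mem_range.2 (by omega), ?_, ?_, ?_⟩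
    · intro v hv
      have h1 := hr1' v.1 (Finset.mem_union_right _ (Finset.mem_image_of_mem _
        (hTfin.mem_toFinset.2 hv))) p ((hV v.1 (Finset.mem_union_right _
        (Finset.mem_image_of_mem _ (hTfin.mem_toFinset.2 hv)))).trans
        (mul_le_mul_of_nonneg_right (min_le_left _ _) (v.1.nonneg _))) k hk
      exact h1.trans (mul_le_mul_of_nonneg_right (hδ3 v hv) (v.1.nonneg _))
    · have h1 := hr1' w.1 hwS p ((hV w.1 hwS).trans
        (mul_le_mul_of_nonneg_right (min_le_left _ _) (w.1.nonneg _))) k hk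
      rw [hwv, hwv] at h1
      exact h1.trans (mul_le_mul_of_nonneg_right hδ2 (norm_nonneg _))
    · have hratio : ∀ j ≤ m, τ ((bb bt)^[j] p).1 / τ ((bb bt)^[j] p).2 = (FT (τ bt))^[j] t := by
        intro j
        induction j with
        | zero => intro _; rfl
        | succ j ih =>
          intro hj
          have h1 := ih (by omega)
          have h2 := (hr2' t ht0 (htn.trans (min_le_right _ _)) j (by omega)).1
          have h3 : τ ((bb bt)^[j] p).2 ≠ 0 := by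
            intro h0
            rw [h0, div_zero] at h1
            exact h2 h1.symm
          rw [Function.iterate_succ', Function.comp_apply, Function.iterate_succ',
            Function.comp_apply, FT_ratio _ h3, h1]
      rw [hratio k hk]
      have h4 := (hr2' t ht0 (htn.trans (min_le_right _ _)) k hk).2
      rw [dir_bt hτ, ← hz] at h4
      rw [← hw0]
      have h5 : dir ((FT (τ bt))^[k] t) - (w0 : ℂ) =
          (dir ((FT (τ bt))^[k] t) - (om : ℂ) ^ k * (z : ℂ)) +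
          (((om ^ k * z : Circle) : ℂ) - w0) := by
        push_cast
        ring
      rw [h5]
      refine (norm_add_le _ _).trans ?_
      linarith

/-- many violations with `m`-th powers in small regions -/
theorem gauss_swarm {τ : K4 →+* ℂ} (hτ : ∀ z, τ (emb z) = GaussianInt.toComplex z)
    (hw : ∀ (w : InfinitePlace K4) (x : K4), w x = ‖τ x‖) {N : GaussianInt} (hN : N ≠ 0)
    {δ : ℝ} (hδ : 0 < δ) {u : ℂ} (hu : ‖u‖ = 1) {θ : ℝ} (hθ : 0 < θ) {m : ℕ} (hm : 1 ≤ m)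
    (h : SW (fun _ : K4 × K4 => True)) :
    SW (fun p : K4 × K4 => ∃ q, Valid q ∧ p = pw m q ∧ UU τ N δ u θ q) := by
  obtain ⟨V, M, m', h1, h2⟩ := gauss_cover hτ hw hN hδ hu hθ
  have s1 : SW V := sw_map (Finset.Icc 1 M) psi (fun n => 4 * n) (fun n => 4 * n)
    (fun j hj => by
      have := (Finset.mem_Icc.1 hj).1
      omega) (fun j hj => good_psi j (Finset.mem_Icc.1 hj).1)
    (fun j hj => fib_psi j (Finset.mem_Icc.1 hj).1) (fun _ => True) V (fun p hp _ => h1 p hp) h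
  have s2 : SW (UU τ N δ u θ) := sw_map (Finset.range (m' + 1)) (fun k => (bb bt)^[k])
    (fun k => 5 ^ k) (fun k => 5 ^ k) (fun j _ => Nat.one_le_pow _ _ (by norm_num))
    (fun j _ => good_iter (good_bb par) (by norm_num) j) (fun j _ => fib_bb par j)
    V (UU τ N δ u θ) h2 s1
  refine sw_map {()} (fun _ => pw m) (fun _ => m) (fun _ => m) (fun _ _ => hm)
    (fun _ _ => good_pw m hm) (fun _ _ => fib_pw m hm) (UU τ N δ u θ) _ (fun p hp hU => ?_) s2
  exact ⟨(), by simp, p, hp, rfl, hU⟩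

end Pool.Agent.V8H8.AB
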