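import Pool.Agent.V8H8.AB.Basic

/-!
# Self-maps of the line `a + b + c = 0` which respect the radical
-/

set_option autoImplicit false

namespace Pool.Agent.V8H8.AB

open NumberField Height IsDedekindDomain MvPolynomial

variable {K : Type} [Field K] [NumberField K]

/-- the height of a pair (relative to `K`) -/
noncomputable def hh (p : K × K) : ℝ := logHeight ![p.1, p.2]

/-- the finite places where the coordinates of `(x, y - x, - y)` do not have the same size -/
def I (p : K × K) : Set (FinitePlace K) := {v | ¬ (v p.1 = v p.2 ∧ v (p.2 - p.1) = v p.2)}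

/-- the coordinates of `(x, y - x, - y)` are not zero -/
def Valid (p : K × K) : Prop := p.1 ≠ 0 ∧ p.2 ≠ 0 ∧ p.2 - p.1 ≠ 0

lemma hh_nonneg (p : K × K) : 0 ≤ hh p := logHeight_nonneg _

lemma I_finite {p : K × K} (hp : Valid p) : (I p).Finite := by
  refine (((finite_ne_one hp.1).union (finite_ne_one hp.2.1)).union
    (finite_ne_one hp.2.2)).subset ?_
  intro v hv
  by_contra hcon
  simp only [Set.mem_union, Set.mem_ofPred_eq, not_or, not_not] at hcon
  exact hv ⟨hcon.1.1.trans hcon.1.2.symm, hcon.2.trans hcon.1.2.symm⟩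

/-- a map of degree `N` respecting the radical -/
def Good (N : ℕ) (f : K × K → K × K) : Prop := ∃ C : ℝ, 0 ≤ C ∧ ∀ p, Valid p →
  hh p ≤ C ∨ (Valid (f p) ∧ N * hh p - C ≤ hh (f p) ∧ hh (f p) ≤ N * hh p + C ∧
    W (I (f p)) ≤ W (I p) + (N - 1) * hh p + C)

lemma Good.comp {N M : ℕ} {f g : K × K → K × K} (hf : Good N f) (hg : Good M g) (hN : 1 ≤ N)
    (hM : 1 ≤ M) : Good (M * N) (fun p => g (f p)) := by
  obtain ⟨C, hC, hf⟩ := hf
  obtain ⟨D, hD, hg⟩ := hg
  have hN' : (1 : ℝ) ≤ N := by exact_mod_cast hN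
  have hM' : (1 : ℝ) ≤ M := by exact_mod_cast hM
  have hMC : 0 ≤ (M : ℝ) * C := by positivity
  refine ⟨(M + 1) * C + D, by positivity, fun p hp => ?_⟩
  rcases hf p hp with h | ⟨h1, h2, h3, h4⟩
  · left
    linarith
  rcases hg (f p) h1 with h | ⟨k1, k2, k3, k4⟩
  · left
    have h5 : hh p ≤ N * hh p := le_mul_of_one_le_left (hh_nonneg p) hN'
    linarith
  right
  have e1 : ((M * N : ℕ) : ℝ) * hh p = M * (N * hh p) := by
    push_cast
    ring
  have hM1 : 0 ≤ (M : ℝ) - 1 := by linarith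
  refine ⟨k1, ?_, ?_, ?_⟩
  · rw [e1]
    have := mul_le_mul_of_nonneg_left h2 (by linarith : (0 : ℝ) ≤ M)
    rw [mul_sub] at this
    linarith
  · rw [e1]
    have := mul_le_mul_of_nonneg_left h3 (by linarith : (0 : ℝ) ≤ M)
    rw [mul_add] at this
    linarith
  · have h5 := mul_le_mul_of_nonneg_left h3 hM1
    have e2 : (((M * N : ℕ) : ℝ) - 1) * hh p = (N - 1) * hh p + (M - 1) * (N * hh p) := by
      push_cast
      ring
    rw [e2]
    have e3 : ((M : ℝ) - 1) * (N * hh p + C) = (M - 1) * (N * hh p) + (M * C - C) := by ring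
    rw [e3] at h5
    linarith

/-- primes dividing the value of a form -/
lemma form_count (m : ℕ) (G : MvPolynomial (Fin 2) K) (hG : G.IsHomogeneous m) :
    ∃ C : ℝ, 0 ≤ C ∧ ∀ p : K × K, eval ![p.1, p.2] G ≠ 0 →
      {v : FinitePlace K | v (eval ![p.1, p.2] G) < v p.1 ^ m ∨
        v (eval ![p.1, p.2] G) < v p.2 ^ m}.Finite ∧
      W {v : FinitePlace K | v (eval ![p.1, p.2] G) < v p.1 ^ m ∨
        v (eval ![p.1, p.2] G) < v p.2 ^ m} ≤ m * hh p + C := by
  have hom : ∀ i : Fin 3, ((![X 0 ^ m, X 1 ^ m, G] : Fin 3 → MvPolynomial (Fin 2) K) i).IsHomogeneous m := by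
    intro i
    fin_cases i
    · simpa using (isHomogeneous_X K (0 : Fin 2)).pow m
    · simpa using (isHomogeneous_X K (1 : Fin 2)).pow m
    · exact hG
  obtain ⟨C, hC⟩ := logHeight_eval_le' hom
  refine ⟨max C 0, le_max_right _ _, fun p hp => ?_⟩
  have hz : (fun j => eval ![p.1, p.2] ((![X 0 ^ m, X 1 ^ m, G] : Fin 3 → MvPolynomial (Fin 2) K) j)) =
      ![p.1 ^ m, p.2 ^ m, eval ![p.1, p.2] G] := by
    funext j
    fin_cases j <;> simp
  have h1 := hC ![p.1, p.2]
  rw [hz] at h1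
  obtain ⟨h2, h3⟩ := count ![p.1 ^ m, p.2 ^ m, eval ![p.1, p.2] G] 2 (by simpa using hp)
  have hsub : {v : FinitePlace K | v (eval ![p.1, p.2] G) < v p.1 ^ m ∨
        v (eval ![p.1, p.2] G) < v p.2 ^ m} ⊆
      {v : FinitePlace K | ∃ i, v ((![p.1 ^ m, p.2 ^ m, eval ![p.1, p.2] G] : Fin 3 → K) 2) <
        v ((![p.1 ^ m, p.2 ^ m, eval ![p.1, p.2] G] : Fin 3 → K) i)} := by
    rintro v (hv | hv)
    · refine ⟨0, ?_⟩
      simpa using hv
    · refine ⟨1, ?_⟩
      simpa using hv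
  refine ⟨h2.subset hsub, (W_mono h2 hsub).trans (h3.trans (h1.trans ?_))⟩
  have := le_max_left C 0
  unfold hh
  linarith

/-- pairs with ratio in a finite set have bounded height -/
lemma hh_bdd (B : Set K) (hB : B.Finite) : ∃ C : ℝ, 0 ≤ C ∧ ∀ p : K × K, p.1 / p.2 ∈ B → hh p ≤ C := by
  classical
  refine ⟨∑ t ∈ hB.toFinset, logHeight₁ t, Finset.sum_nonneg fun t _ => zero_le_logHeight₁ t,
    fun p hp => ?_⟩
  have h1 : hh p = logHeight₁ (p.1 / p.2) := (logHeight₁_div_eq_logHeight p.1 p.2).symm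
  rw [h1]
  exact Finset.single_le_sum (f := fun t => logHeight₁ t) (fun t _ => zero_le_logHeight₁ t)
    (hB.mem_toFinset.2 hp)

/-- the power map -/
def pw (n : ℕ) (p : K × K) : K × K := (p.1 ^ n, p.2 ^ n)

lemma good_pw (n : ℕ) (hn : 1 ≤ n) : Good n (pw n : K × K → K × K) := by
  classical
  set G : MvPolynomial (Fin 2) K := ∑ i ∈ Finset.range n, X 1 ^ i * X 0 ^ (n - 1 - i) with hGdef
  have hG : G.IsHomogeneous (n - 1) := by
    refine IsHomogeneous.sum _ _ _ fun i hi => ?_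
    have h := ((isHomogeneous_X K (1 : Fin 2)).pow i).mul
      ((isHomogeneous_X K (0 : Fin 2)).pow (n - 1 - i))
    have e : 1 * i + 1 * (n - 1 - i) = n - 1 := by
      have := Finset.mem_range.1 hi
      omega
    rw [e] at h
    exact h
  have hev : ∀ p : K × K, eval ![p.1, p.2] G * (p.2 - p.1) = p.2 ^ n - p.1 ^ n := by
    intro p
    have : eval ![p.1, p.2] G = ∑ i ∈ Finset.range n, p.2 ^ i * p.1 ^ (n - 1 - i) := by
      simp [hGdef]
    rw [this]
    exact (Commute.all p.2 p.1).geom_sum₂_mul n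
  obtain ⟨C1, hC1, h1⟩ := form_count (n - 1) G hG
  obtain ⟨C2, hC2, h2⟩ := hh_bdd {t : K | t ^ n = 1} (by
    have hne : (Polynomial.X ^ n - 1 : Polynomial K) ≠ 0 :=
      Polynomial.X_pow_sub_C_ne_zero (by omega) 1
    refine (Polynomial.finite_setOf_isRoot hne).subset fun t ht => ?_
    simp only [Set.mem_ofPred_eq] at ht ⊢
    simp [Polynomial.IsRoot, ht])
  refine ⟨C1 + C2, by positivity, fun p hp => ?_⟩
  obtain ⟨p1, p2, p3⟩ := hp
  by_cases hd : p.2 ^ n - p.1 ^ n = 0
  · left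
    have := h2 p (by
      simp only [Set.mem_ofPred_eq, div_pow]
      rw [sub_eq_zero] at hd
      rw [hd]
      exact div_self (pow_ne_zero _ p1))
    linarith
  right
  have hG0 : eval ![p.1, p.2] G ≠ 0 := by
    intro h
    apply hd
    rw [← hev, h, zero_mul]
  have hval : Valid (pw n p) := ⟨pow_ne_zero _ p1, pow_ne_zero _ p2, hd⟩
  have hheq : hh (pw n p) = n * hh p := by
    unfold hh pw
    have : (![p.1 ^ n, p.2 ^ n] : Fin 2 → K) = ![p.1, p.2] ^ n := by
      funext i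
      fin_cases i <;> simp
    simp only [this]
    exact logHeight_pow _ n
  refine ⟨hval, by rw [hheq]; linarith, by rw [hheq]; linarith, ?_⟩
  obtain ⟨k1, k2⟩ := h1 p hG0
  have hsub : I (pw n p) ⊆ I p ∪ {v : FinitePlace K | v (eval ![p.1, p.2] G) < v p.1 ^ (n - 1) ∨
        v (eval ![p.1, p.2] G) < v p.2 ^ (n - 1)} := by
    intro v hv
    by_contra hcon
    simp only [Set.mem_union, not_or] at hcon
    obtain ⟨c1, c2⟩ := hcon
    simp only [I, Set.mem_ofPred_eq, not_not] at c1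
    simp only [Set.mem_ofPred_eq, not_or, not_lt] at c2
    apply hv
    have e1 : v (p.2 ^ n - p.1 ^ n) = v (eval ![p.1, p.2] G) * v p.2 := by
      rw [← hev, map_mul, c1.2]
    have e2 : v p.2 ^ n = v p.2 ^ (n - 1) * v p.2 := by
      rw [← pow_succ]
      congr 1
      omega
    refine ⟨?_, ?_⟩
    · show v (p.1 ^ n) = v (p.2 ^ n)
      rw [map_pow, map_pow, c1.1]
    · show v (p.2 ^ n - p.1 ^ n) = v (p.2 ^ n)
      apply le_antisymm
      · have := FinitePlace.add_le v (p.2 ^ n) (-p.1 ^ n)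
        rw [← sub_eq_add_neg, map_neg_eq_map, map_pow, map_pow, c1.1, max_self] at this
        rw [map_pow]
        exact this
      · rw [e1, map_pow, e2]
        exact mul_le_mul_of_nonneg_right c2.2 (apply_nonneg v _)
  have h3 := (W_mono ((I_finite ⟨p1, p2, p3⟩).union k1) hsub).trans
    ((W_union (I_finite ⟨p1, p2, p3⟩) k1).trans (add_le_add_right k2 _))
  have e3 : (((n - 1 : ℕ) : ℝ)) = (n : ℝ) - 1 := by
    push_cast [Nat.cast_sub hn]
    ring
  rw [e3] at h3
  linarith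

end Pool.Agent.V8H8.AB
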