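import Pool.Agent.V8H8.AB.Near

/-!
# The multiplication by `2 + i` on the curve with complex multiplication, modulo automorphisms
-/

set_option autoImplicit false

namespace Pool.Agent.V8H8.AB

open NumberField Height IsDedekindDomain

variable {K : Type} [Field K] [NumberField K]

/-- the map `t ↦ t ((t + β) / (1 + β t)) ^ 4` -/
def bb (β : K) (p : K × K) : K × K :=
  (p.1 * (p.1 + β * p.2) ^ 4, p.2 * (p.2 + β * p.1) ^ 4)

/-- the conditions on `β` and `γ` -/
structure Par (β γ : K) : Prop where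
  h1 : 2 * γ = 1 + 4 * β - β ^ 4
  h2 : γ ^ 2 + 2 = 1 + 4 * β - β ^ 4 + 6 * β ^ 2 - 4 * β ^ 3
  h3 : β ≠ 0
  h4 : 1 - β ^ 2 ≠ 0
  h5 : γ ≠ 0

omit [NumberField K] in
lemma bb_diff {β γ : K} (h : Par β γ) (p : K × K) :
    (bb β p).2 - (bb β p).1 = (p.2 - p.1) * (p.1 ^ 2 + γ * p.1 * p.2 + p.2 ^ 2) ^ 2 := by
  unfold bb
  simp only
  linear_combination (-(p.1 * p.2 ^ 4 - p.1 ^ 4 * p.2) +
    (p.1 ^ 2 * p.2 ^ 3 - p.1 ^ 3 * p.2 ^ 2)) * h.h1 -
    (p.1 ^ 2 * p.2 ^ 3 - p.1 ^ 3 * p.2 ^ 2) * h.h2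

open MvPolynomial in
lemma bb_upper (β : K) : ∃ C : ℝ, ∀ p : K × K, hh (bb β p) ≤ C + 5 * hh p := by
  set P : Fin 2 → MvPolynomial (Fin 2) K :=
    ![X 0 * (X 0 + C β * X 1) ^ 4, X 1 * (X 1 + C β * X 0) ^ 4] with hP
  have hom : ∀ i, (P i).IsHomogeneous 5 := by
    intro i
    fin_cases i
    · have h := (isHomogeneous_X K (0 : Fin 2)).mul ((((isHomogeneous_X K (0 : Fin 2)).add
        ((isHomogeneous_C (Fin 2) β).mul (isHomogeneous_X K (1 : Fin 2))))).pow 4)
      exact h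
    · have h := (isHomogeneous_X K (1 : Fin 2)).mul ((((isHomogeneous_X K (1 : Fin 2)).add
        ((isHomogeneous_C (Fin 2) β).mul (isHomogeneous_X K (0 : Fin 2))))).pow 4)
      exact h
  obtain ⟨C, hC⟩ := logHeight_eval_le' hom
  refine ⟨C, fun p => ?_⟩
  have hz : (fun j => eval ![p.1, p.2] (P j)) = ![(bb β p).1, (bb β p).2] := by
    funext j
    fin_cases j <;> simp [hP, bb]
  have h1 := hC ![p.1, p.2]
  rw [hz] at h1
  unfold hh
  exact_mod_cast h1

lemma lin_upper (a b c d : K) : ∃ C : ℝ, 0 ≤ C ∧ ∀ p : K × K,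
    hh (a * p.1 + b * p.2, c * p.1 + d * p.2) ≤ hh p + C := by
  refine ⟨|totalWeight K * Real.log (Nat.card (Fin 2)) +
    logHeight (fun ij : Fin 2 × Fin 2 => (![![a, b], ![c, d]] : Fin 2 → Fin 2 → K) ij.1 ij.2)|,
    abs_nonneg _, fun p => ?_⟩
  have h := logHeight_linearMap_apply_le
    (fun ij : Fin 2 × Fin 2 => (![![a, b], ![c, d]] : Fin 2 → Fin 2 → K) ij.1 ij.2) ![p.1, p.2]
  have e : (fun j : Fin 2 => ∑ i : Fin 2, (![![a, b], ![c, d]] : Fin 2 → Fin 2 → K) j i *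
      (![p.1, p.2] : Fin 2 → K) i) = ![a * p.1 + b * p.2, c * p.1 + d * p.2] := by
    funext j
    fin_cases j <;> simp
  simp only [e] at h
  have h2 := le_abs_self (totalWeight K * Real.log (Nat.card (Fin 2)) +
    logHeight (fun ij : Fin 2 × Fin 2 => (![![a, b], ![c, d]] : Fin 2 → Fin 2 → K) ij.1 ij.2))
  unfold hh
  linarith

lemma hh_smul {c : K} (hc : c ≠ 0) (p : K × K) : hh (c * p.1, c * p.2) = hh p := by
  unfold hh
  have : (![c * p.1, c * p.2] : Fin 2 → K) = c • ![p.1, p.2] := by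
    funext i
    fin_cases i <;> simp
  simp only [this]
  exact logHeight_smul_eq_logHeight _ hc

open MvPolynomial in
lemma bb_lower {β : K} (hβ : 1 - β ^ 2 ≠ 0) : ∃ C : ℝ, ∀ p : K × K, C + 5 * hh p ≤ hh (bb β p) := by
  set P : Fin 2 → MvPolynomial (Fin 2) K :=
    ![(X 0 - C β * X 1) * X 0 ^ 4, (X 1 - C β * X 0) * X 1 ^ 4] with hP
  set q : Fin 2 × Fin 2 → MvPolynomial (Fin 2) K := fun kj =>
    (![![X 0 ^ 4 + C β * (X 1 * X 0 ^ 3) + C (β ^ 2) * (X 1 ^ 2 * X 0 ^ 2) +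
          C (β ^ 3) * (X 1 ^ 3 * X 0) + C (β ^ 4) * X 1 ^ 4 + C (β ^ 6 / (1 - β ^ 2)) * X 1 ^ 4,
          C (β ^ 5 / (1 - β ^ 2)) * X 0 ^ 4],
       ![C (β ^ 5 / (1 - β ^ 2)) * X 1 ^ 4,
        X 1 ^ 4 + C β * (X 0 * X 1 ^ 3) + C (β ^ 2) * (X 0 ^ 2 * X 1 ^ 2) +
          C (β ^ 3) * (X 0 ^ 3 * X 1) + C (β ^ 4) * X 0 ^ 4 + C (β ^ 6 / (1 - β ^ 2)) * X 0 ^ 4]] :
          Fin 2 → Fin 2 → MvPolynomial (Fin 2) K) kj.1 kj.2 with hq
  have hx := isHomogeneous_X K (0 : Fin 2)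
  have hy := isHomogeneous_X K (1 : Fin 2)
  have hc := fun c : K => isHomogeneous_C (Fin 2) c
  have homq : ∀ kj, (q kj).IsHomogeneous 4 := by
    rintro ⟨k, j⟩
    fin_cases k <;> fin_cases j
    · exact (((((hx.pow 4).add ((hc _).mul (hy.mul (hx.pow 3)))).add
        ((hc _).mul ((hy.pow 2).mul (hx.pow 2)))).add ((hc _).mul ((hy.pow 3).mul hx))).add
        ((hc _).mul (hy.pow 4))).add ((hc _).mul (hy.pow 4))
    · exact (hc _).mul (hx.pow 4)
    · exact (hc _).mul (hy.pow 4)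
    · exact (((((hy.pow 4).add ((hc _).mul (hx.mul (hy.pow 3)))).add
        ((hc _).mul ((hx.pow 2).mul (hy.pow 2)))).add ((hc _).mul ((hx.pow 3).mul hy))).add
        ((hc _).mul (hx.pow 4))).add ((hc _).mul (hx.pow 4))
  obtain ⟨C1, hC1⟩ := logHeight_eval_ge' (N := 5) homq
  obtain ⟨C2, hC2, h2⟩ := lin_upper (1 / (1 - β ^ 2)) (-β / (1 - β ^ 2)) (-β / (1 - β ^ 2))
    (1 / (1 - β ^ 2))
  refine ⟨C1 - 5 * C2, fun p => ?_⟩
  set u : K := p.1 + β * p.2 with hu
  set w : K := p.2 + β * p.1 with hw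
  have h3 := hC1 P (x := ![u, w]) (by
    intro k
    fin_cases k
    · simp [hq, hP, Fin.sum_univ_two]
      field_simp
      ring
    · simp [hq, hP, Fin.sum_univ_two]
      field_simp
      ring)
  have hz : (fun j => eval ![u, w] (P j)) =
      ![(1 - β ^ 2) * (bb β p).1, (1 - β ^ 2) * (bb β p).2] := by
    funext j
    fin_cases j
    · simp only [hP, Fin.zero_eta, Matrix.cons_val_zero, map_mul, map_sub, map_pow, eval_X, eval_C,
        Matrix.cons_val_one]
      simp only [hu, hw, bb]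
      ring
    · simp only [hP, Fin.mk_one, Matrix.cons_val_zero, map_mul, map_sub, map_pow, eval_X, eval_C,
        Matrix.cons_val_one]
      simp only [hu, hw, bb]
      ring
  rw [hz] at h3
  have h4 := hh_smul hβ (bb β p)
  have h5 := h2 (u, w)
  have h6 : ((1 / (1 - β ^ 2)) * (u, w).1 + (-β / (1 - β ^ 2)) * (u, w).2,
      (-β / (1 - β ^ 2)) * (u, w).1 + (1 / (1 - β ^ 2)) * (u, w).2) = p := by
    ext
    · simp only [hu, hw]
      field_simp
      ring
    · simp only [hu, hw]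
      field_simp
      ring
  rw [h6] at h5
  unfold hh at h4 h5 ⊢
  simp only at h5 h4
  push_cast at h3
  linarith

open MvPolynomial in
theorem good_bb {β γ : K} (hp : Par β γ) : Good 5 (bb β : K × K → K × K) := by
  classical
  obtain ⟨C1, hC1⟩ := bb_upper (K := K) β
  obtain ⟨C2, hC2⟩ := bb_lower (K := K) hp.h4
  have hx := isHomogeneous_X K (0 : Fin 2)
  have hy := isHomogeneous_X K (1 : Fin 2)
  have hc := fun c : K => isHomogeneous_C (Fin 2) c
  obtain ⟨C3, hC3, h3⟩ := form_count 1 (X 0 + C β * X 1 : MvPolynomial (Fin 2) K)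
    (hx.add ((hc β).mul hy))
  obtain ⟨C4, hC4, h4⟩ := form_count 1 (X 1 + C β * X 0 : MvPolynomial (Fin 2) K)
    (hy.add ((hc β).mul hx))
  obtain ⟨C5, hC5, h5⟩ := form_count 2 (X 0 ^ 2 + C γ * (X 0 * X 1) + X 1 ^ 2 : MvPolynomial (Fin 2) K)
    (((hx.pow 2).add ((hc γ).mul (hx.mul hy))).add (hy.pow 2))
  -- the finitely many ratios with degenerate image
  have hfin : {t : K | t + β = 0 ∨ 1 + β * t = 0 ∨ t ^ 2 + γ * t + 1 = 0}.Finite := by
    have k1 : (Polynomial.X + Polynomial.C β : Polynomial K) ≠ 0 := Polynomial.X_add_C_ne_zero β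
    have k2 : (1 + Polynomial.C β * Polynomial.X : Polynomial K) ≠ 0 := by
      intro h
      have := congrArg (Polynomial.eval 0) h
      simp at this
    have k3 : (Polynomial.X ^ 2 + Polynomial.C γ * Polynomial.X + 1 : Polynomial K) ≠ 0 := by
      intro h
      have := congrArg (Polynomial.eval 0) h
      simp at this
    refine (((Polynomial.finite_setOfPred_isRoot k1).union
      (Polynomial.finite_setOfPred_isRoot k2)).union
      (Polynomial.finite_setOfPred_isRoot k3)).subset ?_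
    rintro t (h | h | h)
    · left; left
      simpa [Polynomial.IsRoot] using h
    · left; right
      simpa [Polynomial.IsRoot] using h
    · right
      simpa [Polynomial.IsRoot] using h
  obtain ⟨C6, hC6, h6⟩ := hh_bdd _ hfin
  have hbad1 := finite_ne_one hp.h3
  have hbad2 := finite_ne_one hp.h5
  set Bad : Set (FinitePlace K) := {v | v β ≠ 1} ∪ {v | v γ ≠ 1} with hBad
  have hbad : Bad.Finite := hbad1.union hbad2
  have hWn := W_nonneg Bad
  refine ⟨|C1| + |C2| + C3 + C4 + C5 + C6 + W Bad, by positivity, fun p hv => ?_⟩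
  have hIp := I_finite hv
  obtain ⟨p1, p2, p3⟩ := hv
  have r3 := abs_nonneg C1
  have r4 := abs_nonneg C2
  by_cases hd : p.1 + β * p.2 = 0 ∨ p.2 + β * p.1 = 0 ∨ p.1 ^ 2 + γ * (p.1 * p.2) + p.2 ^ 2 = 0
  · left
    have h7 := h6 p (by
      rcases hd with h | h | h
      · left
        field_simp
        linear_combination h
      · right; left
        field_simp
        linear_combination h
      · right; right
        field_simp
        linear_combination h)
    linarith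
  right
  push Not at hd
  obtain ⟨d1, d2, d3⟩ := hd
  have e1 : eval ![p.1, p.2] (X 0 + C β * X 1 : MvPolynomial (Fin 2) K) = p.1 + β * p.2 := by simp
  have e2 : eval ![p.1, p.2] (X 1 + C β * X 0 : MvPolynomial (Fin 2) K) = p.2 + β * p.1 := by simp
  have e3 : eval ![p.1, p.2] (X 0 ^ 2 + C γ * (X 0 * X 1) + X 1 ^ 2 : MvPolynomial (Fin 2) K) =
      p.1 ^ 2 + γ * (p.1 * p.2) + p.2 ^ 2 := by simp
  have hdiff : (bb β p).2 - (bb β p).1 = (p.2 - p.1) * (p.1 ^ 2 + γ * (p.1 * p.2) + p.2 ^ 2) ^ 2 := by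
    rw [bb_diff hp]
    ring
  have hval : Valid (bb β p) := by
    refine ⟨mul_ne_zero p1 (pow_ne_zero _ d1), mul_ne_zero p2 (pow_ne_zero _ d2), ?_⟩
    rw [hdiff]
    exact mul_ne_zero p3 (pow_ne_zero _ d3)
  have q1 := hC1 p
  have q2 := hC2 p
  have r1 := le_abs_self C1
  have r2 := neg_abs_le C2
  push_cast
  refine ⟨hval, by linarith, by linarith, ?_⟩
  obtain ⟨k1, k2⟩ := h3 p (by rw [e1]; exact d1)
  obtain ⟨k3, k4⟩ := h4 p (by rw [e2]; exact d2)
  obtain ⟨k5, k6⟩ := h5 p (by rw [e3]; exact d3)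
  rw [e1] at k1 k2
  rw [e2] at k3 k4
  rw [e3] at k5 k6
  simp only [pow_one] at k1 k2 k3 k4
  have hsub : I (bb β p) ⊆ ((I p ∪ {v : FinitePlace K | v (p.1 + β * p.2) < v p.1 ∨
      v (p.1 + β * p.2) < v p.2}) ∪ ({v : FinitePlace K | v (p.2 + β * p.1) < v p.1 ∨
      v (p.2 + β * p.1) < v p.2} ∪
      {v : FinitePlace K | v (p.1 ^ 2 + γ * (p.1 * p.2) + p.2 ^ 2) < v p.1 ^ 2 ∨
        v (p.1 ^ 2 + γ * (p.1 * p.2) + p.2 ^ 2) < v p.2 ^ 2})) ∪ Bad := by
    intro v hv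
    by_contra hcon
    simp only [Set.mem_union, not_or] at hcon
    obtain ⟨⟨⟨c1, c2⟩, c3, c4⟩, c5⟩ := hcon
    simp only [I, Set.mem_ofPred_eq, not_not] at c1
    simp only [Set.mem_ofPred_eq, not_or, not_lt] at c2 c3 c4
    have hbb : v β = 1 ∧ v γ = 1 := by
      constructor
      · by_contra hc
        exact c5 (Or.inl hc)
      · by_contra hc
        exact c5 (Or.inr hc)
    obtain ⟨b1, b2⟩ := hbb
    have u1 : v (p.1 + β * p.2) = v p.2 := by
      apply le_antisymm _ c2.2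
      have := FinitePlace.add_le v p.1 (β * p.2)
      rw [map_mul, b1, one_mul, c1.1, max_self] at this
      exact this
    have u2 : v (p.2 + β * p.1) = v p.2 := by
      apply le_antisymm _ c3.2
      have := FinitePlace.add_le v p.2 (β * p.1)
      rw [map_mul, b1, one_mul, c1.1, max_self] at this
      exact this
    have u3 : v (p.1 ^ 2 + γ * (p.1 * p.2) + p.2 ^ 2) = v p.2 ^ 2 := by
      apply le_antisymm _ c4.2
      have i1 := FinitePlace.add_le v (p.1 ^ 2 + γ * (p.1 * p.2)) (p.2 ^ 2)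
      have i2 := FinitePlace.add_le v (p.1 ^ 2) (γ * (p.1 * p.2))
      simp only [map_mul, map_pow, b2, one_mul, c1.1] at i1 i2
      have i3 : v p.2 * v p.2 = v p.2 ^ 2 := by ring
      rw [i3, max_self] at i2
      exact i1.trans (max_le i2 le_rfl)
    apply hv
    refine ⟨?_, ?_⟩
    · show v (p.1 * (p.1 + β * p.2) ^ 4) = v (p.2 * (p.2 + β * p.1) ^ 4)
      rw [map_mul, map_mul, map_pow, map_pow, u1, u2, c1.1]
    · rw [hdiff]
      show v ((p.2 - p.1) * (p.1 ^ 2 + γ * (p.1 * p.2) + p.2 ^ 2) ^ 2) =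
        v (p.2 * (p.2 + β * p.1) ^ 4)
      rw [map_mul, map_mul, map_pow, map_pow, u2, u3, c1.2]
      ring
  have s1 := W_union hIp k1
  have s2 := W_union k3 k5
  have s3 := W_union (hIp.union k1) (k3.union k5)
  have s4 := W_union ((hIp.union k1).union (k3.union k5)) hbad
  have s5 := W_mono (((hIp.union k1).union (k3.union k5)).union hbad) hsub
  push_cast at k2 k4 k6
  linarith

end Pool.Agent.V8H8.AB
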