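import Pool.Agent.V8H8.AB.Near

/-!
# Many images of one point
-/

set_option autoImplicit false

namespace Pool.Agent.V8H8.AB

open NumberField Height IsDedekindDomain

variable {K : Type} [Field K] [NumberField K]

section
open Polynomial

/-- two of the maps agree at finitely many ratios only -/
lemma agree_finite (a b a' b' : ℕ) (ha : 1 ≤ a) (hb : 1 ≤ b) (ha' : 1 ≤ a') (hb' : 1 ≤ b')
    (hne : (a, b) ≠ (a', b')) :
    {t : K | be K a' b' * al K a b * (t ^ a * (1 - t) ^ b) =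
      be K a b * al K a' b' * (t ^ a' * (1 - t) ^ b')}.Finite := by
  set c := be K a' b' * al K a b with hc
  set c' := be K a b * al K a' b' with hc'
  have c0 : c ≠ 0 := mul_ne_zero (be_ne ha' hb') (al_ne ha)
  have c0' : c' ≠ 0 := mul_ne_zero (be_ne ha hb) (al_ne ha')
  set P : K[X] := C c * (X ^ a * (1 - X) ^ b) - C c' * (X ^ a' * (1 - X) ^ b') with hP
  have hPne : P ≠ 0 := by
    intro h0
    have hev : ∀ t : K, c * (t ^ a * (1 - t) ^ b) = c' * (t ^ a' * (1 - t) ^ b') := by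
      intro t
      have h1 : P.eval t = 0 := by rw [h0, eval_zero]
      simp only [hP, eval_sub, eval_mul, eval_C, eval_pow, eval_X, eval_one] at h1
      exact sub_eq_zero.1 h1
    have hpoly : C c * (X ^ a * (1 - X) ^ b) = C c' * (X ^ a' * (1 - X) ^ b') := sub_eq_zero.1 h0
    have hX : (X : K[X]) ≠ 0 := X_ne_zero
    have h1X : (1 - X : K[X]) ≠ 0 := by
      rw [one_sub_X]
      exact neg_ne_zero.2 (X_sub_C_ne_zero 1)
    have haa : a = a' := by
      rcases lt_trichotomy a a' with h | h | h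
      · exfalso
        have e : (X : K[X]) ^ a * (C c * (1 - X) ^ b) = X ^ a * (C c' * X ^ (a' - a) * (1 - X) ^ b') := by
          have : (X : K[X]) ^ a' = X ^ a * X ^ (a' - a) := by
            rw [← pow_add]
            congr 1
            omega
          rw [this] at hpoly
          linear_combination hpoly
        have e2 := mul_left_cancel₀ (pow_ne_zero a hX) e
        have e3 := congrArg (eval 0) e2
        simp only [eval_mul, eval_C, eval_pow, eval_sub, eval_one, eval_X, sub_zero, one_pow, mul_one,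
          zero_pow (by omega : a' - a ≠ 0), mul_zero] at e3
        exact c0 e3
      · exact h
      · exfalso
        have e : (X : K[X]) ^ a' * (C c * X ^ (a - a') * (1 - X) ^ b) = X ^ a' * (C c' * (1 - X) ^ b') := by
          have : (X : K[X]) ^ a = X ^ a' * X ^ (a - a') := by
            rw [← pow_add]
            congr 1
            omega
          rw [this] at hpoly
          linear_combination hpoly
        have e2 := mul_left_cancel₀ (pow_ne_zero a' hX) e
        have e3 := congrArg (eval 0) e2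
        simp only [eval_mul, eval_C, eval_pow, eval_sub, eval_one, eval_X, sub_zero, one_pow, mul_one,
          zero_pow (by omega : a - a' ≠ 0), mul_zero] at e3
        exact c0' e3.symm
    have hbb : b = b' := by
      rcases lt_trichotomy b b' with h | h | h
      · exfalso
        have e : (1 - X : K[X]) ^ b * (C c * X ^ a) = (1 - X) ^ b * (C c' * X ^ a' * (1 - X) ^ (b' - b)) := by
          have : (1 - X : K[X]) ^ b' = (1 - X) ^ b * (1 - X) ^ (b' - b) := by
            rw [← pow_add]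
            congr 1
            omega
          rw [this] at hpoly
          linear_combination hpoly
        have e2 := mul_left_cancel₀ (pow_ne_zero b h1X) e
        have e3 := congrArg (eval 1) e2
        simp only [eval_mul, eval_C, eval_pow, eval_sub, eval_one, eval_X, sub_self, one_pow, mul_one,
          zero_pow (by omega : b' - b ≠ 0), mul_zero] at e3
        exact c0 e3
      · exact h
      · exfalso
        have e : (1 - X : K[X]) ^ b' * (C c * X ^ a * (1 - X) ^ (b - b')) = (1 - X) ^ b' * (C c' * X ^ a') := by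
          have : (1 - X : K[X]) ^ b = (1 - X) ^ b' * (1 - X) ^ (b - b') := by
            rw [← pow_add]
            congr 1
            omega
          rw [this] at hpoly
          linear_combination hpoly
        have e2 := mul_left_cancel₀ (pow_ne_zero b' h1X) e
        have e3 := congrArg (eval 1) e2
        simp only [eval_mul, eval_C, eval_pow, eval_sub, eval_one, eval_X, sub_self, one_pow, mul_one,
          zero_pow (by omega : b - b' ≠ 0), mul_zero] at e3
        exact c0' e3.symm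
    exact hne (by rw [haa, hbb])
  refine (finite_setOfPred_isRoot hPne).subset fun t ht => ?_
  simp only [Set.mem_ofPred_eq] at ht ⊢
  simp only [hP, IsRoot, eval_sub, eval_mul, eval_C, eval_pow, eval_X, eval_one]
  exact sub_eq_zero.2 ht

end

/-- the ratio of the image -/
lemma bm_ratio (a b : ℕ) (p : K × K) (h2 : p.2 ≠ 0) :
    (bm a b p).1 / (bm a b p).2 = al K a b * ((p.1 / p.2) ^ a * (1 - p.1 / p.2) ^ b) / be K a b := by
  have e : 1 - p.1 / p.2 = (p.2 - p.1) / p.2 := by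
    field_simp
  rw [e, div_pow, div_pow]
  unfold bm
  simp only [pow_add]
  by_cases hb : be K a b = 0
  · simp [hb]
  · field_simp

/-- the images of a point of large height with small radical -/
theorem many (q : ℕ) (hq : 1 ≤ q) (η : ℝ) (hη : 0 < η)
    (h : ∀ L : ℝ, ∃ p : K × K, Valid p ∧ L ≤ hh p ∧ W (I p) ≤ (1 - η) * hh p)
    (k : ℕ) (hk : 1 ≤ k) (ε : ℝ) (hε : 0 < ε) (hεk : ε * (2 * (q + 1) * k) ≤ η / 2) (B L E1 : ℝ)
    (hE1 : 0 ≤ E1) :
    ∃ s : ℝ, L ≤ s ∧ ∃ F : Finset (K × K), F.card = k ^ 2 ∧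
      (∀ u ∈ F, Valid u ∧ s + E1 ≤ hh u ∧ hh u + E1 ≤ (1 + 1 / q) * s ∧
        (1 + ε) * W (I u) + B ≤ hh u) ∧
      ∀ u ∈ F, ∀ u' ∈ F, u.1 / u.2 = u'.1 / u'.2 → u = u' := by
  classical
  have hq1 : (1 : ℝ) ≤ q := by exact_mod_cast hq
  have hk1 : (1 : ℝ) ≤ k := by exact_mod_cast hk
  set J : Finset (ℕ × ℕ) := Finset.Icc (q * k + 1) (q * k + k) ×ˢ Finset.Icc (q * k + 1) (q * k + k)
    with hJ
  have hJcard : J.card = k ^ 2 := by
    rw [hJ, Finset.card_product, Nat.card_Icc]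
    have : q * k + k + 1 - (q * k + 1) = k := by omega
    rw [this]
    ring
  have hJmem : ∀ i ∈ J, 1 ≤ i.1 ∧ 1 ≤ i.2 ∧ 2 * q * k + 2 ≤ i.1 + i.2 ∧ i.1 + i.2 ≤ 2 * (q + 1) * k := by
    intro i hi
    rw [hJ, Finset.mem_product, Finset.mem_Icc, Finset.mem_Icc] at hi
    obtain ⟨⟨h1, h2⟩, h3, h4⟩ := hi
    have e : 2 * q * k = q * k + q * k := by ring
    have e' : 2 * (q + 1) * k = q * k + q * k + k + k := by ring
    omega
  -- constants of the maps
  have hgood : ∀ i : ℕ × ℕ, ∃ C : ℝ, 0 ≤ C ∧ (1 ≤ i.1 → 1 ≤ i.2 → ∀ p : K × K, Valid p →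
    hh p ≤ C ∨ (Valid (bm i.1 i.2 p) ∧ ((i.1 + i.2 : ℕ) : ℝ) * hh p - C ≤ hh (bm i.1 i.2 p) ∧
      hh (bm i.1 i.2 p) ≤ ((i.1 + i.2 : ℕ) : ℝ) * hh p + C ∧
    W (I (bm i.1 i.2 p)) ≤ W (I p) + (((i.1 + i.2 : ℕ) : ℝ) - 1) * hh p + C)) := by
    intro i
    by_cases hi : 1 ≤ i.1 ∧ 1 ≤ i.2
    · obtain ⟨C, hC, h⟩ := good_bm (K := K) i.1 i.2 hi.1 hi.2
      exact ⟨C, hC, fun _ _ => h⟩
    · exact ⟨0, le_rfl, fun h1 h2 => absurd ⟨h1, h2⟩ hi⟩
  choose Cn hCn0 hCn using hgood
  -- the ratios at which two maps agree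
  set Bs : Set K := ⋃ i ∈ J, ⋃ j ∈ J, {t : K | i ≠ j ∧ be K j.1 j.2 * al K i.1 i.2 *
    (t ^ i.1 * (1 - t) ^ i.2) = be K i.1 i.2 * al K j.1 j.2 * (t ^ j.1 * (1 - t) ^ j.2)} with hBs
  have hBfin : Bs.Finite := by
    refine Set.Finite.biUnion (Finset.finite_toSet J) fun i hi => ?_
    refine Set.Finite.biUnion (Finset.finite_toSet J) fun j hj => ?_
    obtain ⟨i1, i2, -, -⟩ := hJmem i hi
    obtain ⟨j1, j2, -, -⟩ := hJmem j hj
    by_cases hij : i = j
    · simp [hij]
    · exact (agree_finite i.1 i.2 j.1 j.2 i1 i2 j1 j2 (fun h => hij h)).subset fun t ht => ht.2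
  obtain ⟨C2, hC20, hC2⟩ := hh_bdd Bs hBfin
  set E : ℝ := ∑ i ∈ J, Cn i with hE
  have hE0 : 0 ≤ E := Finset.sum_nonneg fun i _ => hCn0 i
  have hCE : ∀ i ∈ J, Cn i ≤ E := fun i hi => Finset.single_le_sum (f := Cn) (fun j _ => hCn0 j) hi
  obtain ⟨p, hp, hLp, hWp⟩ := h (C2 + 1 + E + (|L| + E + E1) + (E + E1) +
    2 * ((2 + ε) * E + |B|) / η)
  have hB0 : 0 ≤ 2 * ((2 + ε) * E + |B|) / η := by positivity
  have hLa := le_abs_self L
  have hLa0 := abs_nonneg L
  have hh0 := hh_nonneg p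
  have a1 : C2 < hh p := by linarith
  have a2 : E < hh p := by linarith
  have a3 : |L| + E + E1 ≤ hh p := by linarith
  have a4 : E + E1 ≤ hh p := by linarith
  have a5 : 2 * ((2 + ε) * E + |B|) / η ≤ hh p := by linarith
  rw [div_le_iff₀ hη] at a5
  set s : ℝ := (2 * q * k + 2) * hh p - E - E1 with hs
  have hqk : (1 : ℝ) ≤ q * k := by
    calc (1 : ℝ) = 1 * 1 := (mul_one _).symm
      _ ≤ q * k := mul_le_mul hq1 hk1 zero_le_one (by linarith)
  have hsL : L ≤ s := by
    have : 1 * hh p ≤ (2 * q * k + 2) * hh p := mul_le_mul_of_nonneg_right (by nlinarith) hh0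
    rw [hs]
    linarith
  -- properties of the images
  have himg : ∀ i ∈ J, Valid (bm i.1 i.2 p) ∧ s + E1 ≤ hh (bm i.1 i.2 p) ∧
      hh (bm i.1 i.2 p) + E1 ≤ (1 + 1 / q) * s ∧
        (1 + ε) * W (I (bm i.1 i.2 p)) + B ≤ hh (bm i.1 i.2 p) := by
    intro i hi
    obtain ⟨i1, i2, i3, i4⟩ := hJmem i hi
    have hci := hCE i hi
    rcases hCn i i1 i2 p hp with hc | ⟨k1, k2, k3, k4⟩
    · linarith
    have i3' : ((2 * q * k + 2 : ℕ) : ℝ) ≤ ((i.1 + i.2 : ℕ) : ℝ) := by exact_mod_cast i3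
    have i4' : ((i.1 + i.2 : ℕ) : ℝ) ≤ ((2 * (q + 1) * k : ℕ) : ℝ) := by exact_mod_cast i4
    push_cast at i3' i4' k2 k3 k4
    have m1 := mul_le_mul_of_nonneg_right i3' hh0
    have m2 := mul_le_mul_of_nonneg_right i4' hh0
    refine ⟨k1, ?_, ?_, ?_⟩
    · rw [hs]
      linarith
    · have e1 : (1 + 1 / (q : ℝ)) * s = 2 * (q + 1) * k * hh p + (2 + 2 / q) * hh p -
          (1 + 1 / q) * (E + E1) := by
        rw [hs]
        field_simp
        ring
      rw [e1]
      have hq0 : (0 : ℝ) ≤ 1 / q := by positivity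
      have e2 : (2 + 2 / (q : ℝ)) * hh p = 2 * hh p + 2 * (1 / q * hh p) := by
        field_simp
      have e3 : (1 + 1 / (q : ℝ)) * (E + E1) = (E + E1) + 1 / q * (E + E1) := by ring
      have m3 := mul_le_mul_of_nonneg_left a4 hq0
      have m4 : 0 ≤ 1 / (q : ℝ) * hh p := by positivity
      rw [e2, e3]
      linarith
    · have w1 : W (I (bm i.1 i.2 p)) ≤ ((i.1 + i.2 : ℝ) - η) * hh p + E := by
        have : ((i.1 : ℝ) + i.2 - η) * hh p = (1 - η) * hh p + ((i.1 : ℝ) + i.2 - 1) * hh p := by ring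
        rw [this]
        linarith
      have w2 : (1 + ε) * W (I (bm i.1 i.2 p)) ≤ (1 + ε) * (((i.1 + i.2 : ℝ) - η) * hh p + E) :=
        mul_le_mul_of_nonneg_left w1 (by linarith)
      have w3 : ε * ((i.1 : ℝ) + i.2) ≤ η / 2 :=
        (mul_le_mul_of_nonneg_left i4' hε.le).trans hεk
      have w4 : ((i.1 : ℝ) + i.2) * hh p - (1 + ε) * (((i.1 + i.2 : ℝ) - η) * hh p) =
          (η + ε * η - ε * ((i.1 : ℝ) + i.2)) * hh p := by ring
      have w5 : η / 2 * hh p ≤ (η + ε * η - ε * ((i.1 : ℝ) + i.2)) * hh p := by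
        apply mul_le_mul_of_nonneg_right _ hh0
        have : 0 ≤ ε * η := by positivity
        linarith
      have hBa := le_abs_self B
      nlinarith
  have hinj : ∀ i ∈ J, ∀ j ∈ J, (bm i.1 i.2 p).1 / (bm i.1 i.2 p).2 =
      (bm j.1 j.2 p).1 / (bm j.1 j.2 p).2 → i = j := by
    intro i hi j hj hij
    by_contra hne
    obtain ⟨i1, i2, -, -⟩ := hJmem i hi
    obtain ⟨j1, j2, -, -⟩ := hJmem j hj
    have hmem : p.1 / p.2 ∈ Bs := by
      rw [hBs]
      refine Set.mem_biUnion (x := i) hi (Set.mem_biUnion (x := j) hj ⟨hne, ?_⟩)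
      rw [bm_ratio _ _ p hp.2.1, bm_ratio _ _ p hp.2.1] at hij
      have b1 := be_ne (K := K) i1 i2
      have b2 := be_ne (K := K) j1 j2
      rw [div_eq_div_iff b1 b2] at hij
      linear_combination hij
    have := hC2 p hmem
    linarith
  refine ⟨s, hsL, J.image fun i => bm i.1 i.2 p, ?_, ?_, ?_⟩
  · rw [Finset.card_image_of_injOn, hJcard]
    intro i hi j hj hij
    exact hinj i hi j hj (by simp only at hij; rw [hij])
  · intro u hu
    obtain ⟨i, hi, rfl⟩ := Finset.mem_image.1 hu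
    exact himg i hi
  · intro u hu u' hu' huu
    obtain ⟨i, hi, rfl⟩ := Finset.mem_image.1 hu
    obtain ⟨j, hj, rfl⟩ := Finset.mem_image.1 hu'
    rw [hinj i hi j hj huu]

end Pool.Agent.V8H8.AB
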