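import Pool.Agent.V8H8.AB.Places

/-!
# The abc inequality is decided near one cusp
-/

set_option autoImplicit false

namespace Pool.Agent.V8H8.AB

open NumberField Height IsDedekindDomain

variable {K : Type} [Field K] [NumberField K]

/-- the exchange of the last two coordinates of `(x, y - x, -y)` -/
def sw (p : K × K) : K × K := (p.1, p.1 - p.2)

lemma sw_upper : ∃ C : ℝ, 0 ≤ C ∧ ∀ p : K × K, hh (sw p) ≤ hh p + C := by
  refine ⟨|totalWeight K * Real.log (Nat.card (Fin 2)) +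
    logHeight (fun ij : Fin 2 × Fin 2 => (![![1, 0], ![1, -1]] : Fin 2 → Fin 2 → K) ij.1 ij.2)|,
    abs_nonneg _, fun p => ?_⟩
  have h := logHeight_linearMap_apply_le
    (fun ij : Fin 2 × Fin 2 => (![![1, 0], ![1, -1]] : Fin 2 → Fin 2 → K) ij.1 ij.2) ![p.1, p.2]
  have e : (fun j : Fin 2 => ∑ i : Fin 2, (![![1, 0], ![1, -1]] : Fin 2 → Fin 2 → K) j i *
      (![p.1, p.2] : Fin 2 → K) i) = ![(sw p).1, (sw p).2] := by
    funext j
    fin_cases j
    · simp [sw]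
    · simp [sw, sub_eq_add_neg]
  simp only [e] at h
  have h2 := le_abs_self (totalWeight K * Real.log (Nat.card (Fin 2)) +
    logHeight (fun ij : Fin 2 × Fin 2 => (![![1, 0], ![1, -1]] : Fin 2 → Fin 2 → K) ij.1 ij.2))
  unfold hh
  linarith

lemma I_sw (p : K × K) : I (sw p) = I p := by
  ext v
  unfold I sw
  simp only [Set.mem_ofPred_eq]
  have e1 : v (p.1 - p.2) = v (p.2 - p.1) := by
    rw [← map_neg_eq_map, neg_sub]
  have e2 : v (p.1 - p.2 - p.1) = v p.2 := by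
    rw [← map_neg_eq_map]
    congr 1
    ring
  rw [e1, e2]
  constructor
  · rintro h ⟨h1, h2⟩
    exact h ⟨by rw [h1, h2], h2.symm⟩
  · rintro h ⟨h1, h2⟩
    exact h ⟨by rw [h1, h2], h2.symm⟩

lemma good_sw : Good 1 (sw : K × K → K × K) := by
  obtain ⟨C, hC, h⟩ := sw_upper (K := K)
  refine ⟨C, hC, fun p hp => Or.inr ⟨⟨hp.1, ?_, ?_⟩, ?_, ?_, ?_⟩⟩
  · show p.1 - p.2 ≠ 0
    intro h0
    exact hp.2.2 (by rw [← neg_sub, h0, neg_zero])
  · show p.1 - p.2 - p.1 ≠ 0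
    intro h0
    apply hp.2.1
    have : p.1 - p.2 - p.1 = -p.2 := by ring
    rw [this, neg_eq_zero] at h0
    exact h0
  · have h1 := h (sw p)
    have e : sw (sw p) = p := by
      unfold sw
      ext
      · rfl
      · simp
    rw [e] at h1
    push_cast
    linarith
  · have h1 := h p
    push_cast
    linarith
  · rw [I_sw]
    push_cast
    linarith

/-- the map to one cusp: `t ↦ -16 t (1 - t) / (2 t - 1) ^ 4` -/
def oc (p : K × K) : K × K := bm 1 1 (sw (bm 1 1 p))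

lemma oc_fst (p : K × K) : (oc p).1 = -(16 * p.1 * (p.2 - p.1) * p.2 ^ 2) := by
  unfold oc sw bm al be
  push_cast
  ring

lemma oc_snd (p : K × K) : (oc p).2 = (2 * p.1 - p.2) ^ 4 := by
  unfold oc sw bm al be
  push_cast
  ring

lemma good_oc : Good 4 (oc : K × K → K × K) := by
  have h1 := (good_bm (K := K) 1 1 le_rfl le_rfl).comp good_sw (by norm_num) (by norm_num)
  have h2 := h1.comp (good_bm (K := K) 1 1 le_rfl le_rfl) (by norm_num) (by norm_num)
  exact h2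

/-- the map of degree `4 n` -/
def psi (n : ℕ) (p : K × K) : K × K := oc (pw n p)

lemma good_psi (n : ℕ) (hn : 1 ≤ n) : Good (4 * n) (psi n : K × K → K × K) :=
  (good_pw n hn).comp good_oc hn (by norm_num)

/-- all points are mapped near one cusp by one of finitely many maps -/
lemma near (S : Finset (AbsoluteValue K ℝ)) (hS : ∀ a ∈ S, TB a) {δ : ℝ} (hδ : 0 < δ) :
    ∃ M : ℕ, 1 ≤ M ∧ ∀ p : K × K, p.1 ≠ 0 → p.2 ≠ 0 → ∃ n : ℕ, 1 ≤ n ∧ n ≤ M ∧
      ∀ a ∈ S, a (psi n p).1 ≤ δ * a (psi n p).2 := by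
  classical
  have hr : ∃ r : ℝ, 0 < r ∧ ∀ a ∈ S, ∀ X Y : K,
      (a X ≤ r * a Y ∨ a Y ≤ r * a X ∨ a (Y - X) ≤ r * a Y ∨ a (Y - X) ≤ r * a X) →
      a (16 * X * (Y - X) * Y ^ 2) ≤ δ * a ((2 * X - Y) ^ 4) := by
    have h1 : ∀ a : AbsoluteValue K ℝ, ∃ r0 : ℝ, 0 < r0 ∧ ∀ r : ℝ, 0 < r → r ≤ r0 → ∀ X Y : K,
      (a X ≤ r * a Y ∨ a Y ≤ r * a X ∨ a (Y - X) ≤ r * a Y ∨ a (Y - X) ≤ r * a X) →
      a (16 * X * (Y - X) * Y ^ 2) ≤ δ * a ((2 * X - Y) ^ 4) := fun a => cusp_one a hδ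
    choose r0 hr0 h using h1
    have h2 : ∃ r : ℝ, 0 < r ∧ ∀ a ∈ S, r ≤ r0 a := by
      induction S using Finset.induction_on with
      | empty => exact ⟨1, one_pos, by simp⟩
      | insert b T hb ih =>
        obtain ⟨r, hr, hr'⟩ := ih (fun a ha => hS a (Finset.mem_insert_of_mem ha))
        refine ⟨min r (r0 b), lt_min hr (hr0 b), fun a ha => ?_⟩
        rcases Finset.mem_insert.1 ha with rfl | ha
        · exact min_le_right _ _
        · exact (min_le_left _ _).trans (hr' a ha)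
    obtain ⟨r, hr, hr'⟩ := h2
    exact ⟨r, hr, fun a ha X Y hXY => h a r hr (hr' a ha) X Y hXY⟩
  obtain ⟨r, hr, hr'⟩ := hr
  obtain ⟨M, hM, hpig⟩ := pig S hS hr
  refine ⟨M, hM, fun p p1 p2 => ?_⟩
  obtain ⟨n, hn1, hnM, hn⟩ := hpig
    (fun a => if a p.1 ≤ a p.2 then p.1 / p.2 else p.2 / p.1) (fun a _ => by
      have h1 : 0 < a p.1 := a.pos p1
      have h2 : 0 < a p.2 := a.pos p2
      by_cases h : a p.1 ≤ a p.2
      · rw [if_pos h, map_div₀, div_le_one h2]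
        exact h
      · rw [if_neg h, map_div₀, div_le_one h1]
        exact (not_le.1 h).le)
  refine ⟨n, hn1, hnM, fun a ha => ?_⟩
  have h1 : 0 < a p.1 := a.pos p1
  have h2 : 0 < a p.2 := a.pos p2
  have goal := hr' a ha (pw n p).1 (pw n p).2 (by
    show a (p.1 ^ n) ≤ r * a (p.2 ^ n) ∨ a (p.2 ^ n) ≤ r * a (p.1 ^ n) ∨
      a (p.2 ^ n - p.1 ^ n) ≤ r * a (p.2 ^ n) ∨ a (p.2 ^ n - p.1 ^ n) ≤ r * a (p.1 ^ n)
    have k := hn a ha
    by_cases h : a p.1 ≤ a p.2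
    · simp only [if_pos h] at k
      rcases k with k | k
      · left
        rw [map_div₀, div_pow, div_lt_iff₀ (pow_pos h2 n)] at k
        rw [map_pow, map_pow]
        exact k.le
      · right; right; left
        have e : p.2 ^ n - p.1 ^ n = (1 - (p.1 / p.2) ^ n) * p.2 ^ n := by
          rw [div_pow]
          field_simp
        rw [e, map_mul]
        exact mul_le_mul_of_nonneg_right k.le (a.nonneg _)
    · simp only [if_neg h] at k
      rcases k with k | k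
      · right; left
        rw [map_div₀, div_pow, div_lt_iff₀ (pow_pos h1 n)] at k
        rw [map_pow, map_pow]
        exact k.le
      · right; right; right
        have e : p.2 ^ n - p.1 ^ n = -((1 - (p.2 / p.1) ^ n) * p.1 ^ n) := by
          rw [div_pow]
          field_simp
          ring
        rw [e, a.map_neg, map_mul]
        exact mul_le_mul_of_nonneg_right k.le (a.nonneg _))
  show a (oc (pw n p)).1 ≤ δ * a (oc (pw n p)).2
  rw [oc_fst, oc_snd, a.map_neg]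
  exact goal

/-- an inequality `W (I p) ≥ (1 - η / (4 M)) h(p) - C` near the cusp implies one everywhere -/
theorem transfer (S : Finset (AbsoluteValue K ℝ)) (hS : ∀ a ∈ S, TB a) {δ : ℝ} (hδ : 0 < δ) :
    ∃ D : ℕ, 1 ≤ D ∧ ∀ η : ℝ, 0 ≤ η →
      (∃ C : ℝ, ∀ p : K × K, Valid p → (∀ a ∈ S, a p.1 ≤ δ * a p.2) →
        (1 - η / D) * hh p - C ≤ W (I p)) →
      ∃ C : ℝ, ∀ p : K × K, Valid p → (1 - η) * hh p - C ≤ W (I p) := by
  classical
  obtain ⟨M, hM, hnear⟩ := near S hS hδ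
  refine ⟨4 * M, by omega, fun η hη => ?_⟩
  rintro ⟨C, hC⟩
  have hgood : ∀ n : ℕ, ∃ C : ℝ, 0 ≤ C ∧ (1 ≤ n → ∀ p : K × K, Valid p →
    hh p ≤ C ∨ (Valid (psi n p) ∧ ((4 * n : ℕ) : ℝ) * hh p - C ≤ hh (psi n p) ∧
      hh (psi n p) ≤ ((4 * n : ℕ) : ℝ) * hh p + C ∧
    W (I (psi n p)) ≤ W (I p) + (((4 * n : ℕ) : ℝ) - 1) * hh p + C)) := by
    intro n
    by_cases hn : 1 ≤ n
    · obtain ⟨C, hC, h⟩ := good_psi (K := K) n hn
      exact ⟨C, hC, fun _ => h⟩
    · exact ⟨0, le_rfl, fun h => absurd h hn⟩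
  choose Cn hCn0 hCn using hgood
  set E : ℝ := ∑ n ∈ Finset.range (M + 1), Cn n with hE
  have hE0 : 0 ≤ E := Finset.sum_nonneg fun n _ => hCn0 n
  have hle : ∀ n ≤ M, Cn n ≤ E := fun n hn =>
    Finset.single_le_sum (f := Cn) (fun n _ => hCn0 n) (Finset.mem_range.2 (by omega))
  have hD0 : (0 : ℝ) < ((4 * M : ℕ) : ℝ) := by exact_mod_cast (by omega : 0 < 4 * M)
  have hθ : 0 ≤ η / ((4 * M : ℕ) : ℝ) := by positivity
  set κ : ℝ := η / ((4 * M : ℕ) : ℝ) with hκ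
  refine ⟨|C| + E + (1 + κ) * E + (1 + η) * E, fun p hp => ?_⟩
  obtain ⟨n, hn1, hnM, hn⟩ := hnear p hp.1 hp.2.1
  have hnE := hle n hnM
  have hW := W_nonneg (I p)
  have hh0 := hh_nonneg p
  have hCa := le_abs_self C
  have hCa0 := abs_nonneg C
  rcases hCn n hn1 p hp with h | ⟨h1, h2, h3, h4⟩
  · have h5 : (1 - η) * hh p ≤ (1 + η) * E := by
      have : (1 - η) * hh p ≤ 1 * hh p := mul_le_mul_of_nonneg_right (by linarith) hh0
      have h6 : E ≤ (1 + η) * E := le_mul_of_one_le_left hE0 (by linarith)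
      linarith
    have h7 : 0 ≤ (1 + κ) * E := by positivity
    linarith
  · have h5 := hC (psi n p) h1 hn
    have hn4 : ((4 * n : ℕ) : ℝ) ≤ ((4 * M : ℕ) : ℝ) := by exact_mod_cast (by omega : 4 * n ≤ 4 * M)
    have h6 : κ * ((4 * n : ℕ) : ℝ) ≤ η := by
      rw [hκ, div_mul_eq_mul_div, div_le_iff₀ hD0]
      exact mul_le_mul_of_nonneg_left hn4 hη
    have h7 : κ * hh (psi n p) ≤ η * hh p + κ * E := by
      calc κ * hh (psi n p) ≤ κ * (((4 * n : ℕ) : ℝ) * hh p + E) :=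
            mul_le_mul_of_nonneg_left (by linarith) hθ
        _ = κ * ((4 * n : ℕ) : ℝ) * hh p + κ * E := by ring
        _ ≤ η * hh p + κ * E := by
            have := mul_le_mul_of_nonneg_right h6 hh0
            linarith
    have h8 : 0 ≤ (1 + η) * E := by positivity
    have h9 : (1 - κ) * hh (psi n p) = hh (psi n p) - κ * hh (psi n p) := by ring
    rw [h9] at h5
    have e1 : (((4 * n : ℕ) : ℝ) - 1) * hh p = ((4 * n : ℕ) : ℝ) * hh p - hh p := by ring
    rw [e1] at h4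
    have e2 : (1 - η) * hh p = hh p - η * hh p := by ring
    rw [e2]
    have e3 : (1 + κ) * E = E + κ * E := by ring
    rw [e3]
    linarith

end Pool.Agent.V8H8.AB
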