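import Pool.Agent.V8H8.AB.Bel
import Pool.Agent.W858.SF.Comp

/-!
# Powers near `0` or `1` at several places, and the map to one cusp
-/

set_option autoImplicit false

namespace Pool.Agent.V8H8.AB

open NumberField Height IsDedekindDomain

variable {K : Type} [Field K] [NumberField K]

/-- the unit ball of the absolute value is totally bounded -/
def TB (a : AbsoluteValue K ℝ) : Prop := ∀ r : ℝ, 0 < r → ∃ (α : Type) (_ : Fintype α) (c : K → α),
  ∀ x y : K, a x ≤ 1 → a y ≤ 1 → c x = c y → a (x - y) < r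

omit [NumberField K] in
lemma TB_of_emb {L : Type} [NormedField L] [ProperSpace L] (φ : K →+* L) (a : AbsoluteValue K ℝ)
    (h : ∀ x, a x = ‖φ x‖) : TB a := by
  classical
  intro r hr
  obtain ⟨t, -, htf, ht⟩ := (isCompact_closedBall (0 : L) 1).finite_cover_balls (half_pos hr)
  have hex : ∀ x : K, ∃ z : L, a x ≤ 1 → z ∈ t ∧ dist (φ x) z < r / 2 := by
    intro x
    by_cases hx : a x ≤ 1
    · have h1 : φ x ∈ Metric.closedBall (0 : L) 1 := by
        rw [mem_closedBall_zero_iff, ← h]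
        exact hx
      obtain ⟨z, hz1, hz2⟩ := Set.mem_iUnion₂.1 (ht h1)
      exact ⟨z, fun _ => ⟨hz1, hz2⟩⟩
    · exact ⟨0, fun h => absurd h hx⟩
  choose z hz using hex
  have h0 : ∃ z0, z0 ∈ t := ⟨z 0, (hz 0 (by simp)).1⟩
  obtain ⟨z0, hz0⟩ := h0
  have : Fintype t := htf.fintype
  refine ⟨t, this, fun x => if hx : z x ∈ t then ⟨z x, hx⟩ else ⟨z0, hz0⟩, fun x y hx hy hxy => ?_⟩
  obtain ⟨k1, k2⟩ := hz x hx
  obtain ⟨k3, k4⟩ := hz y hy
  simp only [k1, k3, dif_pos, Subtype.mk.injEq] at hxy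
  rw [h, map_sub, ← dist_eq_norm]
  have h5 := dist_triangle_right (φ x) (φ y) (z x)
  rw [← hxy] at k4
  linarith

lemma TB_inf (w : InfinitePlace K) : TB w.1 := by
  refine TB_of_emb w.embedding w.1 fun x => ?_
  exact (InfinitePlace.norm_embedding_eq w x).symm

lemma proper (v : HeightOneSpectrum (𝓞 K)) : ProperSpace (v.adicCompletion K) := by
  refine (Valued.integer.properSpace_iff_completeSpace_and_isDiscreteValuationRing_integer_and_finite_residueField (K := v.adicCompletion K) (Γ₀ := WithZero (Multiplicative ℤ))).2 ⟨inferInstance, ?_, ?_⟩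
  · have h : IsDiscreteValuationRing (v.adicCompletionIntegers K) := inferInstance
    exact h
  · have h := Pool.Agent.W858.SF.finite_residue (L := K) v
    exact h

lemma TB_fin (v : FinitePlace K) : TB v.1 := by
  have := proper v.maximalIdeal
  refine TB_of_emb (FinitePlace.embedding v.maximalIdeal) v.1 fun x => ?_
  exact (FinitePlace.norm_embedding_eq v x).symm

omit [NumberField K] in
/-- some power of bounded exponent is near `0` or `1` at all places -/
lemma pig (S : Finset (AbsoluteValue K ℝ)) (hS : ∀ a ∈ S, TB a) {r : ℝ} (hr : 0 < r) :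
    ∃ M : ℕ, 1 ≤ M ∧ ∀ s : AbsoluteValue K ℝ → K, (∀ a ∈ S, a (s a) ≤ 1) →
      ∃ n : ℕ, 1 ≤ n ∧ n ≤ M ∧ ∀ a ∈ S, a (s a) ^ n < r ∨ a (1 - s a ^ n) < r := by
  classical
  have h1 : ∀ a : S, ∃ (α : Type) (_ : Fintype α) (c : K → α),
      ∀ x y : K, a.1 x ≤ 1 → a.1 y ≤ 1 → c x = c y → a.1 (x - y) < r ^ 2 :=
    fun a => hS a.1 a.2 (r ^ 2) (by positivity)
  choose α fα c hc using h1
  set m := Fintype.card (∀ a : S, α a) with hm
  refine ⟨2 ^ (m + 1), Nat.one_le_two_pow, fun s hs => ?_⟩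
  obtain ⟨k, l, hkl, hcol⟩ := Fintype.exists_ne_map_eq_of_card_lt
    (fun k : Fin (m + 1) => fun a : S => c a (s a.1 ^ (2 ^ (k : ℕ)))) (by simp [← hm])
  have key : ∀ k l : Fin (m + 1), k < l → (∀ a : S, c a (s a.1 ^ (2 ^ (k : ℕ))) =
      c a (s a.1 ^ (2 ^ (l : ℕ)))) → ∃ n : ℕ, 1 ≤ n ∧ n ≤ 2 ^ (m + 1) ∧
        ∀ a ∈ S, a (s a) ^ n < r ∨ a (1 - s a ^ n) < r := by
    intro k l hlt hcol
    have hlt' : (k : ℕ) < l := hlt
    have h2 : 2 * 2 ^ (k : ℕ) ≤ 2 ^ (l : ℕ) := by
      rw [← pow_succ']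
      exact Nat.pow_le_pow_right (by norm_num) hlt'
    have h3 : 1 ≤ 2 ^ (k : ℕ) := Nat.one_le_two_pow
    have h4 : 2 ^ (l : ℕ) ≤ 2 ^ (m + 1) := Nat.pow_le_pow_right (by norm_num) (by omega)
    refine ⟨2 ^ (l : ℕ) - 2 ^ (k : ℕ), by omega, by omega, fun a ha => ?_⟩
    have ha1 := hs a ha
    have ha0 : 0 ≤ a (s a) := a.nonneg _
    by_cases hsm : a (s a) ^ (2 ^ (k : ℕ)) < r
    · left
      exact (pow_le_pow_of_le_one ha0 ha1 (by omega)).trans_lt hsm
    · right
      push Not at hsm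
      have h5 := hc ⟨a, ha⟩ (s a ^ (2 ^ (k : ℕ))) (s a ^ (2 ^ (l : ℕ)))
        (by rw [map_pow]; exact pow_le_one₀ ha0 ha1) (by rw [map_pow]; exact pow_le_one₀ ha0 ha1)
        (hcol ⟨a, ha⟩)
      have h6 : s a ^ (2 ^ (k : ℕ)) - s a ^ (2 ^ (l : ℕ)) =
          s a ^ (2 ^ (k : ℕ)) * (1 - s a ^ (2 ^ (l : ℕ) - 2 ^ (k : ℕ))) := by
        rw [mul_sub, mul_one, ← pow_add]
        congr 2
        omega
      simp only at h5
      rw [h6, map_mul, map_pow] at h5
      by_contra hcon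
      push Not at hcon
      have : r * r ≤ a (s a) ^ (2 ^ (k : ℕ)) * a (1 - s a ^ (2 ^ (l : ℕ) - 2 ^ (k : ℕ))) :=
        mul_le_mul hsm hcon hr.le (pow_nonneg ha0 _)
      nlinarith
  rcases lt_or_gt_of_ne hkl with h | h
  · exact key k l h fun a => congrFun hcol a
  · exact key l k h fun a => (congrFun hcol a).symm

omit [NumberField K] in
/-- near the cusps the map to one cusp is small -/
lemma cusp_one [CharZero K] (a : AbsoluteValue K ℝ) {δ : ℝ} (hδ : 0 < δ) :
    ∃ r0 : ℝ, 0 < r0 ∧ ∀ r : ℝ, 0 < r → r ≤ r0 → ∀ X Y : K,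
      (a X ≤ r * a Y ∨ a Y ≤ r * a X ∨ a (Y - X) ≤ r * a Y ∨ a (Y - X) ≤ r * a X) →
      a (16 * X * (Y - X) * Y ^ 2) ≤ δ * a ((2 * X - Y) ^ 4) := by
  have h2 : 0 < a 2 := a.pos two_ne_zero
  have h2' : a 2 ≤ 2 := by
    have := a.add_le 1 1
    rw [a.map_one] at this
    have e : (1 : K) + 1 = 2 := by norm_num
    rw [e] at this
    linarith
  have h16 : a 16 ≤ 16 := by
    have e : (16 : K) = 2 ^ 4 := by norm_num
    rw [e, map_pow]
    calc a 2 ^ 4 ≤ 2 ^ 4 := pow_le_pow_left₀ h2.le h2' 4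
      _ = 16 := by norm_num
  set κ := a 2 with hκ
  refine ⟨min (1 / 4) (min (κ / 2) (min (δ / 1024) (δ * κ ^ 4 / 1024))), by positivity, ?_⟩
  intro r hr hr0 X Y h
  have r1 : r ≤ 1 / 4 := hr0.trans (min_le_left _ _)
  have r2 : r ≤ κ / 2 := hr0.trans ((min_le_right _ _).trans (min_le_left _ _))
  have r3 : r ≤ δ / 1024 := hr0.trans ((min_le_right _ _).trans ((min_le_right _ _).trans (min_le_left _ _)))
  have r4 : r ≤ δ * κ ^ 4 / 1024 :=
    hr0.trans ((min_le_right _ _).trans ((min_le_right _ _).trans (min_le_right _ _)))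
  have x0 := a.nonneg X
  have y0 := a.nonneg Y
  have d0 := a.nonneg (Y - X)
  have dXY : a (Y - X) ≤ a Y + a X := by
    have := a.add_le Y (-X)
    rw [← sub_eq_add_neg, a.map_neg] at this
    exact this
  have e1 : a (16 * X * (Y - X) * Y ^ 2) = a 16 * (a X * a (Y - X) * a Y ^ 2) := by
    rw [map_mul, map_mul, map_mul, map_pow]
    ring
  have e2 : a ((2 * X - Y) ^ 4) = a (2 * X - Y) ^ 4 := map_pow _ _ _
  rw [e1, e2]
  have m0 : 0 ≤ a X * a (Y - X) * a Y ^ 2 := by positivity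
  have step : ∀ (m L c : ℝ), 0 ≤ m → 0 < c → c * m ≤ L → a X * a (Y - X) * a Y ^ 2 ≤ 4 * r * m ^ 4 →
      64 * r ≤ δ * c ^ 4 → a 16 * (a X * a (Y - X) * a Y ^ 2) ≤ δ * L ^ 4 := by
    intro m L c hm hc hL hA hB
    calc a 16 * (a X * a (Y - X) * a Y ^ 2) ≤ 16 * (4 * r * m ^ 4) :=
          mul_le_mul h16 hA m0 (by norm_num)
      _ = 64 * r * m ^ 4 := by ring
      _ ≤ δ * c ^ 4 * m ^ 4 := mul_le_mul_of_nonneg_right hB (by positivity)
      _ = δ * (c * m) ^ 4 := by ring
      _ ≤ δ * L ^ 4 := mul_le_mul_of_nonneg_left (pow_le_pow_left₀ (by positivity) hL 4) hδ.le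
  rcases h with h | h | h | h
  · -- X small
    refine step (a Y) _ (1 / 2) y0 (by norm_num) ?_ ?_ (by linarith)
    · have h5 := a.add_le (Y - 2 * X) (2 * X)
      rw [sub_add_cancel, map_mul, ← hκ, a.map_sub Y (2 * X)] at h5
      nlinarith
    · have h6 : a (Y - X) ≤ 2 * a Y := by nlinarith
      calc a X * a (Y - X) * a Y ^ 2 ≤ (r * a Y) * (2 * a Y) * a Y ^ 2 := by
            apply mul_le_mul_of_nonneg_right _ (by positivity)
            exact mul_le_mul h h6 d0 (by positivity)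
        _ = 2 * r * a Y ^ 4 := by ring
        _ ≤ 4 * r * a Y ^ 4 := by
            have : 0 ≤ r * a Y ^ 4 := by positivity
            nlinarith
  · -- Y small
    refine step (a X) _ (κ / 2) x0 (by positivity) ?_ ?_ ?_
    · have h5 := a.add_le (2 * X - Y) Y
      rw [sub_add_cancel, map_mul, ← hκ] at h5
      nlinarith
    · have h6 : a (Y - X) ≤ 2 * a X := by nlinarith
      have h7 : a Y ^ 2 ≤ r * a X ^ 2 := by
        calc a Y ^ 2 ≤ (r * a X) ^ 2 := pow_le_pow_left₀ y0 h 2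
          _ = r * (r * a X ^ 2) := by ring
          _ ≤ 1 * (r * a X ^ 2) := mul_le_mul_of_nonneg_right (by linarith) (by positivity)
          _ = r * a X ^ 2 := one_mul _
      calc a X * a (Y - X) * a Y ^ 2 ≤ a X * (2 * a X) * (r * a X ^ 2) := by
            apply mul_le_mul _ h7 (by positivity) (by positivity)
            exact mul_le_mul_of_nonneg_left h6 x0
        _ = 2 * r * a X ^ 4 := by ring
        _ ≤ 4 * r * a X ^ 4 := by
            have : 0 ≤ r * a X ^ 4 := by positivity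
            nlinarith
    · have : δ * (κ / 2) ^ 4 = δ * κ ^ 4 / 16 := by ring
      rw [this]
      have : 64 * r ≤ 64 * (δ * κ ^ 4 / 1024) := by linarith
      have h9 : 0 < δ * κ ^ 4 := by positivity
      linarith
  · -- Y - X small compared with Y
    refine step (a Y) _ (1 / 2) y0 (by norm_num) ?_ ?_ (by linarith)
    · have h5 := a.add_le (2 * X - Y) (2 * (Y - X))
      have e : 2 * X - Y + 2 * (Y - X) = Y := by ring
      rw [e, map_mul, ← hκ] at h5
      nlinarith
    · have h6 : a X ≤ 2 * a Y := by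
        have h7 := a.add_le (X - Y) Y
        rw [sub_add_cancel, a.map_sub X Y] at h7
        nlinarith
      calc a X * a (Y - X) * a Y ^ 2 ≤ (2 * a Y) * (r * a Y) * a Y ^ 2 := by
            apply mul_le_mul_of_nonneg_right _ (by positivity)
            exact mul_le_mul h6 h d0 (by positivity)
        _ = 2 * r * a Y ^ 4 := by ring
        _ ≤ 4 * r * a Y ^ 4 := by
            have : 0 ≤ r * a Y ^ 4 := by positivity
            nlinarith
  · -- Y - X small compared with X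
    refine step (a X) _ (1 / 2) x0 (by norm_num) ?_ ?_ (by linarith)
    · have h5 := a.add_le (2 * X - Y) (Y - X)
      have e : 2 * X - Y + (Y - X) = X := by ring
      rw [e] at h5
      nlinarith
    · have h6 : a Y ≤ 2 * a X := by
        have h7 := a.add_le (Y - X) X
        rw [sub_add_cancel] at h7
        nlinarith
      calc a X * a (Y - X) * a Y ^ 2 ≤ a X * (r * a X) * (2 * a X) ^ 2 := by
            apply mul_le_mul _ (pow_le_pow_left₀ y0 h6 2) (by positivity) (by positivity)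
            exact mul_le_mul_of_nonneg_left h x0
        _ = 4 * r * a X ^ 4 := by ring

end Pool.Agent.V8H8.AB
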