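import Pool.Agent.V8H8.AB.Ratl

/-!
# The abc inequality over the rational integers is decided near one cusp
-/

set_option autoImplicit false

namespace Pool.Agent.V8H8.AB

open NumberField Height IsDedekindDomain
open Pool.Agent.TH402.AK (K4 z4 z4_sq emb emb_apply emb_inj e e_coe place_e sum_mult absNorm_e exists_gen)

/-- pairs of rational integers -/
def Rt (p : K4 × K4) : Prop := ∃ A C : ℤ, p = (emb (A : GaussianInt), emb (C : GaussianInt))

lemma psi_rat (n : ℕ) {p : K4 × K4} (hp : Rt p) : Rt (psi n p) := by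
  obtain ⟨A, C, rfl⟩ := hp
  refine ⟨-(16 * A ^ n * (C ^ n - A ^ n) * (C ^ n) ^ 2), (2 * A ^ n - C ^ n) ^ 4, ?_⟩
  ext
  · show (oc (pw n (emb (A : GaussianInt), emb (C : GaussianInt)))).1 = _
    rw [oc_fst]
    have h16 : emb 16 = 16 := map_ofNat emb 16
    simp [pw, h16]
  · show (oc (pw n (emb (A : GaussianInt), emb (C : GaussianInt)))).2 = _
    rw [oc_snd]
    have h2 : emb 2 = 2 := map_ofNat emb 2
    simp [pw, h2]

theorem rat_near {N : GaussianInt} (hN : N ≠ 0) {δ : ℝ} (hδ : 0 < δ) :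
    ∃ D : ℕ, 1 ≤ D ∧ ∀ η : ℝ, 0 ≤ η →
      (∃ K : ℝ, ∀ A C : ℤ, A ≠ 0 → C ≠ 0 → C - A ≠ 0 → IsCoprime A C → N ∣ (A : GaussianInt) →
        |(A : ℝ)| ≤ δ * |(C : ℝ)| → (1 - η / D) * hh (emb (A : GaussianInt), emb (C : GaussianInt)) - K ≤
          W (I (emb (A : GaussianInt), emb (C : GaussianInt)))) →
      ∃ K : ℝ, ∀ A C : ℤ, A ≠ 0 → C ≠ 0 → C - A ≠ 0 →
        (1 - η) * hh (emb (A : GaussianInt), emb (C : GaussianInt)) - K ≤
          W (I (emb (A : GaussianInt), emb (C : GaussianInt))) := by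
  classical
  have hTfin : {v : FinitePlace K4 | e N ∈ v.maximalIdeal.asIdeal}.Finite := by
    refine (finite_ne_one (emb_ne hN)).subset fun v hv => ?_
    exact ne_of_lt ((fin_lt_one v N).2 hv)
  set S : Finset (AbsoluteValue K4 ℝ) :=
    (Finset.univ.image fun w : InfinitePlace K4 => w.1) ∪ (hTfin.toFinset.image fun v => v.1) with hS
  have hTB : ∀ a ∈ S, TB a := by
    intro a ha
    rcases Finset.mem_union.1 ha with h | h
    · obtain ⟨w, -, rfl⟩ := Finset.mem_image.1 h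
      exact TB_inf w
    · obtain ⟨v, -, rfl⟩ := Finset.mem_image.1 h
      exact TB_fin v
  have hδ1 : ∃ δ1 : ℝ, 0 < δ1 ∧ δ1 ≤ δ ∧ ∀ v : FinitePlace K4, e N ∈ v.maximalIdeal.asIdeal →
      δ1 ≤ v (emb N) := by
    have key : ∀ T : Finset (FinitePlace K4), ∃ δ1 : ℝ, 0 < δ1 ∧ δ1 ≤ δ ∧ ∀ v ∈ T, δ1 ≤ v (emb N) := by
      intro T
      induction T using Finset.induction_on with
      | empty => exact ⟨δ, hδ, le_rfl, by simp⟩
      | insert b T hb ih =>
        obtain ⟨r, hr, hr1, hr2⟩ := ih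
        refine ⟨min r (b (emb N)), lt_min hr (FinitePlace.pos_iff.2 (emb_ne hN)),
          (min_le_left _ _).trans hr1, fun v hv => ?_⟩
        rcases Finset.mem_insert.1 hv with rfl | hv
        · exact min_le_right _ _
        · exact (min_le_left _ _).trans (hr2 v hv)
    obtain ⟨δ1, h1, h2, h3⟩ := key hTfin.toFinset
    exact ⟨δ1, h1, h2, fun v hv => h3 v (hTfin.mem_toFinset.2 hv)⟩
  obtain ⟨δ1, hδ1, hδ2, hδ3⟩ := hδ1
  obtain ⟨M, hM, hnear⟩ := near S hTB hδ1
  obtain ⟨D1, hD1, c1⟩ := cover (K := K4) (Finset.Icc 1 M) psi (fun n => 4 * n)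
    (fun j hj => by
      have := (Finset.mem_Icc.1 hj).1
      omega) (fun j hj => good_psi j (Finset.mem_Icc.1 hj).1)
    Rt (fun p => Rt p ∧ ∀ a ∈ S, a p.1 ≤ δ1 * a p.2) (fun p hp hR => by
      obtain ⟨n, hn1, hn2, hn3⟩ := hnear p hp.1 hp.2.1
      exact ⟨n, Finset.mem_Icc.2 ⟨hn1, hn2⟩, psi_rat n hR, hn3⟩)
  have hcast : ∀ A : ℤ, A ≠ 0 → (A : GaussianInt) ≠ 0 := fun A hA => by exact_mod_cast hA
  refine ⟨D1, hD1, fun η hη h => ?_⟩
  obtain ⟨K, hK⟩ := h
  obtain ⟨K', hK'⟩ := c1 η hη ⟨K, fun p hp hU => by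
    obtain ⟨⟨A, C, rfl⟩, hU2⟩ := hU
    obtain ⟨h1, h2, h3⟩ := hp
    simp only at h1 h2 h3 hU2
    have hA : A ≠ 0 := by
      rintro rfl
      exact h1 (by simp)
    have hC : C ≠ 0 := by
      rintro rfl
      exact h2 (by simp)
    have hCA : C - A ≠ 0 := by
      intro h0
      apply h3
      rw [← map_sub, ← Int.cast_sub, h0]
      simp
    obtain ⟨g, A', C', hg, hcop, rfl, rfl⟩ : ∃ g A' C' : ℤ, g ≠ 0 ∧ IsCoprime A' C' ∧ A = g * A' ∧
        C = g * C' := by
      have hg : (Int.gcd A C : ℤ) ≠ 0 := by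
        exact_mod_cast (Int.gcd_pos_of_ne_zero_left C hA).ne'
      refine ⟨Int.gcd A C, A / Int.gcd A C, C / Int.gcd A C, hg, ?_,
        (Int.mul_ediv_cancel' (Int.gcd_dvd_left ..)).symm,
        (Int.mul_ediv_cancel' (Int.gcd_dvd_right ..)).symm⟩
      rw [Int.isCoprime_iff_gcd_eq_one]
      exact Int.gcd_ediv_gcd_ediv_gcd (Int.gcd_pos_of_ne_zero_left C hA)
    have hA' : A' ≠ 0 := right_ne_zero_of_mul hA
    have hC' : C' ≠ 0 := right_ne_zero_of_mul hC
    have hCA' : C' - A' ≠ 0 := by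
      intro h0
      apply hCA
      rw [← mul_sub, h0, mul_zero]
    have hgG := hcast g hg
    have hge := emb_ne hgG
    have eA : emb ((g * A' : ℤ) : GaussianInt) = emb (g : GaussianInt) * emb (A' : GaussianInt) := by
      rw [← map_mul]
      push_cast
      rfl
    have eC : emb ((g * C' : ℤ) : GaussianInt) = emb (g : GaussianInt) * emb (C' : GaussianInt) := by
      rw [← map_mul]
      push_cast
      rfl
    rw [eA, eC] at hU2 ⊢
    have e1 := I_smul hge (emb (A' : GaussianInt), emb (C' : GaussianInt))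
    have e2 := hh_smul hge (emb (A' : GaussianInt), emb (C' : GaussianInt))
    simp only at e1 e2
    rw [e1, e2]
    have hlt : ∀ a ∈ S, a (emb (A' : GaussianInt)) ≤ δ1 * a (emb (C' : GaussianInt)) := by
      intro a ha
      have h4 := hU2 a ha
      rw [map_mul, map_mul] at h4
      have h5 : 0 < a (emb (g : GaussianInt)) := a.pos hge
      have h6 : a (emb (g : GaussianInt)) * a (emb (A' : GaussianInt)) ≤
          a (emb (g : GaussianInt)) * (δ1 * a (emb (C' : GaussianInt))) := by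
        calc _ ≤ _ := h4
          _ = _ := by ring
      exact le_of_mul_le_mul_left h6 h5
    refine hK A' C' hA' hC' hCA' hcop (dvd_of_val hN fun v hv => ?_) ?_
    · have h4 := hlt v.1 (Finset.mem_union_right _ (Finset.mem_image_of_mem _
        (hTfin.mem_toFinset.2 hv)))
      have h5 : v.1 (emb (C' : GaussianInt)) ≤ 1 := fin_le_one v _
      have h6 : δ1 * v.1 (emb (C' : GaussianInt)) ≤ δ1 := mul_le_of_le_one_right hδ1.le h5
      exact (h4.trans h6).trans (hδ3 v hv)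
    · obtain ⟨w⟩ : Nonempty (InfinitePlace K4) := inferInstance
      have h4 := hlt w.1 (Finset.mem_union_left _ (Finset.mem_image_of_mem _ (Finset.mem_univ w)))
      have h5 : ∀ z : ℤ, w.1 (emb (z : GaussianInt)) = |(z : ℝ)| := by
        intro z
        have := place_e w (z : GaussianInt)
        have h6 : w.1 (emb (z : GaussianInt)) = ‖GaussianInt.toComplex (z : GaussianInt)‖ := by
          rw [← this]
          rfl
        rw [h6, map_intCast, Complex.norm_intCast]
      rw [h5, h5] at h4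
      exact h4.trans (mul_le_mul_of_nonneg_right hδ2 (abs_nonneg _))⟩
  refine ⟨K', fun A C hA hC hCA => hK' _ ⟨emb_ne (hcast A hA), emb_ne (hcast C hC), ?_⟩ ⟨A, C, rfl⟩⟩
  show emb (C : GaussianInt) - emb (A : GaussianInt) ≠ 0
  rw [← map_sub, ← Int.cast_sub]
  exact emb_ne (hcast _ hCA)

end Pool.Agent.V8H8.AB
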